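import Pool.Agent.H76.CHN.Star

/-!
# The star: the statement `StarStmt`
-/

set_option autoImplicit false

namespace Pool.CHN76

open Finset Real MvPolynomial
open Pool.Agent.H49.Ent Pool.Agent.H32.Dense Pool.STK Pool.MIC Pool.STB
open Pool.BFL (Pb)
open Pool.K2S (Pe)

theorem log_bd {M x c s : ℝ} (hM : 0 < M) (hx : 0 < x) (hc : 0 < c) (h : x ≤ c * M ^ s) :
    Real.log x ≤ Real.log c + s * Real.log M := by
  have h1 := Real.log_le_log hx h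
  rw [Real.log_mul hc.ne' (Real.rpow_pos_of_pos hM s).ne', Real.log_rpow hM] at h1
  exact h1

/-- The numbers of the counting. -/
theorem num {M A c' h e₀ γ1 γ₀ ℓ K η d : ℝ} {b : ℕ} (hM : 1 ≤ M) (hℓ : ℓ = Real.log M)
    (hA : 1 ≤ A) (hc : 0 < c') (hh : 0 < h) (he : 0 < e₀) (hγ1 : 0 < γ1) (hγ₀ : 0 < γ₀)
    (hK : K = M ^ e₀) (hη : η = M ^ (-γ1)) (hd : d = M ^ (-γ₀ * 4))
    (g1 : 2 * γ1 ≤ h / 4) (g2 : (8 * b + 12) * γ₀ ≤ h / 8) (g3 : (64 / c' + 5) * e₀ ≤ h / 8)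
    (g4 : 36 * Real.log 2 / c' + 3 * Real.log 2 + Real.log (7 * A) + Real.log (3 * A) +
      3 * Real.log 400 ≤ h / 8 * ℓ) (hℓ0 : 0 < ℓ)
    (hin : 4 * Real.log (2 * M + 1) - (16 * (e₀ * ℓ) + 9 * Real.log 2) / (c' / 4) ≤
      3 * Real.log (2 * (2 * M) + 1) + ((1 - h) * ℓ + e₀ * ℓ) +
      Real.log (2 * (2 * (A / (η * d ^ b)) + 1) + 1) +
      Real.log (2 * (A * K / (η * d ^ b)) + 1) +
      3 * Real.log (2 * (18 * (8 * K + 1) / d) + 1)) : False := by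
  have hM0 : 0 < M := by linarith
  have hA0 : 0 < A := by linarith
  obtain ⟨a, ha⟩ : ∃ a : ℝ, a = γ1 + 4 * b * γ₀ := ⟨_, rfl⟩
  have ha0 : 0 ≤ a := by rw [ha]; positivity
  have hP : η * d ^ b = M ^ (-a) := by
    rw [hη, hd, ← Real.rpow_natCast, ← Real.rpow_mul hM0.le, ← Real.rpow_add hM0, ha]
    congr 1
    ring
  have hP1 : 1 / (η * d ^ b) = M ^ a := by
    rw [hP, Real.rpow_neg hM0.le, one_div, inv_inv]
  have hPa : 1 ≤ M ^ a := Real.one_le_rpow hM ha0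
  have hK1 : 1 ≤ K := by rw [hK]; exact Real.one_le_rpow hM he.le
  have hd1 : 1 / d = M ^ (4 * γ₀) := by
    rw [hd, one_div, ← Real.rpow_neg hM0.le]
    congr 1
    ring
  have hPd : 1 ≤ M ^ (4 * γ₀) := Real.one_le_rpow hM (by positivity)
  have l1 : Real.log (2 * (2 * M) + 1) ≤ Real.log (2 * M + 1) + Real.log 2 := by
    rw [← Real.log_mul (by positivity) (by norm_num)]
    exact Real.log_le_log (by positivity) (by linarith)
  have l2 : ℓ ≤ Real.log (2 * M + 1) := by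
    rw [hℓ]
    exact Real.log_le_log hM0 (by linarith)
  have e3 : A / (η * d ^ b) = A * M ^ a := by
    rw [← hP1]
    ring
  have l3 : Real.log (2 * (2 * (A / (η * d ^ b)) + 1) + 1) ≤ Real.log (7 * A) + a * ℓ := by
    rw [hℓ, e3]
    refine log_bd hM0 (by positivity) (by positivity) ?_
    nlinarith
  have e4 : A * K / (η * d ^ b) = A * M ^ (e₀ + a) := by
    rw [Real.rpow_add hM0, ← hP1, ← hK]
    ring
  have hPea : 1 ≤ M ^ (e₀ + a) := Real.one_le_rpow hM (by positivity)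
  have l4 : Real.log (2 * (A * K / (η * d ^ b)) + 1) ≤ Real.log (3 * A) + (e₀ + a) * ℓ := by
    rw [hℓ, e4]
    refine log_bd hM0 (by positivity) (by positivity) ?_
    nlinarith
  have l5 : Real.log (2 * (18 * (8 * K + 1) / d) + 1) ≤
      Real.log 400 + (e₀ + 4 * γ₀) * ℓ := by
    have e5 : 18 * (8 * K + 1) / d = 18 * (8 * K + 1) * M ^ (4 * γ₀) := by
      rw [← hd1]
      ring
    rw [hℓ, e5]
    refine log_bd hM0 (by positivity) (by norm_num) ?_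
    rw [Real.rpow_add hM0, ← hK]
    have h1 : M ^ (4 * γ₀) ≤ K * M ^ (4 * γ₀) := le_mul_of_one_le_left (by positivity) hK1
    nlinarith
  have e6 : (16 * (e₀ * ℓ) + 9 * Real.log 2) / (c' / 4) =
      64 / c' * e₀ * ℓ + 36 * Real.log 2 / c' := by
    field_simp
    ring
  rw [e6] at hin
  have k1 : 2 * γ1 * ℓ ≤ h / 4 * ℓ := mul_le_mul_of_nonneg_right g1 hℓ0.le
  have k2 : (8 * b + 12) * γ₀ * ℓ ≤ h / 8 * ℓ := mul_le_mul_of_nonneg_right g2 hℓ0.le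
  have k3 : (64 / c' + 5) * e₀ * ℓ ≤ h / 8 * ℓ := mul_le_mul_of_nonneg_right g3 hℓ0.le
  have k4 : 0 < h * ℓ := by positivity
  have k5 : a * ℓ = γ1 * ℓ + 4 * b * γ₀ * ℓ := by rw [ha]; ring
  nlinarith

/-- **The star.** -/
theorem star : StarStmt := by
  intro b h c' hb hh hc'
  obtain ⟨C, hC1, hread⟩ := read8 b
  obtain ⟨A, hA, hcount⟩ := count8 b hb
  have hC0 : (0 : ℝ) < C := by exact_mod_cast hC1
  have hC1' : (1 : ℝ) ≤ C := by exact_mod_cast hC1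
  obtain ⟨h1, hh1, hh1a, hh1b⟩ : ∃ h1 : ℝ, 0 < h1 ∧ h1 ≤ h ∧ h1 ≤ 1 :=
    ⟨min h 1, lt_min hh one_pos, min_le_left _ _, min_le_right _ _⟩
  obtain ⟨γ1, hγ1d⟩ : ∃ γ1 : ℝ, γ1 = h1 / 8 := ⟨_, rfl⟩
  have hγ1 : 0 < γ1 := by rw [hγ1d]; positivity
  obtain ⟨γρ, hγρd⟩ : ∃ γρ : ℝ, γρ = γ1 / (8 * C) := ⟨_, rfl⟩
  have hγρ : 0 < γρ := by rw [hγρd]; positivity
  have hb0 : (0 : ℝ) ≤ b := Nat.cast_nonneg b
  refine ⟨γ1 / 4, min (γ1 / (32 * C)) (h1 / (8 * (8 * b + 12))), by positivity,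
    lt_min (by positivity) (by positivity), ?_⟩
  intro γ₀ hγ₀ hγ₀le
  have hγa : γ₀ ≤ γ1 / (32 * C) := hγ₀le.trans (min_le_left _ _)
  have hγb : γ₀ ≤ h1 / (8 * (8 * b + 12)) := hγ₀le.trans (min_le_right _ _)
  obtain ⟨e₀, he₀, he1, he2, he3⟩ : ∃ e₀ : ℝ, 0 < e₀ ∧ e₀ ≤ 1 ∧ e₀ ≤ γρ * c' / 64 ∧
      e₀ ≤ h1 / 8 / (64 / c' + 5) :=
    ⟨min 1 (min (γρ * c' / 64) (h1 / 8 / (64 / c' + 5))),
      lt_min one_pos (lt_min (by positivity) (by positivity)), min_le_left _ _,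
      (min_le_right _ _).trans (min_le_left _ _), (min_le_right _ _).trans (min_le_right _ _)⟩
  obtain ⟨Cst, hCst⟩ : ∃ Cst : ℝ, Cst = 36 * Real.log 2 / c' + 3 * Real.log 2 +
    Real.log (7 * A) + Real.log (3 * A) + 3 * Real.log 400 := ⟨_, rfl⟩
  have hlog2 : 0 < Real.log 2 := Real.log_pos (by norm_num)
  have hCst0 : 0 ≤ Cst := by
    rw [hCst]
    have k1 : 0 ≤ Real.log (7 * A) := Real.log_nonneg (by linarith)
    have k2 : 0 ≤ Real.log (3 * A) := Real.log_nonneg (by linarith)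
    have k3 : 0 ≤ Real.log 400 := Real.log_nonneg (by norm_num)
    positivity
  obtain ⟨L₀, hL₀⟩ : ∃ L₀ : ℝ, L₀ = Real.log (C * 36 ^ C) := ⟨_, rfl⟩
  have hC36 : (1 : ℝ) ≤ C * 36 ^ C :=
    one_le_mul_of_one_le_of_one_le hC1' (one_le_pow₀ (by norm_num))
  have hL₀0 : 0 ≤ L₀ := by rw [hL₀]; exact Real.log_nonneg hC36
  obtain ⟨ℓ₀, hℓ₀⟩ : ∃ ℓ₀ : ℝ, ℓ₀ = 1 + 8 * Real.log 2 / (γρ * c') + 8 * Cst / h1 +
    2 * L₀ / γ1 := ⟨_, rfl⟩
  refine ⟨e₀, c' / 12, 4 / c', ⌈Real.exp ℓ₀⌉₊, he₀, by positivity, by positivity, ?_⟩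
  intro M hM Ω Λ Z Y 𝒟 _ p L z y t D X Φ x J H
  -- the size of `M`
  have hexp : Real.exp ℓ₀ ≤ M := (Nat.le_ceil _).trans (by exact_mod_cast hM)
  have hM0 : (0 : ℝ) < M := lt_of_lt_of_le (Real.exp_pos _) hexp
  obtain ⟨ℓ, hℓ⟩ : ∃ ℓ : ℝ, ℓ = Real.log M := ⟨_, rfl⟩
  have hℓℓ : ℓ₀ ≤ ℓ := by
    rw [hℓ, ← Real.log_exp ℓ₀]
    exact Real.log_le_log (Real.exp_pos _) hexp
  have q1 : 0 ≤ 8 * Real.log 2 / (γρ * c') := by positivity
  have q2 : 0 ≤ 8 * Cst / h1 := by positivity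
  have q3 : 0 ≤ 2 * L₀ / γ1 := by positivity
  have hℓ1 : 1 ≤ ℓ := by linarith
  have r1 : 8 * Real.log 2 / (γρ * c') ≤ ℓ := by linarith
  have r2 : 8 * Cst / h1 ≤ ℓ := by linarith
  have r3 : 2 * L₀ / γ1 ≤ ℓ := by linarith
  have hM1 : (1 : ℝ) ≤ M := by
    refine le_trans ?_ hexp
    exact Real.one_le_exp (by rw [hℓ₀]; linarith)
  have hM1' : 1 ≤ M := by exact_mod_cast hM1
  rw [← hℓ] at H
  obtain ⟨d, hd⟩ : ∃ d : ℝ, d = (M : ℝ) ^ (-γ₀ * 4) := ⟨_, rfl⟩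
  obtain ⟨δ, hδ⟩ : ∃ δ : ℝ, δ = (M : ℝ) ^ (-(γ1 / 4)) := ⟨_, rfl⟩
  obtain ⟨η, hη⟩ : ∃ η : ℝ, η = (M : ℝ) ^ (-γ1) := ⟨_, rfl⟩
  obtain ⟨ρ, hρ⟩ : ∃ ρ : ℝ, ρ = (M : ℝ) ^ (-γρ) := ⟨_, rfl⟩
  have hd0 : 0 < d := by rw [hd]; exact Real.rpow_pos_of_pos hM0 _
  have hρ0 : 0 < ρ := by rw [hρ]; exact Real.rpow_pos_of_pos hM0 _
  have hη0 : 0 < η := by rw [hη]; exact Real.rpow_pos_of_pos hM0 _
  have hd1 : d ≤ 1 := by rw [hd]; exact Real.rpow_le_one_of_one_le_of_nonpos hM1 (by linarith)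
  have hρ1 : ρ ≤ 1 := by rw [hρ]; exact Real.rpow_le_one_of_one_le_of_nonpos hM1 (by linarith)
  have hη1 : η ≤ 1 := by rw [hη]; exact Real.rpow_le_one_of_one_le_of_nonpos hM1 (by linarith)
  rw [← hd, ← hδ]
  by_contra hcon
  rw [not_le] at hcon
  have hL := R8_law H.law L z
  -- transport to the long chain
  have hcon' : c' < Pb (R8 p L z) (fun w => ¬ (d ≤ |dS X (dat D L z w)| ∧
      Inv (X (dat D L z w).1.2.2) (Φ (dat D L z w).1.2.2) (fS X Φ (dat D L z w)) δ)) := by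
    refine lt_of_lt_of_le hcon ?_
    rw [← Marg.Pb_eq (R8_Q6 H.law L z)]
    refine Pb_mono hL.nonneg fun w hw hE => ?_
    obtain ⟨-, ⟨l1, l2, l3, l4⟩, -⟩ := R8_pos H.law L z hw
    rw [l2, l3, l4] at hE
    exact hE
  -- general position
  have hdet : Pb (R8 p L z) (fun w => ¬ d ≤ |dS X (dat D L z w)|) ≤ c' / 4 := by
    have g := gp_det H.law (L := L) (z := z) (D := D) (X := X)
      (Real.rpow_pos_of_pos hM0 (-γ₀)).le H.gp
    rw [← Marg.Pb_eq (R8_Q6 H.law L z)] at g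
    refine le_trans (Pb_mono hL.nonneg fun w hw hE => ?_) (g.trans (le_of_eq (by ring)))
    obtain ⟨-, ⟨l1, l2, l3, l4⟩, -⟩ := R8_pos H.law L z hw
    rw [l2, l3, l4]
    intro hgt
    refine hE (le_trans ?_ hgt.le)
    rw [hd, ← Real.rpow_natCast, ← Real.rpow_mul hM0.le]
    exact Real.rpow_le_rpow_of_exponent_le hM1 (by push_cast; linarith)
  have hbad : c' / 2 < Pb (R8 p L z) (fun w => Bd X Φ d δ (dat D L z w)) := by
    have h2 := Pb_le2 hL.nonneg (A := fun w => ¬ (d ≤ |dS X (dat D L z w)| ∧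
      Inv (X (dat D L z w).1.2.2) (Φ (dat D L z w).1.2.2) (fS X Φ (dat D L z w)) δ))
      (B := fun w => ¬ d ≤ |dS X (dat D L z w)|) (C := fun w => Bd X Φ d δ (dat D L z w))
      (fun w _ g1 g2 g3 => by
        rw [not_not] at g1
        exact g3 ⟨g1, by
          by_contra hI
          exact g2 ⟨g1, hI⟩⟩)
    linarith
  -- reading
  have hρC : ρ ^ C = (M : ℝ) ^ (-(γ1 / 8)) := by
    rw [hρ, ← Real.rpow_natCast, ← Real.rpow_mul hM0.le, hγρd]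
    congr 1
    field_simp
  have hCM : (C : ℝ) * 36 ^ C ≤ (M : ℝ) ^ (γ1 / 2) := by
    have h2 : L₀ ≤ γ1 / 2 * ℓ := by
      rw [div_le_iff₀ hγ1] at r3
      linarith
    rw [hL₀, hℓ, ← Real.log_rpow hM0] at h2
    exact (Real.log_le_log_iff (by positivity) (Real.rpow_pos_of_pos hM0 _)).1 h2
  have hγ1le : γ1 ≤ 1 / 8 := by rw [hγ1d]; linarith
  have c1 : (C : ℝ) ≤ ρ ^ C * (2 * M + 1) := by
    have h2 : (C : ℝ) ≤ C * 36 ^ C := le_mul_of_one_le_right hC0.le (one_le_pow₀ (by norm_num))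
    have h3 : (M : ℝ) ^ (γ1 / 2) ≤ (M : ℝ) ^ (-(γ1 / 8)) * M := by
      nth_rewrite 3 [← Real.rpow_one (M : ℝ)]
      rw [← Real.rpow_add hM0]
      exact Real.rpow_le_rpow_of_exponent_le hM1 (by linarith)
    rw [hρC]
    have h4 : 0 < (M : ℝ) ^ (-(γ1 / 8)) := Real.rpow_pos_of_pos hM0 _
    nlinarith
  have c2 : C * (36 / d / ρ) ^ C * η ≤ δ := by
    have e1 : (36 / d / ρ : ℝ) = 36 * (M : ℝ) ^ (4 * γ₀ + γρ) := by
      rw [hd, hρ, Real.rpow_add hM0, Real.rpow_neg hM0.le,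
        show -γ₀ * 4 = -(4 * γ₀) by ring, Real.rpow_neg hM0.le]
      field_simp
    have e2 : ((M : ℝ) ^ (4 * γ₀ + γρ)) ^ C = (M : ℝ) ^ ((4 * γ₀ + γρ) * C) := by
      rw [← Real.rpow_natCast, ← Real.rpow_mul hM0.le]
    have hexp2 : (4 * γ₀ + γρ) * C ≤ γ1 / 4 := by
      have k1 : γ₀ * (32 * C) ≤ γ1 := by
        rwa [le_div_iff₀ (by positivity)] at hγa
      have k2 : γρ * C = γ1 / 8 := by
        rw [hγρd]
        field_simp
      nlinarith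
    rw [e1, mul_pow, e2, hη, hδ]
    calc (C : ℝ) * (36 ^ C * (M : ℝ) ^ ((4 * γ₀ + γρ) * C)) * (M : ℝ) ^ (-γ1) =
        (C * 36 ^ C) * ((M : ℝ) ^ ((4 * γ₀ + γρ) * C) * (M : ℝ) ^ (-γ1)) := by ring
      _ ≤ (M : ℝ) ^ (γ1 / 2) * ((M : ℝ) ^ (γ1 / 4) * (M : ℝ) ^ (-γ1)) := by
          refine mul_le_mul hCM ?_ (by positivity) (by positivity)
          exact mul_le_mul_of_nonneg_right (Real.rpow_le_rpow_of_exponent_le hM1 hexp2)
            (by positivity)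
      _ = (M : ℝ) ^ (-(γ1 / 4)) := by
          rw [← Real.rpow_add hM0, ← Real.rpow_add hM0]
          congr 1
          ring
  have hr := hread H hM1' hd0 hd1 hρ0 hρ1 c1 c2
  have hlogρ : Real.log (1 / ρ) = γρ * ℓ := by
    rw [one_div, Real.log_inv, hρ, Real.log_rpow hM0, hℓ]
    ring
  rw [hlogρ] at hr
  have hr' : Pb (R8 p L z) (fun w => Bd X Φ d δ (dat D L z w) ∧
      |dv X Φ (dat D L z w) (rt M t w)| ≤ η) ≤ c' / 4 := by
    have hγℓ : 0 < γρ * ℓ := by positivity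
    refine le_of_mul_le_mul_right (hr.trans ?_) hγℓ
    have k1 : 8 * e₀ ≤ γρ * c' / 8 := by linarith
    have k2 : Real.log 2 ≤ γρ * c' / 8 * ℓ := by
      rw [div_le_iff₀ (by positivity)] at r1
      linarith
    have k3 := mul_le_mul_of_nonneg_right k1 (by linarith : 0 ≤ ℓ)
    nlinarith
  -- the event of the counting
  have hE : c' / 4 ≤ Pe (R8 p L z) (fun w => Bd X Φ d δ (dat D L z w) ∧
      η < |dv X Φ (dat D L z w) (rt M t w)|) := by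
    rw [Pb_Pe]
    have h2 := Pb_le2 hL.nonneg (A := fun w => Bd X Φ d δ (dat D L z w))
      (B := fun w => Bd X Φ d δ (dat D L z w) ∧ |dv X Φ (dat D L z w) (rt M t w)| ≤ η)
      (C := fun w => Bd X Φ d δ (dat D L z w) ∧ η < |dv X Φ (dat D L z w) (rt M t w)|)
      (fun w _ g1 g2 g3 => by
        rcases le_or_gt (|dv X Φ (dat D L z w) (rt M t w)|) η with h5 | h5
        · exact g1 ⟨g3, h5⟩
        · exact g2 ⟨g3, h5⟩)
    linarith
  have hK1 : (1 : ℝ) ≤ (M : ℝ) ^ e₀ := Real.one_le_rpow hM1 he₀.le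
  have hKM : (M : ℝ) ^ e₀ ≤ M := by
    nth_rewrite 2 [← Real.rpow_one (M : ℝ)]
    exact Real.rpow_le_rpow_of_exponent_le hM1 he1
  have hcnt := hcount H hK1 hKM (by positivity) (d := d) (η' := η) (m := c' / 4) hd0 hd1 hη0 hη1
    (by positivity) (by rw [one_div, inv_div]) _ hE
    (fun w _ hw => ⟨hw.1.1, hw.2.le⟩)
  rw [← hℓ] at hcnt
  refine num hM1 hℓ hA hc' hh he₀ hγ1 hγ₀ rfl hη hd ?_ ?_ ?_ ?_ (by linarith) hcnt
  · rw [hγ1d]
    linarith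
  · rw [le_div_iff₀ (by positivity)] at hγb
    linarith
  · rw [le_div_iff₀ (by positivity)] at he3
    linarith
  · rw [← hCst]
    rw [div_le_iff₀ hh1] at r2
    nlinarith

end Pool.CHN76
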