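import Pool.Agent.H76.CHN.Fin

/-!
# The star in a block of digits, with a side

`M = Q m`: the coarse times (scale `Q`) are in the context; the value of the end is nonfull in the block
given its coarse value, the position, the closed record and a side `Sd`; the side of the end costs little
given the data of the chain and the coarse times.
-/

set_option autoImplicit false

namespace Pool.CHN76

open Finset Real MvPolynomial
open Pool.Agent.H49.Ent Pool.Agent.H32.Dense Pool.STK Pool.MIC Pool.STB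
open Pool.BFL (Pb)
open Pool.K2S (Pe)

/-- **The variation of the end.** -/
theorem val_var (b : ℕ) (hb : 1 ≤ b) : ∃ A : ℝ, 1 ≤ A ∧
    ∀ {Ω Λ Z Y E : Type} [Fintype Ω]
    {p : Ω → ℝ} {L : Ω → Λ} {z : Ω → Z} {y : Ω → Y} {t : Ω → ℤ} {D : Λ → E}
    {X : E → V3} {Φ : E → Po} {x : Z → V3} {J : Z → Po} {M : ℕ} {K e h R η c : ℝ},
    ChH p L z y t D X Φ x J b M K e h R η c → 1 ≤ K → K ≤ M → ∀ {d r : ℝ}, 0 < d → d ≤ 1 →
    K / M ≤ r → r ≤ 1 →
    ∀ {w w' : ((((((Ω × Ω) × Ω) × Ω) × Ω) × Ω) × Ω) × Ω}, 0 < R8 p L z w → 0 < R8 p L z w' →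
    d ≤ |dS X (dat D L z w)| → dat D L z w = dat D L z w' →
    (∀ k, |rt M t w k - rt M t w' k| ≤ r) →
    Bx (15 * r) (x (z w.2) - x (z w'.2)) ∧
      |val x J (z w.2) - val x J (z w'.2)| ≤ A * K / d ^ b * r := by
  obtain ⟨A, hA, hgeo⟩ := geo b hb
  obtain ⟨A₁, hA₁, hder⟩ := der_box b
  obtain ⟨G, hG, hfbb⟩ := Pool.STB6.fbb b
  have h8 : (1 : ℝ) ≤ 8 ^ b := one_le_pow₀ (by norm_num)
  have h16 : (1 : ℝ) ≤ 16 ^ b := one_le_pow₀ (by norm_num)
  refine ⟨45 * A₁ + 45 * (A₁ * 8 ^ b) + 36 * (A₁ * 16 ^ b * G) + 2 * A, by nlinarith [mul_pos (lt_of_lt_of_le one_pos hA₁) (lt_of_lt_of_le one_pos h8), mul_pos (mul_pos (lt_of_lt_of_le one_pos hA₁) (lt_of_lt_of_le one_pos h16)) (lt_of_lt_of_le one_pos hG)], ?_⟩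
  intro Ω Λ Z Y E _ p L z y t D X Φ x J M K e h R η c H hK hKM d r hd hd1 hκr hr1 w w' hw hw'
    hdw hdat hrt
  have hdet : dS X (dat D L z w) ≠ 0 := by
    intro h0
    rw [h0, abs_zero] at hdw
    linarith
  have hM1 : (0 : ℝ) < M := by linarith
  have hM : 0 < M := by exact_mod_cast hM1
  obtain ⟨⟨g1, -⟩, -, -⟩ := R8_pos H.law L z hw
  obtain ⟨⟨g1', -⟩, -, -⟩ := R8_pos H.law L z hw'
  obtain ⟨a1, v1⟩ := hgeo H hK hKM w hw hdet
  obtain ⟨a2, v2⟩ := hgeo H hK hKM w' hw' (by rw [← hdat]; exact hdet)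
  have hz : z w.1.1.1.1.1.1.1 = z w'.1.1.1.1.1.1.1 := (Prod.ext_iff.mp hdat).2
  have ht := H.tz _ _ g1 g1' hz
  rw [← hdat, ← hz, ← ht] at a2
  rw [← hdat, ← hz] at v2
  obtain ⟨S, hS⟩ : ∃ S, S = dat D L z w := ⟨_, rfl⟩
  rw [← hS] at a1 a2 v1 v2 hdw
  obtain ⟨κ, hκ⟩ : ∃ κ : ℝ, κ = K / M := ⟨_, rfl⟩
  have hκ0 : 0 ≤ κ := by rw [hκ]; positivity
  rw [← hκ] at a1 a2 v1 v2 hκr
  have hr0 : 0 ≤ r := hκ0.trans hκr
  have hApos : 0 < A := by linarith
  have hA₁0 : 0 < A₁ := by linarith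
  have hG0 : 0 < G := by linarith
  have hdb : 0 < d ^ b := pow_pos hd b
  have hdb1 : d ^ b ≤ 1 := pow_le_one₀ hd.le hd1
  obtain ⟨W, hW⟩ : ∃ W : ℝ, W = G / d ^ b := ⟨_, rfl⟩
  have hW1 : 1 ≤ W := by
    rw [hW, le_div_iff₀ hdb]
    linarith
  -- the vectors
  have hv : ∀ w, 0 < R8 p L z w → Bx 6 (vS X S (rt M t w)) := by
    intro w hw
    have h1 := tm_le H hw
    have h2 : ∀ j k : Fin 4, |rt M t w j - rt M t w k| ≤ 2 := fun j k =>
      div_abs_le hM (h1 j) (h1 k)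
    unfold vS
    exact Bx.mono (Bx.add (Bx.add (Bx.smul (H.X1 _) (h2 _ _)) (Bx.smul (H.X1 _) (h2 _ _)))
      (Bx.smul (H.X1 _) (h2 _ _))) (by norm_num)
  have hvv : Bx (6 * r) (vS X S (rt M t w) - vS X S (rt M t w')) := by
    have hk : ∀ j k : Fin 4, |(rt M t w j - rt M t w k) - (rt M t w' j - rt M t w' k)| ≤
        2 * r := by
      intro j k
      have e : (rt M t w j - rt M t w k) - (rt M t w' j - rt M t w' k) =
        (rt M t w j - rt M t w' j) - (rt M t w k - rt M t w' k) := by ring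
      rw [e]
      have := abs_sub (rt M t w j - rt M t w' j) (rt M t w k - rt M t w' k)
      have := hrt j
      have := hrt k
      linarith
    have e : vS X S (rt M t w) - vS X S (rt M t w') =
        ((rt M t w 1 - rt M t w 0) - (rt M t w' 1 - rt M t w' 0)) • X S.1.2.1 +
        ((rt M t w 2 - rt M t w 1) - (rt M t w' 2 - rt M t w' 1)) • X S.1.1.2 +
        ((rt M t w 3 - rt M t w 2) - (rt M t w' 3 - rt M t w' 2)) • X S.1.1.1 := by
      unfold vS
      rw [sub_smul (rt M t w 1 - rt M t w 0), sub_smul (rt M t w 2 - rt M t w 1),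
        sub_smul (rt M t w 3 - rt M t w 2)]
      abel
    rw [e]
    refine Bx.mono (Bx.add (Bx.add (Bx.smul (H.X1 _) (hk _ _)) (Bx.smul (H.X1 _) (hk _ _)))
      (Bx.smul (H.X1 _) (hk _ _))) ?_
    linarith
  have hpos : Bx (15 * r) (x (z w.2) - x (z w'.2)) := by
    have e : x (z w.2) - x (z w'.2) =
        (x (z w.2) - x (z w.1.1.1.1.1.1.1) -
          ((rt M t w 0 - (t w.1.1.1.1.1.1.1 : ℝ) / M) • X S.1.2.2 + vS X S (rt M t w))) -
        (x (z w'.2) - x (z w.1.1.1.1.1.1.1) -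
          ((rt M t w' 0 - (t w.1.1.1.1.1.1.1 : ℝ) / M) • X S.1.2.2 + vS X S (rt M t w'))) +
        ((rt M t w 0 - rt M t w' 0) • X S.1.2.2 +
          (vS X S (rt M t w) - vS X S (rt M t w'))) := by
      rw [sub_smul (rt M t w 0) (rt M t w' 0), sub_smul (rt M t w 0), sub_smul (rt M t w' 0)]
      abel
    rw [e]
    refine Bx.mono (Bx.add (Bx.sub a1 a2) (Bx.add (Bx.smul (H.X1 _) (hrt 0)) hvv)) ?_
    linarith
  refine ⟨hpos, ?_⟩
  have b0 := H.x1 (z w.1.1.1.1.1.1.1)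
  have b4 := H.x1 (z w.2)
  have b4' := H.x1 (z w'.2)
  obtain ⟨hJd, hJ⟩ := H.J1 (z w.1.1.1.1.1.1.1)
  have hΦ := H.Φ1 S.1.2.2
  have hX3 : ∀ a, Bx 1 ((![X S.1.2.1, X S.1.1.2, X S.1.1.1] : Fin 3 → V3) a) := by
    intro a
    fin_cases a
    exacts [H.X1 _, H.X1 _, H.X1 _]
  have hΦ3 : ∀ a, Hb b 1 ((![Φ S.1.2.1, Φ S.1.1.2, Φ S.1.1.1] : Fin 3 → Po) a) := by
    intro a
    fin_cases a
    exacts [H.Φ1 _, H.Φ1 _, H.Φ1 _]
  have hf := hfbb ![X S.1.2.1, X S.1.1.2, X S.1.1.1] ![Φ S.1.2.1, Φ S.1.1.2, Φ S.1.1.1] d hd hd1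
    hX3 hdw hΦ3
  obtain ⟨f, hfd⟩ : ∃ f, f = fS X Φ S := ⟨_, rfl⟩
  have hf' : Hb b W f := by rw [hfd, hW]; exact hf
  rw [← hfd] at v1 v2
  have t1 : |eval (x (z w.2)) (J (z w.1.1.1.1.1.1.1)) -
      eval (x (z w'.2)) (J (z w.1.1.1.1.1.1.1))| ≤ 45 * A₁ * K * r := by
    have h1 := lip_box (P := J (z w.1.1.1.1.1.1.1)) (r := 1) (B := A₁ * K / 1)
      (fun q hq j => hder _ hJd 1 K one_pos hJ q hq j) b4 b4' hpos
    refine h1.trans (le_of_eq ?_)
    ring
  have t2 : |eval (x (z w.2) - x (z w.1.1.1.1.1.1.1)) (Φ S.1.2.2) -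
      eval (x (z w'.2) - x (z w.1.1.1.1.1.1.1)) (Φ S.1.2.2)| ≤ 45 * (A₁ * 8 ^ b) * r := by
    have h1 := lip_box (P := Φ S.1.2.2) (r := 8) (B := A₁ * 8 ^ b)
      (u := x (z w.2) - x (z w.1.1.1.1.1.1.1)) (v := x (z w'.2) - x (z w.1.1.1.1.1.1.1))
      (δ := 15 * r) (fun q hq j => by
        have h2 := hder (Φ S.1.2.2) (hb_deg hΦ) 8 (8 ^ b * 1) (by norm_num)
          (fun q hq => hb_large hΦ (by norm_num) hq) q hq j
        rw [mul_one] at h2
        refine h2.trans ?_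
        have : 0 ≤ A₁ * 8 ^ b := by positivity
        linarith) (Bx.mono (Bx.sub b4 b0) (by norm_num)) (Bx.mono (Bx.sub b4' b0) (by norm_num))
      (by
        rw [sub_sub_sub_cancel_right]
        exact hpos)
    refine h1.trans (le_of_eq ?_)
    ring
  have t3 : |eval (vS X S (rt M t w)) (Φ S.1.2.2 - f) -
      eval (vS X S (rt M t w')) (Φ S.1.2.2 - f)| ≤ 36 * (A₁ * 16 ^ b * W) * r := by
    have hgd : (Φ S.1.2.2 - f).totalDegree ≤ b :=
      (totalDegree_sub _ _).trans (max_le (hb_deg hΦ) (hb_deg hf'))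
    have hgb : ∀ q, Bx 16 q → |eval q (Φ S.1.2.2 - f)| ≤ 2 * (16 ^ b * W) := by
      intro q hq
      rw [map_sub]
      refine (abs_sub _ _).trans ?_
      have h1 := hb_large hΦ (by norm_num : (0 : ℝ) < 16) hq
      have h2 := hb_large hf' (by norm_num : (0 : ℝ) < 16) hq
      have h3 : (16 : ℝ) ^ b * 1 ≤ 16 ^ b * W := mul_le_mul_of_nonneg_left hW1 (by linarith)
      linarith
    have h1 := lip_box (P := Φ S.1.2.2 - f) (r := 16) (B := 2 * (A₁ * 16 ^ b * W))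
      (u := vS X S (rt M t w)) (v := vS X S (rt M t w')) (δ := 6 * r)
      (fun q hq j => by
        have h2 := hder _ hgd 16 (2 * (16 ^ b * W)) (by norm_num) hgb q hq j
        refine h2.trans ?_
        have : 0 ≤ A₁ * 16 ^ b * W := by positivity
        have e : A₁ * (2 * (16 ^ b * W)) = 2 * (A₁ * 16 ^ b * W) := by ring
        rw [e]
        linarith) (Bx.mono (hv w hw) (by norm_num)) (Bx.mono (hv w' hw') (by norm_num)) hvv
    refine h1.trans (le_of_eq ?_)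
    ring
  have hKd : K ≤ K / d ^ b := by
    rw [le_div_iff₀ hdb]
    have := mul_le_mul_of_nonneg_left hdb1 (by linarith : 0 ≤ K)
    linarith
  have h1Kd : 1 ≤ K / d ^ b := hK.trans hKd
  have hWK : W ≤ G * (K / d ^ b) := by
    rw [hW, div_eq_mul_one_div]
    refine mul_le_mul_of_nonneg_left ?_ hG0.le
    exact div_le_div_of_nonneg_right hK hdb.le
  obtain ⟨U, hU⟩ : ∃ U : ℝ, U = K / d ^ b := ⟨_, rfl⟩
  rw [← hU] at hKd h1Kd hWK
  have s1 : 45 * A₁ * K * r ≤ 45 * A₁ * U * r := by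
    have := mul_le_mul_of_nonneg_left hKd (by positivity : (0 : ℝ) ≤ 45 * A₁)
    exact mul_le_mul_of_nonneg_right this hr0
  have s2 : 45 * (A₁ * 8 ^ b) * r ≤ 45 * (A₁ * 8 ^ b) * U * r := by
    have := mul_le_mul_of_nonneg_left h1Kd (by positivity : (0 : ℝ) ≤ 45 * (A₁ * 8 ^ b))
    rw [mul_one] at this
    exact mul_le_mul_of_nonneg_right this hr0
  have s3 : 36 * (A₁ * 16 ^ b * W) * r ≤ 36 * (A₁ * 16 ^ b * G) * U * r := by
    have := mul_le_mul_of_nonneg_left hWK (by positivity : (0 : ℝ) ≤ 36 * (A₁ * 16 ^ b))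
    have e1 : 36 * (A₁ * 16 ^ b) * W = 36 * (A₁ * 16 ^ b * W) := by ring
    have e2 : 36 * (A₁ * 16 ^ b) * (G * U) = 36 * (A₁ * 16 ^ b * G) * U := by ring
    rw [e1, e2] at this
    exact mul_le_mul_of_nonneg_right this hr0
  have s4 : A * κ ≤ A * U * r := by
    have k1 : κ ≤ U * r := by
      have := mul_le_mul_of_nonneg_right h1Kd hr0
      linarith
    rw [mul_assoc]
    exact mul_le_mul_of_nonneg_left k1 hApos.le
  have e : (45 * A₁ + 45 * (A₁ * 8 ^ b) + 36 * (A₁ * 16 ^ b * G) + 2 * A) * K / d ^ b * r =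
      45 * A₁ * U * r + 45 * (A₁ * 8 ^ b) * U * r + 36 * (A₁ * 16 ^ b * G) * U * r +
        2 * (A * U * r) := by
    rw [hU]
    ring
  rw [e]
  have m1 := abs_le.1 v1
  have m2 := abs_le.1 v2
  have m3 := abs_le.1 t1
  have m4 := abs_le.1 t2
  have m5 := abs_le.1 t3
  rw [abs_le]
  constructor <;> linarith [m1.1, m1.2, m2.1, m2.2, m3.1, m3.2, m4.1, m4.2, m5.1, m5.2]

theorem ediv_near {m : ℕ} (hm : 1 ≤ m) {a a' : ℤ} (h : a / (m : ℤ) = a' / (m : ℤ)) :
    |((a - a' : ℤ) : ℝ)| ≤ m := by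
  have hm0 : (0 : ℤ) < m := by exact_mod_cast hm
  have h1 := Int.emod_add_mul_ediv a m
  have h2 := Int.emod_add_mul_ediv a' m
  have h3 := Int.emod_nonneg a hm0.ne'
  have h4 := Int.emod_nonneg a' hm0.ne'
  have h5 := Int.emod_lt_of_pos a hm0
  have h6 := Int.emod_lt_of_pos a' hm0
  rw [h] at h1
  have h7 : |a - a'| ≤ (m : ℤ) := by
    rw [abs_le]
    constructor <;> linarith
  exact_mod_cast h7

theorem floor_diff {a a' r : ℝ} (h : |a - a'| ≤ r) : |((⌊a⌋ - ⌊a'⌋ : ℤ) : ℝ)| ≤ r + 1 := by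
  have h1 := Int.floor_le a
  have h2 := Int.lt_floor_add_one a
  have h3 := Int.floor_le a'
  have h4 := Int.lt_floor_add_one a'
  push_cast
  rw [abs_le] at h ⊢
  constructor <;> linarith [h.1, h.2]

/-- **The counting on the event, in a block and with a side.** -/
theorem count8b (b : ℕ) (hb : 1 ≤ b) : ∃ A : ℝ, 1 ≤ A ∧ ∀ {Ω Λ Z Y E SS : Type} [Fintype Ω]
    {p : Ω → ℝ} {L : Ω → Λ} {z : Ω → Z} {y : Ω → Y} {t : Ω → ℤ} {D : Λ → E}
    {X : E → V3} {Φ : E → Po} {x : Z → V3} {J : Z → Po} {Q m : ℕ} {K e h h' R R' η c : ℝ}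
    (Sd : Ω → SS), ChH p L z y t D X Φ x J b (Q * m) K e h' R' η c → 1 ≤ Q → 1 ≤ m → 1 ≤ K →
    K ≤ m → 0 ≤ e →
    (∀ q : Ω → ℝ, IsLaw q → (∀ ω, q ω ≤ R * p ω) →
      CH q (fun ω => ⌊((Q * m : ℕ) : ℝ) * val x J (z ω)⌋)
        (fun ω => (⌊(Q : ℝ) * val x J (z ω)⌋, (cv (Q * m) (x (z ω)), (y ω, Sd ω)))) ≤
      (1 - h) * Real.log m + e) →
    CH (R8 p L z) (fun w => Sd w.2)
      (fun w => (dat D L z w, fun k : Fin 4 => tm t k w / (m : ℤ))) ≤ e →
    ∀ {d η' ms : ℝ}, 0 < d →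
    d ≤ 1 → 0 < η' → η' ≤ 1 → 0 < ms → 1 / ms ≤ R →
    ∀ (Ev : ((((((Ω × Ω) × Ω) × Ω) × Ω) × Ω) × Ω) × Ω → Prop),
    ms ≤ Pe (R8 p L z) Ev →
    (∀ w, 0 < R8 p L z w → Ev w → d ≤ |dS X (dat D L z w)| ∧
      η' ≤ |dv X Φ (dat D L z w) (rt (Q * m) t w)|) →
    4 * Real.log m - (18 * e + 9 * Real.log 5) / ms ≤
      3 * Real.log (2 * (16 * m) + 1) +
      (Real.log (2 * (A * K / d ^ b + 1) + 1) + ((1 - h) * Real.log m + e)) +
      Real.log (2 * (2 * (A / (η' * d ^ b)) + 1) + 1) +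
      Real.log (2 * (A * K / (η' * d ^ b)) + 1) +
      3 * Real.log (2 * (18 * (8 * K + 1) / d) + 1) := by
  obtain ⟨A₁, hA₁, hfirst⟩ := pair_first b hb
  obtain ⟨A₂, hA₂, hvar⟩ := val_var b hb
  obtain ⟨A, hA⟩ : ∃ A, A = max A₁ A₂ := ⟨_, rfl⟩
  have hAA₁ : A₁ ≤ A := by rw [hA]; exact le_max_left _ _
  have hAA₂ : A₂ ≤ A := by rw [hA]; exact le_max_right _ _
  have hA1 : 1 ≤ A := hA₁.trans hAA₁
  refine ⟨A, hA1, ?_⟩
  intro Ω Λ Z Y E SS _ p L z y t D X Φ x J Q m K e h h' R R' η c Sd H hQ1 hm1 hK hKm he hnf hsd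
    d η' ms hd hd1 hη hη1 hms hmR Ev hEv hgood
  have hL := R8_law H.law L z
  have hQ0 : (1 : ℝ) ≤ Q := by exact_mod_cast hQ1
  have hm0 : (1 : ℝ) ≤ m := by exact_mod_cast hm1
  obtain ⟨M, hMd⟩ : ∃ M : ℕ, M = Q * m := ⟨_, rfl⟩
  have hMr : (M : ℝ) = Q * m := by rw [hMd]; push_cast; ring
  rw [← hMd] at H hnf hgood
  have hmM : (m : ℝ) ≤ M := by rw [hMr]; nlinarith
  have hKM : K ≤ M := hKm.trans hmM
  have hM1 : (0 : ℝ) < M := by linarith
  have hM : 0 < M := by exact_mod_cast hM1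
  have hA0 : 0 < Pe (R8 p L z) Ev := lt_of_lt_of_le hms hEv
  have hdb := pow_pos hd b
  have hdb1 : d ^ b ≤ 1 := pow_le_one₀ hd.le hd1
  have hApos : 0 < A := by linarith
  obtain ⟨Δ, hΔ⟩ : ∃ Δ, Δ = η' * d ^ b / A := ⟨_, rfl⟩
  have hΔ0 : 0 < Δ := by rw [hΔ]; positivity
  have hΔ1 : Δ ≤ 1 := by
    rw [hΔ, div_le_one hApos]
    have : η' * d ^ b ≤ 1 * 1 := mul_le_mul hη1 hdb1 hdb.le zero_le_one
    linarith
  have hAΔ : A₁ * Δ ≤ η' * d ^ b := by
    have : A * Δ = η' * d ^ b := by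
      rw [hΔ]
      field_simp
    rw [← this]
    exact mul_le_mul_of_nonneg_right hAA₁ hΔ0.le
  obtain ⟨r, hr⟩ : ∃ r : ℝ, r = 1 / Q := ⟨_, rfl⟩
  have hr0 : 0 < r := by rw [hr]; positivity
  have hr1 : r ≤ 1 := by
    rw [hr, div_le_one (by linarith)]
    exact hQ0
  have hMr' : (M : ℝ) * r = m := by
    rw [hMr, hr]
    field_simp
  have hKr : K / M ≤ r := by
    rw [div_le_iff₀ hM1, mul_comm r, hMr']
    exact hKm
  have hlog5 : 0 ≤ Real.log 5 := Real.log_nonneg (by norm_num)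
  -- the side
  obtain ⟨Wv, hWv⟩ : ∃ Wv : ((((((Ω × Ω) × Ω) × Ω) × Ω) × Ω) × Ω) × Ω →
      SS × ((Fin 4 → ℤ) × (((E × E) × (E × E)) × Z)),
      Wv = fun w => (Sd w.2, ((fun k : Fin 4 => tm t k w / (m : ℤ)), dat D L z w)) := ⟨_, rfl⟩
  have hWe : ∀ w w', Wv w = Wv w' → Sd w.2 = Sd w'.2 ∧
      (∀ k, tm t k w / (m : ℤ) = tm t k w' / (m : ℤ)) ∧ dat D L z w = dat D L z w' := by
    intro w w' h
    rw [hWv] at h
    simp only [Prod.mk.injEq] at h
    exact ⟨h.1, fun k => congrFun h.2.1 k, h.2.2⟩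
  have htime : ∀ w w', Wv w = Wv w' → ∀ k, |((tm t k w - tm t k w' : ℤ) : ℝ)| ≤ m :=
    fun w w' h k => ediv_near hm1 ((hWe w w' h).2.1 k)
  have hrtd : ∀ w w', Wv w = Wv w' → ∀ k, |rt M t w k - rt M t w' k| ≤ r := by
    intro w w' h k
    have h1 := htime w w' h k
    unfold rt
    rw [← sub_div, abs_div, abs_of_pos hM1, div_le_iff₀ hM1, mul_comm r, hMr']
    push_cast at h1
    exact h1
  obtain ⟨Qc, hQd⟩ : ∃ Qc, Qc = cond (R8 p L z) Ev True := ⟨_, rfl⟩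
  have hQ : IsLaw Qc := by rw [hQd]; exact Pool.K2S.isLaw_cond hL hA0
  have hQpos : ∀ w, 0 < Qc w → 0 < R8 p L z w ∧ Ev w := fun w hw => by
    rw [hQd] at hw
    exact cond_pos hL hw
  -- the lower bound
  have hlow0 : 4 * Real.log m - (9 * e + 4 * Real.log 5) ≤
      CH (R8 p L z) (fun w (k : Fin 4) => tm t k w) Wv := by
    have c0 := full8 H
    have c1 := CH_le_add hL.nonneg (fun w (k : Fin 4) => tm t k w)
      (fun w (k : Fin 4) => tm t k w / (m : ℤ)) (dat D L z)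
    have c2 := CH_le_add hL.nonneg (fun w (k : Fin 4) => tm t k w) (fun w => Sd w.2)
      (fun w => ((fun k : Fin 4 => tm t k w / (m : ℤ)), dat D L z w))
    have c3 : CH (R8 p L z) (fun w => Sd w.2)
        (fun w => ((fun k : Fin 4 => tm t k w / (m : ℤ)), dat D L z w)) ≤ e := by
      refine le_trans (CH_mono_cond hL.nonneg fun w w' _ _ h => ?_) hsd
      have h1 := (Prod.ext_iff.mp h).1
      have h2 := (Prod.ext_iff.mp h).2
      exact Prod.ext h2 h1
    have c4 : CH (R8 p L z) (fun w (k : Fin 4) => tm t k w / (m : ℤ)) (dat D L z) ≤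
        4 * Real.log (2 * (2 * Q) + 1) := by
      have h1 := CH_le_vec hL.nonneg hL.sum_one (fun w (k : Fin 4) => tm t k w / (m : ℤ))
        (dat D L z) (fun _ => 2 * (Q : ℝ)) (fun w w' a a' _ k => by
          have b1 := abs_le.1 (tm_le H a k)
          have b2 := abs_le.1 (tm_le H a' k)
          have hmz : (0 : ℤ) < m := by exact_mod_cast hm1
          have e1 : (M : ℤ) = Q * m := by rw [hMd]; push_cast; ring
          rw [e1] at b1 b2
          have u1 : tm t k w / (m : ℤ) ≤ Q := by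
            have := Int.ediv_le_ediv hmz b1.2
            rwa [Int.mul_ediv_cancel _ hmz.ne'] at this
          have u2 : tm t k w' / (m : ℤ) ≤ Q := by
            have := Int.ediv_le_ediv hmz b2.2
            rwa [Int.mul_ediv_cancel _ hmz.ne'] at this
          have l1 : -(Q : ℤ) ≤ tm t k w / (m : ℤ) := by
            have := Int.ediv_le_ediv hmz b1.1
            rwa [← neg_mul, Int.mul_ediv_cancel _ hmz.ne'] at this
          have l2 : -(Q : ℤ) ≤ tm t k w' / (m : ℤ) := by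
            have := Int.ediv_le_ediv hmz b2.1
            rwa [← neg_mul, Int.mul_ediv_cancel _ hmz.ne'] at this
          have b4 : |tm t k w / (m : ℤ) - tm t k w' / (m : ℤ)| ≤ 2 * (Q : ℤ) := by
            rw [abs_le]
            constructor <;> linarith
          exact_mod_cast b4)
      rw [Ex_const hL.sum_one] at h1
      exact_mod_cast h1
    have c5 : Real.log m + Real.log (2 * (2 * Q) + 1) ≤
        Real.log 5 + Real.log (2 * (M : ℝ) + 1) := by
      rw [← Real.log_mul (by positivity) (by positivity),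
        ← Real.log_mul (by norm_num) (by positivity)]
      refine Real.log_le_log (by positivity) ?_
      rw [hMr]
      nlinarith
    rw [hWv]
    linarith
  have hvec : ∀ Q' : ((((((Ω × Ω) × Ω) × Ω) × Ω) × Ω) × Ω) × Ω → ℝ, IsLaw Q' →
      (∀ w, 0 < Q' w → 0 < R8 p L z w) →
      CH Q' (fun w (k : Fin 4) => tm t k w) Wv ≤
        4 * Real.log m + (9 * e + 4 * Real.log 5) := by
    intro Q' hQ' hpos
    have h1 := CH_le_vec hQ'.nonneg hQ'.sum_one (fun w (k : Fin 4) => tm t k w) Wv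
      (fun _ => (m : ℝ)) (fun w w' a a' hh k => htime w w' hh k)
    rw [Ex_const hQ'.sum_one] at h1
    have h2 : Real.log (2 * (m : ℝ) + 1) ≤ Real.log m + Real.log 5 := by
      rw [← Real.log_mul (by positivity) (by norm_num)]
      exact Real.log_le_log (by positivity) (by linarith)
    push_cast at h1
    linarith
  have hlow := Pool.LF65.CH_cond_low hL hA0 (fun w (k : Fin 4) => tm t k w) Wv
    (Lf := 4 * Real.log m) (th := 9 * e + 4 * Real.log 5) hlow0 hvec (by positivity)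
  rw [← hQd] at hlow
  have hlow' : 4 * Real.log m - (18 * e + 9 * Real.log 5) / ms ≤
      CH Qc (fun w (k : Fin 4) => tm t k w) Wv := by
    refine le_trans ?_ hlow
    have hl2 : Real.log 2 ≤ Real.log 5 := Real.log_le_log (by norm_num) (by norm_num)
    have hl0 : 0 ≤ Real.log 2 := Real.log_nonneg (by norm_num)
    have h1 : (2 * (9 * e + 4 * Real.log 5) + Real.log 2) / Pe (R8 p L z) Ev ≤
        (18 * e + 9 * Real.log 5) / ms := by
      refine (div_le_div_of_nonneg_left (by positivity) hms hEv).trans ?_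
      exact div_le_div_of_nonneg_right (by linarith) hms.le
    linarith
  refine hlow'.trans ?_
  -- the value of the end
  obtain ⟨q', hq', hq'R, hmarg⟩ := push (R8_s H.law L z) hQ (R := R) (fun w => by
    rw [hQd]
    exact (cond_le hL hms hEv w).trans (mul_le_mul_of_nonneg_right hmR (hL.nonneg w)))
  have hnf' := hnf q' hq' hq'R
  have hN : CH Qc (fun w => ⌊(M : ℝ) * val x J (z w.2)⌋)
      (fun w => (cv M (x (z w.2)), Wv w)) ≤ Real.log (2 * (A * K / d ^ b + 1) + 1) +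
        ((1 - h) * Real.log m + e) := by
    have c1 := CH_le_add hQ.nonneg (fun w => ⌊(M : ℝ) * val x J (z w.2)⌋)
      (fun w => ⌊(Q : ℝ) * val x J (z w.2)⌋) (fun w => (cv M (x (z w.2)), Wv w))
    have c2 : CH Qc (fun w => ⌊(Q : ℝ) * val x J (z w.2)⌋)
        (fun w => (cv M (x (z w.2)), Wv w)) ≤ Real.log (2 * (A * K / d ^ b + 1) + 1) := by
      have h1 := CH_le_int hQ.nonneg hQ.sum_one (fun w => ⌊(Q : ℝ) * val x J (z w.2)⌋)
        (fun w => (cv M (x (z w.2)), Wv w)) (fun _ => A * K / d ^ b + 1)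
        (fun w w' hw hw' hh => by
          have hW := (Prod.ext_iff.mp hh).2
          obtain ⟨k1, k2⟩ := hQpos w hw
          obtain ⟨k3, k4⟩ := hQpos w' hw'
          have h2 := (hvar H hK hKM hd hd1 hKr hr1 k1 k3 (hgood w k1 k2).1 (hWe w w' hW).2.2
            (hrtd w w' hW)).2
          refine floor_diff ?_
          rw [← mul_sub, abs_mul, abs_of_pos (by linarith : (0 : ℝ) < Q)]
          have h3 : A₂ * K / d ^ b * r ≤ A * K / d ^ b * r := by
            refine mul_le_mul_of_nonneg_right ?_ hr0.le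
            exact div_le_div_of_nonneg_right (mul_le_mul_of_nonneg_right hAA₂ (by linarith))
              hdb.le
          have hQr : (Q : ℝ) * r = 1 := by
            rw [hr]
            field_simp
          calc (Q : ℝ) * |val x J (z w.2) - val x J (z w'.2)| ≤ Q * (A * K / d ^ b * r) :=
                mul_le_mul_of_nonneg_left (h2.trans h3) (by linarith)
            _ = A * K / d ^ b * (Q * r) := by ring
            _ = A * K / d ^ b := by rw [hQr, mul_one])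
      rwa [Ex_const hQ.sum_one] at h1
    have c3 : CH Qc (fun w => ⌊(M : ℝ) * val x J (z w.2)⌋)
        (fun w => (⌊(Q : ℝ) * val x J (z w.2)⌋, (cv M (x (z w.2)), Wv w))) ≤
        (1 - h) * Real.log m + e := by
      refine le_trans ?_ hnf'
      rw [← hmarg.CH]
      refine CH_mono_cond hQ.nonneg fun w w' hw hw' hh => ?_
      have e0 : ⌊(Q : ℝ) * val x J (z w.2)⌋ = ⌊(Q : ℝ) * val x J (z w'.2)⌋ :=
        (Prod.ext_iff.mp hh).1
      have e1 : cv M (x (z w.2)) = cv M (x (z w'.2)) :=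
        (Prod.ext_iff.mp (Prod.ext_iff.mp hh).2).1
      have eW : Wv w = Wv w' := (Prod.ext_iff.mp (Prod.ext_iff.mp hh).2).2
      obtain ⟨f1, -, f3⟩ := hWe w w' eW
      have e2 : z w.1.1.1.1.1.1.1 = z w'.1.1.1.1.1.1.1 := (Prod.ext_iff.mp f3).2
      have k1 := (hQpos w hw).1
      have k2 := (hQpos w' hw').1
      have e3 : y w.2 = y w'.2 := by
        rw [R8_y H k1, R8_y H k2]
        exact H.yz _ _ (R8_pos H.law L z k1).1.1 (R8_pos H.law L z k2).1.1 e2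
      exact Prod.ext e0 (Prod.ext e1 (Prod.ext e3 f1))
    linarith
  have hrt1 : ∀ w, 0 < R8 p L z w → ∀ k, |rt M t w k| ≤ 1 := by
    intro w hw k
    have h1 := tm_le H hw k
    have h2 : |((tm t k w : ℤ) : ℝ)| ≤ M := by exact_mod_cast h1
    unfold rt
    rw [abs_div, abs_of_pos hM1, div_le_one hM1]
    exact h2
  refine (count4 hQ (fun k w => tm t k w) (fun w => cv M (x (z w.2)))
    (fun w => ⌊(M : ℝ) * val x J (z w.2)⌋) (fun w => ⌊rt M t w 0 / Δ⌋) Wv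
    (U := 16 * m) (I := 2 * (A / (η' * d ^ b)) + 1) (κ := 18 * (8 * K + 1) / d)
    (κ' := A * K / (η' * d ^ b))
    (B := Real.log (2 * (A * K / d ^ b + 1) + 1) + ((1 - h) * Real.log m + e)) ?_ hN ?_ ?_ ?_)
  · intro w w' hw hw' hW i
    obtain ⟨k1, k2⟩ := hQpos w hw
    obtain ⟨k3, k4⟩ := hQpos w' hw'
    have h2 := (hvar H hK hKM hd hd1 hKr hr1 k1 k3 (hgood w k1 k2).1 (hWe w w' hW).2.2
      (hrtd w w' hW)).1 i
    have h3 : |(M : ℝ) * x (z w.2) i - M * x (z w'.2) i| ≤ 15 * m := by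
      rw [← mul_sub, abs_mul, abs_of_pos hM1, ← hMr']
      calc (M : ℝ) * |x (z w.2) i - x (z w'.2) i| ≤ M * (15 * r) :=
            mul_le_mul_of_nonneg_left h2 hM1.le
        _ = 15 * (M * r) := by ring
    have h4 := floor_diff h3
    exact h4.trans (by linarith)
  · intro w w' hw hw' _
    have b1 := hrt1 w (hQpos w hw).1 0
    have b2 := hrt1 w' (hQpos w' hw').1 0
    have e1 : A / (η' * d ^ b) = 1 / Δ := by
      rw [hΔ]
      field_simp
    have h5 : |rt M t w 0 / Δ - rt M t w' 0 / Δ| ≤ 2 * (1 / Δ) := by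
      rw [← sub_div, abs_div, abs_of_pos hΔ0, mul_one_div]
      refine div_le_div_of_nonneg_right ?_ hΔ0.le
      have := abs_sub (rt M t w 0) (rt M t w' 0)
      linarith
    rw [e1]
    exact floor_diff h5
  · intro w w' hw hw' hidx hNN huu hWW
    obtain ⟨k1, k2⟩ := hQpos w hw
    obtain ⟨k3, k4⟩ := hQpos w' hw'
    obtain ⟨g1, g2⟩ := hgood w k1 k2
    have h9 := hfirst H hK hKM hd hd1 hη hΔ0 (by linarith) hAΔ k1 k3 g1 (hWe w w' hWW).2.2 huu hNN
      (by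
        have h1 := Int.abs_sub_lt_one_of_floor_eq_floor hidx
        rw [← sub_div, abs_div, abs_of_pos hΔ0, div_lt_one hΔ0] at h1
        exact h1.le) g2
    refine h9.trans ?_
    exact div_le_div_of_nonneg_right (mul_le_mul_of_nonneg_right hAA₁ (by linarith))
      (by positivity)
  · intro w w' hw hw' h0 huu hWW k
    obtain ⟨k1, k2⟩ := hQpos w hw
    obtain ⟨k3, k4⟩ := hQpos w' hw'
    exact pair_near hb H hK hKM hd k1 k3 (hgood w k1 k2).1 (hWe w w' hWW).2.2 huu h0 k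

end Pool.CHN76
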