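import Pool.Agent.H76.CHN.Blk

/-!
# The star in a block of digits, with a side: the statement
-/

set_option autoImplicit false

namespace Pool.CHN76

open Finset Real MvPolynomial
open Pool.Agent.H49.Ent Pool.Agent.H32.Dense Pool.STK Pool.MIC Pool.STB
open Pool.BFL (Pb)
open Pool.K2S (Pe)

/-- The numbers of the counting in a block. -/
theorem numb {M A c' h e₀ γ1 γ₀ ℓ K η d : ℝ} {b : ℕ} (hM : 1 ≤ M) (hℓ : ℓ = Real.log M)
    (hA : 1 ≤ A) (hc : 0 < c') (hh : 0 < h) (he : 0 < e₀) (hγ1 : 0 < γ1) (hγ₀ : 0 < γ₀)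
    (hK : K = M ^ e₀) (hη : η = M ^ (-γ1)) (hd : d = M ^ (-γ₀ * 4))
    (g1 : 2 * γ1 ≤ h / 4) (g2 : (12 * b + 12) * γ₀ ≤ h / 8) (g3 : (72 / c' + 6) * e₀ ≤ h / 8)
    (g4 : 36 * Real.log 5 / c' + 3 * Real.log 33 + Real.log (5 * A) + Real.log (7 * A) +
      Real.log (3 * A) + 3 * Real.log 400 ≤ h / 8 * ℓ) (hℓ0 : 0 < ℓ)
    (hin : 4 * ℓ - (18 * (e₀ * ℓ) + 9 * Real.log 5) / (c' / 4) ≤
      3 * Real.log (2 * (16 * M) + 1) +
      (Real.log (2 * (A * K / d ^ b + 1) + 1) + ((1 - h) * ℓ + e₀ * ℓ)) +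
      Real.log (2 * (2 * (A / (η * d ^ b)) + 1) + 1) +
      Real.log (2 * (A * K / (η * d ^ b)) + 1) +
      3 * Real.log (2 * (18 * (8 * K + 1) / d) + 1)) : False := by
  have hM0 : 0 < M := by linarith
  have hA0 : 0 < A := by linarith
  obtain ⟨a, ha⟩ : ∃ a : ℝ, a = γ1 + 4 * b * γ₀ := ⟨_, rfl⟩
  have ha0 : 0 ≤ a := by rw [ha]; positivity
  have hP : η * d ^ b = M ^ (-a) := by
    rw [hη, hd, ← Real.rpow_natCast, ← Real.rpow_mul hM0.le, ← Real.rpow_add hM0, ha]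
    congr 1
    ring
  have hP1 : 1 / (η * d ^ b) = M ^ a := by
    rw [hP, Real.rpow_neg hM0.le, one_div, inv_inv]
  have hPa : 1 ≤ M ^ a := Real.one_le_rpow hM ha0
  have hK1 : 1 ≤ K := by rw [hK]; exact Real.one_le_rpow hM he.le
  have hd1 : 1 / d = M ^ (4 * γ₀) := by
    rw [hd, one_div, ← Real.rpow_neg hM0.le]
    congr 1
    ring
  have hdb : 1 / d ^ b = M ^ (4 * b * γ₀) := by
    rw [hd, ← Real.rpow_natCast, ← Real.rpow_mul hM0.le, one_div, ← Real.rpow_neg hM0.le]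
    congr 1
    ring
  have l1 : Real.log (2 * (16 * M) + 1) ≤ Real.log 33 + ℓ := by
    rw [hℓ, ← Real.log_mul (by norm_num) hM0.ne']
    exact Real.log_le_log (by positivity) (by linarith)
  have e3 : A / (η * d ^ b) = A * M ^ a := by
    rw [← hP1]
    ring
  have l3 : Real.log (2 * (2 * (A / (η * d ^ b)) + 1) + 1) ≤ Real.log (7 * A) + a * ℓ := by
    rw [hℓ, e3]
    refine log_bd hM0 (by positivity) (by positivity) ?_
    nlinarith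
  have e4 : A * K / (η * d ^ b) = A * M ^ (e₀ + a) := by
    rw [Real.rpow_add hM0, ← hP1, ← hK]
    ring
  have hPea : 1 ≤ M ^ (e₀ + a) := Real.one_le_rpow hM (by positivity)
  have l4 : Real.log (2 * (A * K / (η * d ^ b)) + 1) ≤ Real.log (3 * A) + (e₀ + a) * ℓ := by
    rw [hℓ, e4]
    refine log_bd hM0 (by positivity) (by positivity) ?_
    nlinarith
  have e7 : A * K / d ^ b = A * M ^ (e₀ + 4 * b * γ₀) := by
    rw [Real.rpow_add hM0, ← hdb, ← hK]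
    ring
  have hPeb : 1 ≤ M ^ (e₀ + 4 * b * γ₀) := Real.one_le_rpow hM (by positivity)
  have l7 : Real.log (2 * (A * K / d ^ b + 1) + 1) ≤
      Real.log (5 * A) + (e₀ + 4 * b * γ₀) * ℓ := by
    rw [hℓ, e7]
    refine log_bd hM0 (by positivity) (by positivity) ?_
    nlinarith
  have l5 : Real.log (2 * (18 * (8 * K + 1) / d) + 1) ≤
      Real.log 400 + (e₀ + 4 * γ₀) * ℓ := by
    have e5 : 18 * (8 * K + 1) / d = 18 * (8 * K + 1) * M ^ (4 * γ₀) := by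
      rw [← hd1]
      ring
    rw [hℓ, e5]
    refine log_bd hM0 (by positivity) (by norm_num) ?_
    rw [Real.rpow_add hM0, ← hK]
    have h1 : M ^ (4 * γ₀) ≤ K * M ^ (4 * γ₀) := le_mul_of_one_le_left (by positivity) hK1
    have hPd : 1 ≤ M ^ (4 * γ₀) := Real.one_le_rpow hM (by positivity)
    nlinarith
  have e6 : (18 * (e₀ * ℓ) + 9 * Real.log 5) / (c' / 4) =
      72 / c' * e₀ * ℓ + 36 * Real.log 5 / c' := by
    field_simp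
    ring
  rw [e6] at hin
  have k1 : 2 * γ1 * ℓ ≤ h / 4 * ℓ := mul_le_mul_of_nonneg_right g1 hℓ0.le
  have k2 : (12 * b + 12) * γ₀ * ℓ ≤ h / 8 * ℓ := mul_le_mul_of_nonneg_right g2 hℓ0.le
  have k3 : (72 / c' + 6) * e₀ * ℓ ≤ h / 8 * ℓ := mul_le_mul_of_nonneg_right g3 hℓ0.le
  have k4 : 0 < h * ℓ := by positivity
  have k5 : a * ℓ = γ1 * ℓ + 4 * b * γ₀ * ℓ := by rw [ha]; ring
  nlinarith

/-- **The star in a block of digits, with a side.** -/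
def StarB : Prop := ∀ (b : ℕ) (h c' : ℝ), 1 ≤ b → 0 < h → 0 < c' → ∃ γ γ₁ : ℝ, 0 < γ ∧ 0 < γ₁ ∧
  ∀ γ₀ : ℝ, 0 < γ₀ → γ₀ ≤ γ₁ → ∃ (e₀ c R : ℝ) (X₀ : ℕ), 0 < e₀ ∧ 0 < c ∧ 0 < R ∧
  ∀ (Q m : ℕ), 1 ≤ Q → X₀ ≤ m → ∀ (Ω Λ Z Y 𝒟 SS : Type) [Fintype Ω] (p : Ω → ℝ) (L : Ω → Λ)
    (z : Ω → Z) (y : Ω → Y) (t : Ω → ℤ) (D : Λ → 𝒟) (X : 𝒟 → V3) (Φ : 𝒟 → Po) (x : Z → V3)
    (J : Z → Po) (Sd : Ω → SS) (h' R' : ℝ),
    ChH p L z y t D X Φ x J b (Q * m) ((m : ℝ) ^ e₀) (e₀ * Real.log m) h' R'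
      ((m : ℝ) ^ (-γ₀)) c →
    (∀ q : Ω → ℝ, IsLaw q → (∀ ω, q ω ≤ R * p ω) →
      CH q (fun ω => ⌊((Q * m : ℕ) : ℝ) * val x J (z ω)⌋)
        (fun ω => (⌊(Q : ℝ) * val x J (z ω)⌋, (cv (Q * m) (x (z ω)), (y ω, Sd ω)))) ≤
      (1 - h) * Real.log m + e₀ * Real.log m) →
    CH (R8 p L z) (fun w => Sd w.2)
      (fun w => (dat D L z w, fun k : Fin 4 => tm t k w / (m : ℤ))) ≤ e₀ * Real.log m →
    Pb (Q6 p L z) (fun w => ¬ (
      (m : ℝ) ^ (-γ₀ * 4) ≤ |(mt ![X (D (L w.1.1.1.1.2)), X (D (L w.1.1.2)), X (D (L w.2))]).det| ∧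
      Inv (X (D (L w.1.1.1.1.1))) (Φ (D (L w.1.1.1.1.1)))
        (fb ![X (D (L w.1.1.1.1.2)), X (D (L w.1.1.2)), X (D (L w.2))]
          ![Φ (D (L w.1.1.1.1.2)), Φ (D (L w.1.1.2)), Φ (D (L w.2))]) ((m : ℝ) ^ (-γ)))) ≤ c'

/-- **The star in a block.** -/
theorem star_blk : StarB := by
  intro b h c' hb hh hc'
  obtain ⟨C, hC1, hread⟩ := read8 b
  obtain ⟨A, hA, hcount⟩ := count8b b hb
  have hC0 : (0 : ℝ) < C := by exact_mod_cast hC1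
  have hC1' : (1 : ℝ) ≤ C := by exact_mod_cast hC1
  obtain ⟨h1, hh1, hh1a, hh1b⟩ : ∃ h1 : ℝ, 0 < h1 ∧ h1 ≤ h ∧ h1 ≤ 1 :=
    ⟨min h 1, lt_min hh one_pos, min_le_left _ _, min_le_right _ _⟩
  obtain ⟨γ1, hγ1d⟩ : ∃ γ1 : ℝ, γ1 = h1 / 8 := ⟨_, rfl⟩
  have hγ1 : 0 < γ1 := by rw [hγ1d]; positivity
  obtain ⟨γρ, hγρd⟩ : ∃ γρ : ℝ, γρ = γ1 / (8 * C) := ⟨_, rfl⟩
  have hγρ : 0 < γρ := by rw [hγρd]; positivity
  have hb0 : (0 : ℝ) ≤ b := Nat.cast_nonneg b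
  refine ⟨γ1 / 4, min (γ1 / (32 * C)) (h1 / (8 * (12 * b + 12))), by positivity,
    lt_min (by positivity) (by positivity), ?_⟩
  intro γ₀ hγ₀ hγ₀le
  have hγa : γ₀ ≤ γ1 / (32 * C) := hγ₀le.trans (min_le_left _ _)
  have hγb : γ₀ ≤ h1 / (8 * (12 * b + 12)) := hγ₀le.trans (min_le_right _ _)
  obtain ⟨e₀, he₀, he1, he2, he3⟩ : ∃ e₀ : ℝ, 0 < e₀ ∧ e₀ ≤ 1 ∧ e₀ ≤ γρ * c' / 64 ∧
      e₀ ≤ h1 / 8 / (72 / c' + 6) :=
    ⟨min 1 (min (γρ * c' / 64) (h1 / 8 / (72 / c' + 6))),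
      lt_min one_pos (lt_min (by positivity) (by positivity)), min_le_left _ _,
      (min_le_right _ _).trans (min_le_left _ _), (min_le_right _ _).trans (min_le_right _ _)⟩
  obtain ⟨Cst, hCst⟩ : ∃ Cst : ℝ, Cst = 36 * Real.log 5 / c' + 3 * Real.log 33 +
    Real.log (5 * A) + Real.log (7 * A) + Real.log (3 * A) + 3 * Real.log 400 := ⟨_, rfl⟩
  have hlog2 : 0 < Real.log 2 := Real.log_pos (by norm_num)
  have hCst0 : 0 ≤ Cst := by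
    rw [hCst]
    have k0 : 0 ≤ Real.log (5 * A) := Real.log_nonneg (by linarith)
    have k1 : 0 ≤ Real.log (7 * A) := Real.log_nonneg (by linarith)
    have k2 : 0 ≤ Real.log (3 * A) := Real.log_nonneg (by linarith)
    have k3 : 0 ≤ Real.log 400 := Real.log_nonneg (by norm_num)
    have k4 : 0 ≤ Real.log 33 := Real.log_nonneg (by norm_num)
    have k5 : 0 ≤ Real.log 5 := Real.log_nonneg (by norm_num)
    positivity
  obtain ⟨L₀, hL₀⟩ : ∃ L₀ : ℝ, L₀ = Real.log (C * 36 ^ C) := ⟨_, rfl⟩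
  have hC36 : (1 : ℝ) ≤ C * 36 ^ C :=
    one_le_mul_of_one_le_of_one_le hC1' (one_le_pow₀ (by norm_num))
  have hL₀0 : 0 ≤ L₀ := by rw [hL₀]; exact Real.log_nonneg hC36
  obtain ⟨ℓ₀, hℓ₀⟩ : ∃ ℓ₀ : ℝ, ℓ₀ = 1 + 8 * Real.log 2 / (γρ * c') + 8 * Cst / h1 +
    2 * L₀ / γ1 := ⟨_, rfl⟩
  refine ⟨e₀, c' / 12, 4 / c', ⌈Real.exp ℓ₀⌉₊, he₀, by positivity, by positivity, ?_⟩
  intro Q m hQ1 hM Ω Λ Z Y 𝒟 SS _ p L z y t D X Φ x J Sd h' R' H hnfb hsd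
  -- the size of `m`
  have hexp : Real.exp ℓ₀ ≤ m := (Nat.le_ceil _).trans (by exact_mod_cast hM)
  have hM0 : (0 : ℝ) < m := lt_of_lt_of_le (Real.exp_pos _) hexp
  obtain ⟨ℓ, hℓ⟩ : ∃ ℓ : ℝ, ℓ = Real.log m := ⟨_, rfl⟩
  have hℓℓ : ℓ₀ ≤ ℓ := by
    rw [hℓ, ← Real.log_exp ℓ₀]
    exact Real.log_le_log (Real.exp_pos _) hexp
  have q1 : 0 ≤ 8 * Real.log 2 / (γρ * c') := by positivity
  have q2 : 0 ≤ 8 * Cst / h1 := by positivity
  have q3 : 0 ≤ 2 * L₀ / γ1 := by positivity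
  have hℓ1 : 1 ≤ ℓ := by linarith
  have r1 : 8 * Real.log 2 / (γρ * c') ≤ ℓ := by linarith
  have r2 : 8 * Cst / h1 ≤ ℓ := by linarith
  have r3 : 2 * L₀ / γ1 ≤ ℓ := by linarith
  have hM1 : (1 : ℝ) ≤ m := by
    refine le_trans ?_ hexp
    exact Real.one_le_exp (by rw [hℓ₀]; linarith)
  have hM1' : 1 ≤ m := by exact_mod_cast hM1
  have hQ0 : (1 : ℝ) ≤ Q := by exact_mod_cast hQ1
  have hQm : 1 ≤ Q * m := Nat.one_le_iff_ne_zero.2 (by positivity)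
  have hQmr : (m : ℝ) ≤ ((Q * m : ℕ) : ℝ) := by
    push_cast
    nlinarith
  rw [← hℓ] at H
  rw [← hℓ] at hnfb hsd
  obtain ⟨d, hd⟩ : ∃ d : ℝ, d = (m : ℝ) ^ (-γ₀ * 4) := ⟨_, rfl⟩
  obtain ⟨δ, hδ⟩ : ∃ δ : ℝ, δ = (m : ℝ) ^ (-(γ1 / 4)) := ⟨_, rfl⟩
  obtain ⟨η, hη⟩ : ∃ η : ℝ, η = (m : ℝ) ^ (-γ1) := ⟨_, rfl⟩
  obtain ⟨ρ, hρ⟩ : ∃ ρ : ℝ, ρ = (m : ℝ) ^ (-γρ) := ⟨_, rfl⟩
  have hd0 : 0 < d := by rw [hd]; exact Real.rpow_pos_of_pos hM0 _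
  have hρ0 : 0 < ρ := by rw [hρ]; exact Real.rpow_pos_of_pos hM0 _
  have hη0 : 0 < η := by rw [hη]; exact Real.rpow_pos_of_pos hM0 _
  have hd1 : d ≤ 1 := by rw [hd]; exact Real.rpow_le_one_of_one_le_of_nonpos hM1 (by linarith)
  have hρ1 : ρ ≤ 1 := by rw [hρ]; exact Real.rpow_le_one_of_one_le_of_nonpos hM1 (by linarith)
  have hη1 : η ≤ 1 := by rw [hη]; exact Real.rpow_le_one_of_one_le_of_nonpos hM1 (by linarith)
  rw [← hd, ← hδ]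
  by_contra hcon
  rw [not_le] at hcon
  have hL := R8_law H.law L z
  -- transport to the long chain
  have hcon' : c' < Pb (R8 p L z) (fun w => ¬ (d ≤ |dS X (dat D L z w)| ∧
      Inv (X (dat D L z w).1.2.2) (Φ (dat D L z w).1.2.2) (fS X Φ (dat D L z w)) δ)) := by
    refine lt_of_lt_of_le hcon ?_
    rw [← Marg.Pb_eq (R8_Q6 H.law L z)]
    refine Pb_mono hL.nonneg fun w hw hE => ?_
    obtain ⟨-, ⟨l1, l2, l3, l4⟩, -⟩ := R8_pos H.law L z hw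
    rw [l2, l3, l4] at hE
    exact hE
  -- general position
  have hdet : Pb (R8 p L z) (fun w => ¬ d ≤ |dS X (dat D L z w)|) ≤ c' / 4 := by
    have g := gp_det H.law (L := L) (z := z) (D := D) (X := X)
      (Real.rpow_pos_of_pos hM0 (-γ₀)).le H.gp
    rw [← Marg.Pb_eq (R8_Q6 H.law L z)] at g
    refine le_trans (Pb_mono hL.nonneg fun w hw hE => ?_) (g.trans (le_of_eq (by ring)))
    obtain ⟨-, ⟨l1, l2, l3, l4⟩, -⟩ := R8_pos H.law L z hw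
    rw [l2, l3, l4]
    intro hgt
    refine hE (le_trans ?_ hgt.le)
    rw [hd, ← Real.rpow_natCast, ← Real.rpow_mul hM0.le]
    exact Real.rpow_le_rpow_of_exponent_le hM1 (by push_cast; linarith)
  have hbad : c' / 2 < Pb (R8 p L z) (fun w => Bd X Φ d δ (dat D L z w)) := by
    have h2 := Pb_le2 hL.nonneg (A := fun w => ¬ (d ≤ |dS X (dat D L z w)| ∧
      Inv (X (dat D L z w).1.2.2) (Φ (dat D L z w).1.2.2) (fS X Φ (dat D L z w)) δ))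
      (B := fun w => ¬ d ≤ |dS X (dat D L z w)|) (C := fun w => Bd X Φ d δ (dat D L z w))
      (fun w _ g1 g2 g3 => by
        rw [not_not] at g1
        exact g3 ⟨g1, by
          by_contra hI
          exact g2 ⟨g1, hI⟩⟩)
    linarith
  -- reading
  have hρC : ρ ^ C = (m : ℝ) ^ (-(γ1 / 8)) := by
    rw [hρ, ← Real.rpow_natCast, ← Real.rpow_mul hM0.le, hγρd]
    congr 1
    field_simp
  have hCM : (C : ℝ) * 36 ^ C ≤ (m : ℝ) ^ (γ1 / 2) := by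
    have h2 : L₀ ≤ γ1 / 2 * ℓ := by
      rw [div_le_iff₀ hγ1] at r3
      linarith
    rw [hL₀, hℓ, ← Real.log_rpow hM0] at h2
    exact (Real.log_le_log_iff (by positivity) (Real.rpow_pos_of_pos hM0 _)).1 h2
  have hγ1le : γ1 ≤ 1 / 8 := by rw [hγ1d]; linarith
  have c1 : (C : ℝ) ≤ ρ ^ C * (2 * ((Q * m : ℕ) : ℝ) + 1) := by
    have h2 : (C : ℝ) ≤ C * 36 ^ C := le_mul_of_one_le_right hC0.le (one_le_pow₀ (by norm_num))
    have h3 : (m : ℝ) ^ (γ1 / 2) ≤ (m : ℝ) ^ (-(γ1 / 8)) * m := by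
      nth_rewrite 3 [← Real.rpow_one (m : ℝ)]
      rw [← Real.rpow_add hM0]
      exact Real.rpow_le_rpow_of_exponent_le hM1 (by linarith)
    rw [hρC]
    have h4 : 0 < (m : ℝ) ^ (-(γ1 / 8)) := Real.rpow_pos_of_pos hM0 _
    nlinarith
  have c2 : C * (36 / d / ρ) ^ C * η ≤ δ := by
    have e1 : (36 / d / ρ : ℝ) = 36 * (m : ℝ) ^ (4 * γ₀ + γρ) := by
      rw [hd, hρ, Real.rpow_add hM0, Real.rpow_neg hM0.le,
        show -γ₀ * 4 = -(4 * γ₀) by ring, Real.rpow_neg hM0.le]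
      field_simp
    have e2 : ((m : ℝ) ^ (4 * γ₀ + γρ)) ^ C = (m : ℝ) ^ ((4 * γ₀ + γρ) * C) := by
      rw [← Real.rpow_natCast, ← Real.rpow_mul hM0.le]
    have hexp2 : (4 * γ₀ + γρ) * C ≤ γ1 / 4 := by
      have k1 : γ₀ * (32 * C) ≤ γ1 := by
        rwa [le_div_iff₀ (by positivity)] at hγa
      have k2 : γρ * C = γ1 / 8 := by
        rw [hγρd]
        field_simp
      nlinarith
    rw [e1, mul_pow, e2, hη, hδ]
    calc (C : ℝ) * (36 ^ C * (m : ℝ) ^ ((4 * γ₀ + γρ) * C)) * (m : ℝ) ^ (-γ1) =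
        (C * 36 ^ C) * ((m : ℝ) ^ ((4 * γ₀ + γρ) * C) * (m : ℝ) ^ (-γ1)) := by ring
      _ ≤ (m : ℝ) ^ (γ1 / 2) * ((m : ℝ) ^ (γ1 / 4) * (m : ℝ) ^ (-γ1)) := by
          refine mul_le_mul hCM ?_ (by positivity) (by positivity)
          exact mul_le_mul_of_nonneg_right (Real.rpow_le_rpow_of_exponent_le hM1 hexp2)
            (by positivity)
      _ = (m : ℝ) ^ (-(γ1 / 4)) := by
          rw [← Real.rpow_add hM0, ← Real.rpow_add hM0]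
          congr 1
          ring
  have hr := hread H hQm hd0 hd1 hρ0 hρ1 c1 c2
  have hlogρ : Real.log (1 / ρ) = γρ * ℓ := by
    rw [one_div, Real.log_inv, hρ, Real.log_rpow hM0, hℓ]
    ring
  rw [hlogρ] at hr
  have hr' : Pb (R8 p L z) (fun w => Bd X Φ d δ (dat D L z w) ∧
      |dv X Φ (dat D L z w) (rt (Q * m) t w)| ≤ η) ≤ c' / 4 := by
    have hγℓ : 0 < γρ * ℓ := by positivity
    refine le_of_mul_le_mul_right (hr.trans ?_) hγℓ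
    have k1 : 8 * e₀ ≤ γρ * c' / 8 := by linarith
    have k2 : Real.log 2 ≤ γρ * c' / 8 * ℓ := by
      rw [div_le_iff₀ (by positivity)] at r1
      linarith
    have k3 := mul_le_mul_of_nonneg_right k1 (by linarith : 0 ≤ ℓ)
    nlinarith
  -- the event of the counting
  have hE : c' / 4 ≤ Pe (R8 p L z) (fun w => Bd X Φ d δ (dat D L z w) ∧
      η < |dv X Φ (dat D L z w) (rt (Q * m) t w)|) := by
    rw [Pb_Pe]
    have h2 := Pb_le2 hL.nonneg (A := fun w => Bd X Φ d δ (dat D L z w))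
      (B := fun w => Bd X Φ d δ (dat D L z w) ∧ |dv X Φ (dat D L z w) (rt (Q * m) t w)| ≤ η)
      (C := fun w => Bd X Φ d δ (dat D L z w) ∧ η < |dv X Φ (dat D L z w) (rt (Q * m) t w)|)
      (fun w _ g1 g2 g3 => by
        rcases le_or_gt (|dv X Φ (dat D L z w) (rt (Q * m) t w)|) η with h5 | h5
        · exact g1 ⟨g3, h5⟩
        · exact g2 ⟨g3, h5⟩)
    linarith
  have hK1 : (1 : ℝ) ≤ (m : ℝ) ^ e₀ := Real.one_le_rpow hM1 he₀.le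
  have hKM : (m : ℝ) ^ e₀ ≤ m := by
    nth_rewrite 2 [← Real.rpow_one (m : ℝ)]
    exact Real.rpow_le_rpow_of_exponent_le hM1 he1
  have hnfb' : ∀ q : Ω → ℝ, IsLaw q → (∀ ω, q ω ≤ 4 / c' * p ω) →
      CH q (fun ω => ⌊((Q * m : ℕ) : ℝ) * val x J (z ω)⌋)
        (fun ω => (⌊(Q : ℝ) * val x J (z ω)⌋, (cv (Q * m) (x (z ω)), (y ω, Sd ω)))) ≤
      (1 - h) * Real.log m + e₀ * ℓ := by
    rw [← hℓ]
    exact hnfb
  have hcnt := hcount Sd H hQ1 hM1' hK1 hKM (by positivity) hnfb' hsd (d := d) (η' := η)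
    (ms := c' / 4) hd0 hd1 hη0 hη1 (by positivity) (by rw [one_div, inv_div]) _ hE
    (fun w _ hw => ⟨hw.1.1, hw.2.le⟩)
  rw [← hℓ] at hcnt
  refine numb hM1 hℓ hA hc' hh he₀ hγ1 hγ₀ rfl hη hd ?_ ?_ ?_ ?_ (by linarith) hcnt
  · rw [hγ1d]
    linarith
  · rw [le_div_iff₀ (by positivity)] at hγb
    linarith
  · rw [le_div_iff₀ (by positivity)] at he3
    linarith
  · rw [← hCst]
    rw [div_le_iff₀ hh1] at r2
    nlinarith

end Pool.CHN76
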