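import Pool.Agent.H6.STB.Alg
import Pool.Agent.H23.D2.Nat
import Pool.Agent.H50.PW.Det
import Pool.Agent.H50.PW.Cover
import Pool.Agent.H65.OVN.MV

/-!
# Chains of lines: the polynomials

Bounds for the derivatives of a polynomial on a box; the value of the target at the end of a chain of
four lines (`val_form`); two chains with the same data and the same end have the same first time, up to
a few units, where the derivative is not small (`pair_s0`).
-/

set_option autoImplicit false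

namespace Pool.CHN76

open Finset Real MvPolynomial
open Pool.STB (V3 Po Bx Inv Hb fb mt)

/-- The derivative in the direction `X`. -/
noncomputable def dX (X : V3) (P : Po) : Po := ∑ j, C (X j) * pderiv j P

theorem dX_eval (X : V3) (P : Po) (v : V3) :
    eval v (dX X P) = ∑ j, X j * eval v (pderiv j P) := by
  unfold dX
  simp only [map_sum, map_mul, eval_C]

theorem td_pd {P : Po} {D : ℕ} (h : P.totalDegree ≤ D) (j : Fin 3) :
    (pderiv j P).totalDegree ≤ D :=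
  (Pool.Agent.H50.PW.totalDegree_pderiv_le P j).trans h

theorem dX_deg (X : V3) {P : Po} {D : ℕ} (h : P.totalDegree ≤ D) : (dX X P).totalDegree ≤ D := by
  unfold dX
  refine totalDegree_finsetSum_le fun j _ => (totalDegree_mul _ _).trans ?_
  rw [totalDegree_C, zero_add]
  exact td_pd h j

/-- The mean value theorem in the direction `X`. -/
theorem mv_dir (P : Po) (v X : V3) (s : ℝ) : ∃ θ : ℝ, |θ| ≤ |s| ∧
    eval (v + s • X) P - eval v P = s * eval (v + θ • X) (dX X P) := by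
  have hd : ∀ t : ℝ, HasDerivAt (fun t : ℝ => eval (fun j => v j + t * (s * X j)) P)
      (∑ j, (s * X j) * eval (fun j => v j + t * (s * X j)) (pderiv j P)) t := fun t =>
    Pool.OVN.hasDerivAt_line P v (fun j => s * X j) t
  obtain ⟨θ, ⟨h0, h1⟩, h2⟩ := exists_hasDerivAt_eq_slope
    (fun t : ℝ => eval (fun j => v j + t * (s * X j)) P)
    (fun t => ∑ j, (s * X j) * eval (fun j => v j + t * (s * X j)) (pderiv j P)) zero_lt_one
    (fun t _ => (hd t).continuousAt.continuousWithinAt) (fun t _ => hd t)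
  refine ⟨θ * s, ?_, ?_⟩
  · rw [abs_mul, abs_of_pos h0]
    exact mul_le_of_le_one_left (abs_nonneg s) h1.le
  · rw [sub_zero, div_one] at h2
    have e1 : (fun j => v j + 1 * (s * X j)) = v + s • X := by
      funext j
      simp
    have e0 : (fun j => v j + 0 * (s * X j)) = v := by
      funext j
      simp
    have eθ : (fun j => v j + θ * (s * X j)) = v + (θ * s) • X := by
      funext j
      simp
      ring
    rw [e1, e0, eθ] at h2
    rw [← h2, dX_eval, Finset.mul_sum]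
    refine Finset.sum_congr rfl fun j _ => ?_
    ring

/-- **The partial derivatives** of a polynomial which is bounded on a box. -/
theorem der_box (D : ℕ) : ∃ A : ℝ, 1 ≤ A ∧ ∀ (P : Po), P.totalDegree ≤ D → ∀ r R : ℝ, 0 < r →
    (∀ q, Bx r q → |eval q P| ≤ R) → ∀ q, Bx r q → ∀ j, |eval q (pderiv j P)| ≤ A * R / r := by
  classical
  obtain ⟨A, hA, hder⟩ := Pool.D2R.der_one D
  refine ⟨A, hA, ?_⟩
  intro P hP r R hr hb q hq j
  obtain ⟨g, hg⟩ : ∃ g : Fin 3 → Polynomial ℝ, g = fun j' =>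
    if j' = j then Polynomial.C r * Polynomial.X else Polynomial.C (q j') := ⟨_, rfl⟩
  have hgd : ∀ j', (g j').natDegree ≤ 1 := by
    intro j'
    rw [hg]
    dsimp only
    split_ifs
    · exact (Polynomial.natDegree_C_mul_le _ _).trans Polynomial.natDegree_X_le
    · rw [Polynomial.natDegree_C]
      exact Nat.zero_le _
  have hge : ∀ t : ℝ, (fun j' => (g j').eval t) = fun j' => if j' = j then r * t else q j' := by
    intro t
    funext j'
    rw [hg]
    dsimp only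
    split_ifs
    · simp
    · rw [Polynomial.eval_C]
  obtain ⟨t₀, ht₀⟩ : ∃ t₀ : ℝ, t₀ = q j / r := ⟨_, rfl⟩
  have hrt : r * t₀ = q j := by
    rw [ht₀]
    field_simp
  have ht1 : |t₀| ≤ 1 := by
    rw [ht₀, abs_div, abs_of_pos hr, div_le_one hr]
    exact hq j
  have hgt : (fun j' => (g j').eval t₀) = q := by
    rw [hge]
    funext j'
    split_ifs with h
    · rw [hrt, h]
    · rfl
  have h1 := hder (aeval g P) R (Pool.KBX.natDegree_aeval_le _ _ hgd hP) (fun t ht => by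
    rw [Pool.KBX.eval_aeval_poly, hge]
    refine hb _ fun j' => ?_
    show |if j' = j then r * t else q j'| ≤ r
    split_ifs
    · rw [abs_mul, abs_of_pos hr, abs_of_nonneg ht.1]
      exact mul_le_of_le_one_right hr.le ht.2
    · exact hq j') t₀ ht1
  have e1 : (Polynomial.derivative (aeval g P)).eval t₀ = r * eval q (pderiv j P) := by
    have h2 := (aeval g P).hasDerivAt t₀
    have h3 := Pool.OVN.hasDerivAt_line P (fun j' => if j' = j then 0 else q j')
      (fun j' => if j' = j then r else 0) t₀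
    have e2 : (fun t : ℝ => eval (fun j' => (if j' = j then 0 else q j') +
        t * (if j' = j then r else 0)) P) = fun t => (aeval g P).eval t := by
      funext t
      rw [Pool.KBX.eval_aeval_poly, hge]
      congr 2
      funext j'
      split_ifs <;> ring
    rw [e2] at h3
    rw [h2.unique h3, Finset.sum_eq_single j]
    · rw [if_pos rfl]
      congr 2
      congr 1
      funext j'
      by_cases h : j' = j
      · rw [if_pos h, if_pos h, h, ← hrt]
        ring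
      · rw [if_neg h, if_neg h]
        ring
    · intro j' _ h
      rw [if_neg h, zero_mul]
    · intro h
      exact absurd (Finset.mem_univ _) h
  rw [e1, abs_mul, abs_of_pos hr] at h1
  rw [le_div_iff₀ hr, mul_comm]
  exact h1

/-- The directional derivative of a bounded polynomial. -/
theorem dX_le {P : Po} {r B : ℝ} (h : ∀ q, Bx r q → ∀ j, |eval q (pderiv j P)| ≤ B) {X : V3}
    {δ : ℝ} (hX : Bx δ X) {q : V3} (hq : Bx r q) : |eval q (dX X P)| ≤ 3 * (δ * B) := by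
  rw [dX_eval]
  refine (Finset.abs_sum_le_sum_abs _ _).trans ?_
  refine (Finset.sum_le_card_nsmul _ _ (δ * B) fun j _ => ?_).trans (le_of_eq ?_)
  · rw [abs_mul]
    exact mul_le_mul (hX j) (h q hq j) (abs_nonneg _) ((abs_nonneg _).trans (hX j))
  · rw [Finset.card_univ, Fintype.card_fin, nsmul_eq_mul]
    norm_num

/-- **The increments** of a polynomial with bounded derivatives. -/
theorem lip_box {P : Po} {r B : ℝ} (h : ∀ q, Bx r q → ∀ j, |eval q (pderiv j P)| ≤ B) {u v : V3}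
    {δ : ℝ} (hu : Bx r u) (hv : Bx r v) (hd : Bx δ (u - v)) :
    |eval u P - eval v P| ≤ 3 * (δ * B) := by
  have hδ : 0 ≤ δ := (abs_nonneg _).trans (hd 0)
  obtain ⟨θ, hθ, h1⟩ := mv_dir P v (u - v) 1
  rw [one_smul, add_sub_cancel, one_mul] at h1
  rw [h1]
  -- the point of the segment: repeat with `θ ∈ [0,1]`
  have hmv := Pool.OVN.hasDerivAt_line P v (u - v)
  obtain ⟨τ, ⟨g0, g1⟩, g2⟩ := exists_hasDerivAt_eq_slope
    (fun t : ℝ => eval (fun j => v j + t * (u - v) j) P)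
    (fun t => ∑ j, (u - v) j * eval (fun j => v j + t * (u - v) j) (pderiv j P)) zero_lt_one
    (fun t _ => (hmv t).continuousAt.continuousWithinAt) (fun t _ => hmv t)
  rw [sub_zero, div_one] at g2
  have e1 : (fun j => v j + 1 * (u - v) j) = u := by
    funext j
    simp
  have e0 : (fun j => v j + 0 * (u - v) j) = v := by
    funext j
    simp
  rw [e1, e0] at g2
  rw [← h1, ← g2]
  have hseg : Bx r (fun j => v j + τ * (u - v) j) := by
    intro j
    have e : v j + τ * (u - v) j = (1 - τ) * v j + τ * u j := by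
      rw [Pi.sub_apply]
      ring
    show |v j + τ * (u - v) j| ≤ r
    rw [e]
    refine (abs_add_le _ _).trans ?_
    rw [abs_mul, abs_mul, abs_of_pos g0, abs_of_pos (sub_pos.2 g1)]
    have k1 := mul_le_mul_of_nonneg_left (hv j) (sub_pos.2 g1).le
    have k2 := mul_le_mul_of_nonneg_left (hu j) g0.le
    linarith
  have h2 := dX_le h hd hseg
  rw [dX_eval] at h2
  exact h2

/-- A homogeneous polynomial on a large box. -/
theorem hb_large {b : ℕ} {R r : ℝ} {Φ : Po} (h : Hb b R Φ) (hr : 0 < r) {q : V3} (hq : Bx r q) :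
    |eval q Φ| ≤ r ^ b * R := by
  have e : q = r • ((1 / r) • q) := by
    rw [smul_smul]
    field_simp
    rw [one_smul]
  rw [e, Pool.STB6.eval_hom h.hom, abs_mul, abs_of_pos (pow_pos hr b)]
  refine mul_le_mul_of_nonneg_left (h.bd _ fun j => ?_) (pow_pos hr b).le
  rw [Pi.smul_apply, smul_eq_mul, abs_mul, abs_of_pos (by positivity : 0 < 1 / r)]
  rw [one_div, inv_mul_le_iff₀ hr, mul_one]
  exact hq j

theorem hb_deg {b : ℕ} {R : ℝ} {Φ : Po} (h : Hb b R Φ) : Φ.totalDegree ≤ b :=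
  h.hom.totalDegree_le

theorem Bx.mono {r r' : ℝ} {q : V3} (h : Bx r q) (hr : r ≤ r') : Bx r' q := fun j => (h j).trans hr

theorem Bx.add {r r' : ℝ} {q q' : V3} (h : Bx r q) (h' : Bx r' q') : Bx (r + r') (q + q') :=
  fun j => (abs_add_le _ _).trans (add_le_add (h j) (h' j))

theorem Bx.sub {r r' : ℝ} {q q' : V3} (h : Bx r q) (h' : Bx r' q') : Bx (r + r') (q - q') :=
  fun j => (abs_sub _ _).trans (add_le_add (h j) (h' j))

theorem Bx.smul {r s : ℝ} {q : V3} (h : Bx 1 q) (hs : |s| ≤ r) : Bx r (s • q) := fun j => by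
  rw [Pi.smul_apply, smul_eq_mul, abs_mul]
  calc |s| * |q j| ≤ r * 1 := mul_le_mul hs (h j) (abs_nonneg _) ((abs_nonneg _).trans hs)
    _ = r := mul_one r

/-- Where the derivative in the direction `X` is small, the difference is nearly constant. -/
theorem inv_of {X : V3} {Φ f : Po} {δ : ℝ} (hX : Bx 1 X)
    (h : ∀ v, Bx 2 v → |eval v (dX X (Φ - f))| ≤ δ) : Inv X Φ f δ := by
  intro q hq s hs
  obtain ⟨θ, hθ, h1⟩ := mv_dir (Φ - f) q X s
  rw [map_sub, map_sub] at h1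
  have hδ : 0 ≤ δ := (abs_nonneg _).trans (h 0 fun j => by
    show |(0 : ℝ)| ≤ 2
    norm_num)
  have hv : Bx 2 (q + θ • X) := by
    have := Bx.add hq (Bx.smul hX (hθ.trans hs))
    refine Bx.mono this ?_
    norm_num
  rw [h1, abs_mul]
  calc |s| * |eval (q + θ • X) (dX X (Φ - f))| ≤ 1 * δ :=
        mul_le_mul hs (h _ hv) (abs_nonneg _) zero_le_one
    _ = δ := one_mul δ

/-- **The value at the end of a chain of four lines.** -/
theorem val_form (b : ℕ) (hb : 1 ≤ b) : ∃ A : ℝ, 1 ≤ A ∧ ∀ {M K : ℝ}, 1 ≤ K → K ≤ M →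
    ∀ {J0 J1 J2 J3 J4 : Po} {x0 x1 x2 x3 x4 X0 X1 X2 X3 : V3} {Φ0 Φ1 Φ2 Φ3 : Po}
    {s0 s1 s2 s3 : ℝ}, Bx 1 x0 → Bx 1 x1 → Bx 1 x2 → Bx 1 x3 → Bx 1 x4 → Bx 1 X1 → Bx 1 X2 →
    Bx 1 X3 → Hb b 1 Φ0 → Hb b 1 Φ1 → Hb b 1 Φ2 → Hb b 1 Φ3 → |s1| ≤ 2 → |s2| ≤ 2 → |s3| ≤ 2 →
    (mt ![X1, X2, X3]).det ≠ 0 →
    Bx (K / M) (x1 - x0 - s0 • X0) → Bx (K / M) (x2 - x1 - s1 • X1) →
    Bx (K / M) (x3 - x2 - s2 • X2) → Bx (K / M) (x4 - x3 - s3 • X3) →
    (∀ q, Bx 4 q → |(eval q J1 + eval (q - x1) Φ0) - (eval q J0 + eval (q - x0) Φ0)| ≤ K / M) →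
    (∀ q, Bx 4 q → |(eval q J2 + eval (q - x2) Φ1) - (eval q J1 + eval (q - x1) Φ1)| ≤ K / M) →
    (∀ q, Bx 4 q → |(eval q J3 + eval (q - x3) Φ2) - (eval q J2 + eval (q - x2) Φ2)| ≤ K / M) →
    (∀ q, Bx 4 q → |(eval q J4 + eval (q - x4) Φ3) - (eval q J3 + eval (q - x3) Φ3)| ≤ K / M) →
    Bx (4 * (K / M)) (x4 - x0 - (s0 • X0 + (s1 • X1 + s2 • X2 + s3 • X3))) ∧
    |eval x4 J4 - (eval x4 J0 + eval (x4 - x0) Φ0 -
      eval (s1 • X1 + s2 • X2 + s3 • X3) (Φ0 - fb ![X1, X2, X3] ![Φ1, Φ2, Φ3]))| ≤ A * (K / M) := by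
  obtain ⟨A, hA, hder⟩ := der_box b
  have h8 : (0 : ℝ) < 8 ^ b := by positivity
  refine ⟨4 + 54 * (A * 8 ^ b), by nlinarith [mul_pos (lt_of_lt_of_le one_pos hA) h8], ?_⟩
  intro M K hK hKM J0 J1 J2 J3 J4 x0 x1 x2 x3 x4 X0 X1 X2 X3 Φ0 Φ1 Φ2 Φ3 s0 s1 s2 s3 b0 b1 b2 b3 b4
    c1 c2 c3 f0 f1 f2 f3 hs1 hs2 hs3 hdet p0 p1 p2 p3 j0 j1 j2 j3
  obtain ⟨κ, hκ⟩ : ∃ κ : ℝ, κ = K / M := ⟨_, rfl⟩
  have hM : 0 < M := by linarith
  have hκ0 : 0 ≤ κ := by rw [hκ]; positivity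
  have hκ1 : κ ≤ 1 := by rw [hκ, div_le_one hM]; exact hKM
  rw [← hκ] at p0 p1 p2 p3 j0 j1 j2 j3 ⊢
  -- the four lines
  have hpos : Bx (4 * κ) (x4 - x0 - (s0 • X0 + (s1 • X1 + s2 • X2 + s3 • X3))) := by
    have e : x4 - x0 - (s0 • X0 + (s1 • X1 + s2 • X2 + s3 • X3)) =
        (x1 - x0 - s0 • X0) + (x2 - x1 - s1 • X1) + (x3 - x2 - s2 • X2) +
          (x4 - x3 - s3 • X3) := by abel
    rw [e]
    refine Bx.mono (Bx.add (Bx.add (Bx.add p0 p1) p2) p3) ?_
    linarith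
  refine ⟨hpos, ?_⟩
  have q3 : Bx κ ((x4 - x3) - s3 • X3) := p3
  have q2 : Bx (2 * κ) ((x4 - x2) - (s2 • X2 + s3 • X3)) := by
    have e : (x4 - x2) - (s2 • X2 + s3 • X3) = (x3 - x2 - s2 • X2) + (x4 - x3 - s3 • X3) := by
      abel
    rw [e]
    exact Bx.mono (Bx.add p2 p3) (by linarith)
  have q1 : Bx (3 * κ) ((x4 - x1) - (s1 • X1 + s2 • X2 + s3 • X3)) := by
    have e : (x4 - x1) - (s1 • X1 + s2 • X2 + s3 • X3) =
        (x2 - x1 - s1 • X1) + (x3 - x2 - s2 • X2) + (x4 - x3 - s3 • X3) := by abel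
    rw [e]
    exact Bx.mono (Bx.add (Bx.add p1 p2) p3) (by linarith)
  have hd : ∀ {Φ : Po}, Hb b 1 Φ → ∀ q, Bx 8 q → ∀ j, |eval q (pderiv j Φ)| ≤ A * 8 ^ b := by
    intro Φ hΦ q hq j
    have h1 := hder Φ (hb_deg hΦ) 8 (8 ^ b * 1) (by norm_num)
      (fun q hq => hb_large hΦ (by norm_num) hq) q hq j
    refine h1.trans ?_
    rw [mul_one]
    have : 0 ≤ A * 8 ^ b := by positivity
    linarith
  have hB : 0 ≤ A * 8 ^ b := by positivity
  have hx : ∀ {x : V3}, Bx 1 x → Bx 8 (x4 - x) := fun h => Bx.mono (Bx.sub b4 h) (by norm_num)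
  have l3 : ∀ {Φ : Po}, Hb b 1 Φ → |eval (x4 - x3) Φ - eval (s3 • X3) Φ| ≤
      3 * (3 * κ * (A * 8 ^ b)) := fun hΦ =>
    lip_box (hd hΦ) (hx b3) (Bx.mono (Bx.smul c3 hs3) (by norm_num)) (Bx.mono q3 (by linarith))
  have l2 : ∀ {Φ : Po}, Hb b 1 Φ → |eval (x4 - x2) Φ - eval (s2 • X2 + s3 • X3) Φ| ≤
      3 * (3 * κ * (A * 8 ^ b)) := fun hΦ =>
    lip_box (hd hΦ) (hx b2) (Bx.mono (Bx.add (Bx.smul c2 hs2) (Bx.smul c3 hs3)) (by norm_num))
      (Bx.mono q2 (by linarith))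
  have l1 : ∀ {Φ : Po}, Hb b 1 Φ → |eval (x4 - x1) Φ - eval (s1 • X1 + s2 • X2 + s3 • X3) Φ| ≤
      3 * (3 * κ * (A * 8 ^ b)) := fun hΦ =>
    lip_box (hd hΦ) (hx b1) (Bx.mono (Bx.add (Bx.add (Bx.smul c1 hs1) (Bx.smul c2 hs2))
      (Bx.smul c3 hs3)) (by norm_num)) q1
  have hx4 : Bx 4 x4 := Bx.mono b4 (by norm_num)
  have hfb := Pool.STB6.fbv ![X1, X2, X3] ![Φ1, Φ2, Φ3] ![s1, s2, s3] hdet
  have e0 : ∑ a, (![s1, s2, s3] : Fin 3 → ℝ) a • (![X1, X2, X3] : Fin 3 → V3) a =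
      s1 • X1 + s2 • X2 + s3 • X3 := by
    rw [Fin.sum_univ_three]
    rfl
  rw [e0] at hfb
  have hfb' : eval (s1 • X1 + s2 • X2 + s3 • X3) (fb ![X1, X2, X3] ![Φ1, Φ2, Φ3]) =
      eval (s1 • X1 + s2 • X2 + s3 • X3) Φ1 +
      (eval (s2 • X2 + s3 • X3) Φ2 - eval (s2 • X2 + s3 • X3) Φ1) +
      (eval (s3 • X3) Φ3 - eval (s3 • X3) Φ2) := hfb
  rw [map_sub, hfb']
  have g3 := j3 x4 hx4
  have g2 := j2 x4 hx4
  have g1 := j1 x4 hx4
  have g0 := j0 x4 hx4
  rw [sub_self, Pool.STB6.eval_hom0 hb f3.hom, add_zero] at g3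
  have m33 := l3 f3
  have m32 := l3 f2
  have m22 := l2 f2
  have m21 := l2 f1
  have m11 := l1 f1
  have m10 := l1 f0
  obtain ⟨B, hBd⟩ : ∃ B : ℝ, B = κ * (A * 8 ^ b) := ⟨_, rfl⟩
  have hB0 : 0 ≤ B := by rw [hBd]; positivity
  have e1 : 3 * (3 * κ * (A * 8 ^ b)) = 9 * B := by rw [hBd]; ring
  rw [e1] at m33 m32 m22 m21 m11 m10
  have e2 : (4 + 54 * (A * 8 ^ b)) * κ = 4 * κ + 54 * B := by rw [hBd]; ring
  rw [e2]
  have a3 := abs_le.1 g3
  have a2 := abs_le.1 g2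
  have a1 := abs_le.1 g1
  have a0 := abs_le.1 g0
  have d33 := abs_le.1 m33
  have d32 := abs_le.1 m32
  have d22 := abs_le.1 m22
  have d21 := abs_le.1 m21
  have d11 := abs_le.1 m11
  have d10 := abs_le.1 m10
  rw [abs_le]
  constructor <;> linarith [a3.1, a3.2, a2.1, a2.2, a1.1, a1.2, a0.1, a0.2, d33.1, d33.2, d32.1,
    d32.2, d22.1, d22.2, d21.1, d21.2, d11.1, d11.2, d10.1, d10.2]

/-- **Two chains with the same data and the same end**: the first times are near where the derivative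
is not small. -/
theorem pair_s0 (b : ℕ) : ∃ A : ℝ, 1 ≤ A ∧ ∀ {M K d η Δ E : ℝ}, 1 ≤ K → K ≤ M → 0 < d → d ≤ 1 →
    0 < η → 0 < Δ → Δ ≤ 2 → 1 ≤ E → A * E * Δ ≤ η * d ^ b →
    ∀ {J0 : Po} {x0 x4 x4' X0 v v' : V3} {Φ f : Po} {s s' N N' : ℝ},
    J0.totalDegree ≤ b → (∀ q, Bx 1 q → |eval q J0| ≤ K) → Hb b 1 Φ → Hb b (E / d ^ b) f →
    Bx 1 x0 → Bx 1 x4 → Bx 1 x4' → Bx 1 X0 → Bx 6 v → Bx 6 v' →
    Bx (4 * (K / M)) (x4 - x0 - (s • X0 + v)) → Bx (4 * (K / M)) (x4' - x0 - (s' • X0 + v')) →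
    |N - (eval x4 J0 + eval (x4 - x0) Φ - eval v (Φ - f))| ≤ E * (K / M) →
    |N' - (eval x4' J0 + eval (x4' - x0) Φ - eval v' (Φ - f))| ≤ E * (K / M) →
    |N - N'| ≤ 1 / M → Bx (1 / M) (x4 - x4') → |s - s'| ≤ Δ →
    η ≤ |eval v (dX X0 (Φ - f))| → |s - s'| ≤ A * E * K / (M * (η * d ^ b)) := by
  obtain ⟨A, hA, hder⟩ := der_box b
  obtain ⟨G, hG⟩ : ∃ G : ℝ, G = 16 ^ b := ⟨_, rfl⟩
  have hG1 : 1 ≤ G := by rw [hG]; exact one_le_pow₀ (by norm_num)
  have hAG : 1 ≤ A * G := one_le_mul_of_one_le_of_one_le hA hG1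
  refine ⟨2 * (6 + 3 * A + 57 * (A * G)) + 36 * (A * (A * G)), by nlinarith, ?_⟩
  intro M K d η Δ E hK hKM hd hd1 hη hΔ hΔ2 hE hcond J0 x0 x4 x4' X0 v v' Φ f s s' N N' hJd hJ hΦ hf
    b0 b4 b4' bX bv bv' hp hp' hN hN' hNN hxx hss hbig
  have hM : 0 < M := by linarith
  have hA0 : 0 < A := by linarith
  have hdb : 0 < d ^ b := pow_pos hd b
  have hdb1 : d ^ b ≤ 1 := pow_le_one₀ hd.le hd1
  obtain ⟨W, hW⟩ : ∃ W : ℝ, W = E / d ^ b := ⟨_, rfl⟩
  have hWE : E ≤ W := by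
    rw [hW, le_div_iff₀ hdb]
    nlinarith
  have hW1 : 1 ≤ W := hE.trans hWE
  obtain ⟨g, hg⟩ : ∃ g : Po, g = Φ - f := ⟨_, rfl⟩
  have hgd : g.totalDegree ≤ b := by
    rw [hg]
    exact (totalDegree_sub _ _).trans (max_le (hb_deg hΦ) (hb_deg hf))
  have hgb : ∀ q, Bx 16 q → |eval q g| ≤ 2 * (G * W) := by
    intro q hq
    rw [hg, map_sub]
    refine (abs_sub _ _).trans ?_
    have h1 := hb_large hΦ (by norm_num : (0 : ℝ) < 16) hq
    have h2 := hb_large hf (by norm_num : (0 : ℝ) < 16) hq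
    rw [← hG] at h1 h2
    rw [← hW] at h2
    have h3 : G * 1 ≤ G * W := mul_le_mul_of_nonneg_left hW1 (by linarith)
    linarith
  obtain ⟨B, hB⟩ : ∃ B : ℝ, B = 2 * (A * G) * W := ⟨_, rfl⟩
  have hB0 : 0 ≤ B := by rw [hB]; positivity
  have hg1 : ∀ q, Bx 16 q → ∀ j, |eval q (pderiv j g)| ≤ B := by
    intro q hq j
    have h1 := hder g hgd 16 (2 * (G * W)) (by norm_num) hgb q hq j
    refine h1.trans ?_
    have e : A * (2 * (G * W)) = B := by rw [hB]; ring
    rw [e]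
    linarith
  have hdX : ∀ q, Bx 16 q → |eval q (dX X0 g)| ≤ 3 * B := by
    intro q hq
    have := dX_le hg1 bX hq
    linarith
  have hg2 : ∀ q, Bx 16 q → ∀ j, |eval q (pderiv j (dX X0 g))| ≤ 3 * (A * B) := by
    intro q hq j
    have h1 := hder (dX X0 g) (dX_deg X0 hgd) 16 (3 * B) (by norm_num) hdX q hq j
    refine h1.trans ?_
    have : 0 ≤ A * B := by positivity
    have e : A * (3 * B) = 3 * (A * B) := by ring
    rw [e]
    linarith
  -- the small terms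
  obtain ⟨U, hU⟩ : ∃ U : ℝ, U = K / M := ⟨_, rfl⟩
  have hU0 : 0 < U := by rw [hU]; positivity
  have h1M : 1 / M ≤ U := by
    rw [hU]
    exact div_le_div_of_nonneg_right hK hM.le
  have t1 : |eval x4 J0 - eval x4' J0| ≤ 3 * A * U := by
    have h1 := lip_box (P := J0) (r := 1) (B := A * K / 1)
      (fun q hq j => hder J0 hJd 1 K one_pos hJ q hq j) b4 b4' hxx
    refine h1.trans (le_of_eq ?_)
    rw [hU]
    ring
  have t2 : |eval (x4 - x0) Φ - eval (x4' - x0) Φ| ≤ 3 * (A * G) * U := by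
    have h1 := lip_box (P := Φ) (r := 16) (B := A * G) (u := x4 - x0) (v := x4' - x0)
      (δ := 1 / M) (fun q hq j => by
        have h2 := hder Φ (hb_deg hΦ) 16 (16 ^ b * 1) (by norm_num)
          (fun q hq => hb_large hΦ (by norm_num) hq) q hq j
        rw [mul_one, ← hG] at h2
        refine h2.trans ?_
        have : 0 ≤ A * G := by positivity
        linarith) (Bx.mono (Bx.sub b4 b0) (by norm_num)) (Bx.mono (Bx.sub b4' b0) (by norm_num))
      (by
        have e : x4 - x0 - (x4' - x0) = x4 - x4' := by abel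
        rw [e]
        exact hxx)
    refine h1.trans ?_
    have : 0 ≤ A * G := by positivity
    nlinarith
  rw [← hg] at hN hN' hbig
  rw [← hU] at hN hN' hp hp'
  have t3 : |eval v g - eval v' g| ≤ (1 + 3 * A + 3 * (A * G) + 2 * E) * U := by
    have a1 := abs_le.1 hN
    have a2 := abs_le.1 hN'
    have a3 := abs_le.1 hNN
    have a4 := abs_le.1 t1
    have a5 := abs_le.1 t2
    rw [abs_le]
    constructor <;> nlinarith [a1.1, a1.2, a2.1, a2.2, a3.1, a3.2, a4.1, a4.2, a5.1, a5.2]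
  obtain ⟨u, hu⟩ : ∃ u : V3, u = v + (s - s') • X0 := ⟨_, rfl⟩
  have bu : Bx 16 u := by
    rw [hu]
    exact Bx.mono (Bx.add bv (Bx.smul bX (hss.trans hΔ2))) (by norm_num)
  have huv : Bx (9 * U) (u - v') := by
    have e : u - v' = (x4' - x0 - (s' • X0 + v')) - (x4 - x0 - (s • X0 + v)) + (x4 - x4') := by
      rw [hu, sub_smul]
      abel
    rw [e]
    exact Bx.mono (Bx.add (Bx.sub hp' hp) hxx) (by linarith)
  have t4 : |eval u g - eval v' g| ≤ 27 * B * U := by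
    have h1 := lip_box hg1 bu (Bx.mono bv' (by norm_num)) huv
    refine h1.trans (le_of_eq ?_)
    ring
  obtain ⟨θ, hθ, hmv⟩ := mv_dir g v X0 (s - s')
  rw [← hu] at hmv
  have t5 : |eval (v + θ • X0) (dX X0 g) - eval v (dX X0 g)| ≤ η / 2 := by
    have h1 := lip_box (P := dX X0 g) hg2 (u := v + θ • X0) (v := v) (δ := Δ)
      (Bx.mono (Bx.add bv (Bx.smul bX ((hθ.trans hss).trans hΔ2))) (by norm_num))
      (Bx.mono bv (by norm_num)) (by
        have e : v + θ • X0 - v = θ • X0 := by abel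
        rw [e]
        exact Bx.smul bX (hθ.trans hss))
    refine h1.trans ?_
    have h2 : 36 * (A * (A * G)) * E * Δ ≤ η * d ^ b := by
      refine le_trans ?_ hcond
      have : 0 ≤ (2 * (6 + 3 * A + 57 * (A * G))) * E * Δ := by positivity
      nlinarith
    have h3 : 36 * (A * (A * G)) * W * Δ ≤ η := by
      have e : 36 * (A * (A * G)) * W * Δ = 36 * (A * (A * G)) * E * Δ / d ^ b := by
        rw [hW]; ring
      rw [e, div_le_iff₀ hdb]
      exact h2
    have e : 3 * (Δ * (3 * (A * B))) = 36 * (A * (A * G)) * W * Δ / 2 := by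
      rw [hB]; ring
    rw [e]
    linarith
  have t6 : η / 2 ≤ |eval (v + θ • X0) (dX X0 g)| := by
    have h1 := abs_sub_abs_le_abs_sub (eval v (dX X0 g)) (eval (v + θ • X0) (dX X0 g))
    rw [abs_sub_comm] at h1
    linarith
  have t7 : |s - s'| * (η / 2) ≤ (1 + 3 * A + 3 * (A * G) + 2 * E) * U + 27 * B * U := by
    have h1 : |eval u g - eval v g| ≤
        (1 + 3 * A + 3 * (A * G) + 2 * E) * U + 27 * B * U := by
      have a3 := abs_le.1 t3
      have a4 := abs_le.1 t4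
      rw [abs_le]
      constructor <;> linarith [a3.1, a3.2, a4.1, a4.2]
    rw [hmv, abs_mul] at h1
    refine le_trans ?_ h1
    exact mul_le_mul_of_nonneg_left t6 (abs_nonneg _)
  have t8 : (1 + 3 * A + 3 * (A * G) + 2 * E) * U + 27 * B * U ≤
      (6 + 3 * A + 57 * (A * G)) * W * U := by
    have h1 : 1 + 3 * A + 3 * (A * G) + 2 * E + 27 * B ≤ (6 + 3 * A + 57 * (A * G)) * W := by
      have k1 : 3 * A ≤ 3 * A * W := by nlinarith
      have k2 : 3 * (A * G) ≤ 3 * (A * G) * W := by nlinarith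
      have k3 : 27 * B = 54 * (A * G) * W := by rw [hB]; ring
      rw [k3]
      nlinarith
    have := mul_le_mul_of_nonneg_right h1 hU0.le
    linarith
  rw [le_div_iff₀ (by positivity)]
  have e : (6 + 3 * A + 57 * (A * G)) * W * U * (M * d ^ b) =
      (6 + 3 * A + 57 * (A * G)) * E * K := by
    rw [hW, hU]
    field_simp
  have h9 : |s - s'| * (η / 2) * (M * d ^ b) ≤ (6 + 3 * A + 57 * (A * G)) * E * K := by
    rw [← e]
    exact mul_le_mul_of_nonneg_right (t7.trans t8) (by positivity)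
  have h10 : 0 ≤ 36 * (A * (A * G)) * E * K := by positivity
  nlinarith

end Pool.CHN76
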