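import Pool.Agent.H76.CHN.Gp
import Pool.Agent.H76.CHN.Mono
import Pool.Agent.H6.STB.Rd4
import Pool.Agent.H65.LEAF.Low

/-!
# Counting at the end of a chain of four lines

`count4` is abstract: four times `t i` which are full given the side `Wv`; the position `u` of the end;
the value `N` of the end. Given the position, the value and the side, the first time is one of few.
-/

set_option autoImplicit false

namespace Pool.CHN76

open Finset Real MvPolynomial
open Pool.Agent.H49.Ent Pool.Agent.H32.Dense Pool.STK Pool.MIC Pool.STB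
open Pool.BFL (Pb)

/-- **Counting.** -/
theorem count4 {O τ ν : Type} [Fintype O] {Q : O → ℝ} (hQ : IsLaw Q) (t : Fin 4 → O → ℤ)
    (u : O → Fin 3 → ℤ) (N : O → ν) (idx : O → ℤ) (Wv : O → τ) {U I κ κ' B : ℝ}
    (hu : ∀ w w', 0 < Q w → 0 < Q w' → Wv w = Wv w' → ∀ i, |((u w i - u w' i : ℤ) : ℝ)| ≤ U)
    (hN : CH Q N (fun w => (u w, Wv w)) ≤ B)
    (hI : ∀ w w', 0 < Q w → 0 < Q w' → Wv w = Wv w' → |((idx w - idx w' : ℤ) : ℝ)| ≤ I)
    (h0 : ∀ w w', 0 < Q w → 0 < Q w' → idx w = idx w' → N w = N w' → u w = u w' →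
      Wv w = Wv w' → |((t 0 w - t 0 w' : ℤ) : ℝ)| ≤ κ')
    (h1 : ∀ w w', 0 < Q w → 0 < Q w' → t 0 w = t 0 w' → u w = u w' → Wv w = Wv w' →
      ∀ k : Fin 3, |((t k.succ w - t k.succ w' : ℤ) : ℝ)| ≤ κ) :
    CH Q (fun w (k : Fin 4) => t k w) Wv ≤ 3 * Real.log (2 * U + 1) + B +
      Real.log (2 * I + 1) + Real.log (2 * κ' + 1) + 3 * Real.log (2 * κ + 1) := by
  have hn := hQ.nonneg
  have c1 := CH_le_add hn (fun w (k : Fin 4) => t k w) u Wv
  have c2 := CH_le_add hn (fun w (k : Fin 4) => t k w) (fun w => t 0 w) (fun w => (u w, Wv w))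
  have c3 := CH_le_add hn (fun w => t 0 w) N (fun w => (u w, Wv w))
  have c4 := CH_le_add hn (fun w => t 0 w) idx (fun w => (N w, (u w, Wv w)))
  have d1 : CH Q u Wv ≤ 3 * Real.log (2 * U + 1) := by
    have := CH_le_vec hn hQ.sum_one u Wv (fun _ => U) hu
    rw [Ex_const hQ.sum_one] at this
    exact_mod_cast this
  have d2 : CH Q (fun w (k : Fin 4) => t k w) (fun w => (t 0 w, (u w, Wv w))) ≤
      3 * Real.log (2 * κ + 1) := by
    have e1 : CH Q (fun w (k : Fin 4) => t k w) (fun w => (t 0 w, (u w, Wv w))) ≤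
        CH Q (fun w (k : Fin 3) => t k.succ w) (fun w => (t 0 w, (u w, Wv w))) := by
      refine CH_mono_left hn fun w w' _ _ h => ?_
      have f1 := (Prod.ext_iff.mp h).1
      have f2 := (Prod.ext_iff.mp (Prod.ext_iff.mp h).2).1
      funext k
      refine Fin.cases f2 (fun k => ?_) k
      exact congrFun f1 k
    have := CH_le_vec hn hQ.sum_one (fun w (k : Fin 3) => t k.succ w)
      (fun w => (t 0 w, (u w, Wv w))) (fun _ => κ) (fun w w' a b h k => by
        simp only [Prod.mk.injEq] at h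
        exact h1 w w' a b h.1 h.2.1 h.2.2 k)
    rw [Ex_const hQ.sum_one] at this
    refine e1.trans ?_
    exact_mod_cast this
  have d3 : CH Q idx (fun w => (N w, (u w, Wv w))) ≤ Real.log (2 * I + 1) := by
    have := CH_le_int hn hQ.sum_one idx (fun w => (N w, (u w, Wv w))) (fun _ => I)
      (fun w w' a b h => by
        simp only [Prod.mk.injEq] at h
        exact hI w w' a b h.2.2)
    rwa [Ex_const hQ.sum_one] at this
  have d4 : CH Q (fun w => t 0 w) (fun w => (idx w, (N w, (u w, Wv w)))) ≤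
      Real.log (2 * κ' + 1) := by
    have := CH_le_int hn hQ.sum_one (fun w => t 0 w) (fun w => (idx w, (N w, (u w, Wv w))))
      (fun _ => κ') (fun w w' a b h => by
        simp only [Prod.mk.injEq] at h
        exact h0 w w' a b h.1 h.2.1 h.2.2.1 h.2.2.2)
    rwa [Ex_const hQ.sum_one] at this
  linarith

/-! ### The polynomial of the four times -/

/-- The point reached by the last three lines. -/
noncomputable def lineP (X1 X2 X3 : V3) (j : Fin 3) : MvPolynomial (Fin 4) ℝ :=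
  (X 1 - X 0) * C (X1 j) + (X 2 - X 1) * C (X2 j) + (X 3 - X 2) * C (X3 j)

theorem lineP_deg (X1 X2 X3 : V3) (j : Fin 3) : (lineP X1 X2 X3 j).totalDegree ≤ 1 := by
  have h : ∀ (i k : Fin 4) (c : ℝ),
      ((X i - X k : MvPolynomial (Fin 4) ℝ) * C c).totalDegree ≤ 1 := by
    intro i k c
    refine (totalDegree_mul _ _).trans ?_
    rw [totalDegree_C, add_zero]
    refine (totalDegree_sub _ _).trans ?_
    rw [totalDegree_X, totalDegree_X, max_self]
  unfold lineP
  exact (totalDegree_add _ _).trans (max_le ((totalDegree_add _ _).trans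
    (max_le (h _ _ _) (h _ _ _))) (h _ _ _))

/-- The derivative read along the times. -/
noncomputable def F4 (X0 X1 X2 X3 : V3) (P : Po) : MvPolynomial (Fin 4) ℝ :=
  bind₁ (lineP X1 X2 X3) (dX X0 P)

theorem F4_eval (X0 X1 X2 X3 : V3) (P : Po) (ζ : Fin 4 → ℝ) :
    eval ζ (F4 X0 X1 X2 X3 P) =
      eval ((ζ 1 - ζ 0) • X1 + (ζ 2 - ζ 1) • X2 + (ζ 3 - ζ 2) • X3) (dX X0 P) := by
  unfold F4
  rw [← coe_aeval_eq_eval, ← coe_aeval_eq_eval, RingHom.coe_coe, RingHom.coe_coe, aeval_bind₁]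
  congr 1
  congr 1
  funext j
  unfold lineP
  simp

theorem F4_deg (X0 X1 X2 X3 : V3) {P : Po} {b : ℕ} (h : P.totalDegree ≤ b) (i : Fin 4) :
    (F4 X0 X1 X2 X3 P).degreeOf i ≤ b :=
  (degreeOf_le_totalDegree _ _).trans ((Pool.Agent.H50.PW.totalDegree_bind₁_le _
    (lineP_deg X1 X2 X3) (dX X0 P)).trans (dX_deg X0 h))

end Pool.CHN76
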