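import Pool.Agent.H76.CHN.BlkF
import Pool.Agent.H98.STB.End3

/-!
# The end in a block of digits, with a side
-/

set_option autoImplicit false

namespace Pool.CHN76

open Finset Real MvPolynomial
open Pool.Agent.H49.Ent Pool.Agent.H32.Dense Pool.STK Pool.MIC Pool.STB
open Pool.BFL (Pb)

/-- **The end** (98's statement). -/
theorem end_stmt : EndStmt := end_of star

/-- **The end, with a gain which does not depend on the size of `f`.** -/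
theorem end_stmt2 : EndStmt2 := end_of2 star

/-- The field `nf` is trivial for a very negative `h`. -/
theorem nf_triv {Ω Z Y : Type} [Fintype Ω] {z : Ω → Z} {y : Ω → Y} {x : Z → V3} {J : Z → Po}
    {M : ℕ} {K e : ℝ} (hM : 2 ≤ M) (he : 0 ≤ e) (x1 : ∀ r, Bx 1 (x r))
    (J1 : ∀ r, ∀ q, Bx 1 q → |eval q (J r)| ≤ K) : ∃ h' : ℝ, ∀ q : Ω → ℝ, IsLaw q →
      CH q (fun ω => ⌊(M : ℝ) * val x J (z ω)⌋) (fun ω => (cv M (x (z ω)), y ω)) ≤
        (1 - h') * Real.log M + e := by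
  have hM0 : (0 : ℝ) < M := by exact_mod_cast (by omega : 0 < M)
  have hlog : 0 < Real.log M := Real.log_pos (by exact_mod_cast (by omega : 1 < M))
  refine ⟨1 - Real.log (2 * (M * (2 * K) + 1) + 1) / Real.log M, fun q hq => ?_⟩
  have h1 := CH_le_int hq.nonneg hq.sum_one (fun ω => ⌊(M : ℝ) * val x J (z ω)⌋)
    (fun ω => (cv M (x (z ω)), y ω)) (fun _ => M * (2 * K) + 1) (fun ω ω' _ _ _ => by
      refine floor_diff ?_
      rw [← mul_sub, abs_mul, abs_of_pos hM0]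
      refine mul_le_mul_of_nonneg_left ?_ hM0.le
      have a1 := J1 (z ω) _ (x1 (z ω))
      have a2 := J1 (z ω') _ (x1 (z ω'))
      have a3 := abs_sub (val x J (z ω)) (val x J (z ω'))
      unfold Pool.STB.val at a3 ⊢
      linarith)
  rw [Ex_const hq.sum_one] at h1
  refine h1.trans ?_
  rw [sub_sub_cancel, div_mul_cancel₀ _ hlog.ne']
  linarith

/-- **The end in a block of digits, with a side.** -/
def EndB : Prop := ∀ (b : ℕ) (h c' : ℝ), 1 ≤ b → 0 < h → 0 < c' →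
  ∃ γ : ℝ, 0 < γ ∧ ∀ κ : ℝ, 0 < κ → ∃ γ₀ e₀ c R : ℝ, ∃ X₀ : ℕ, 0 < γ₀ ∧ γ₀ ≤ κ ∧ 0 < e₀ ∧
  0 < c ∧ 0 < R ∧
  ∀ (Q m : ℕ), 1 ≤ Q → X₀ ≤ m → ∀ (Ω Λ Z Y 𝒟 SS : Type) [Fintype Ω] (p : Ω → ℝ) (L : Ω → Λ)
    (z : Ω → Z) (y : Ω → Y) (t : Ω → ℤ) (D : Λ → 𝒟) (X : 𝒟 → V3) (Φ : 𝒟 → Po) (x : Z → V3)
    (J : Z → Po) (Sd : Ω → SS) (h' R' : ℝ),
    ChH p L z y t D X Φ x J b (Q * m) ((m : ℝ) ^ e₀) (e₀ * Real.log m) h' R'
      ((m : ℝ) ^ (-γ₀)) c →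
    (∀ q : Ω → ℝ, IsLaw q → (∀ ω, q ω ≤ R * p ω) →
      CH q (fun ω => ⌊((Q * m : ℕ) : ℝ) * val x J (z ω)⌋)
        (fun ω => (⌊(Q : ℝ) * val x J (z ω)⌋, (cv (Q * m) (x (z ω)), (y ω, Sd ω)))) ≤
      (1 - h) * Real.log m + e₀ * Real.log m) →
    CH (R8 p L z) (fun w => Sd w.2)
      (fun w => (dat D L z w, fun k : Fin 4 => tm t k w / (m : ℤ))) ≤ e₀ * Real.log m →
    ∃ f : Z → Po, (∀ r, Hb b ((m : ℝ) ^ κ) (f r)) ∧
      Pb (glue p p L L) (fun w => ¬ ∀ q, Bx 1 q →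
        |(eval q (J (z w.1)) + eval (q - x (z w.1)) (f (z w.1))) -
          (eval q (J (z w.2)) + eval (q - x (z w.2)) (f (z w.2)))| ≤ (m : ℝ) ^ (-γ)) ≤ c'

/-- **The end in a block.** -/
theorem end_blk : EndB := by
  intro b h c' hb hh hc'
  have hb1 : (1 : ℝ) ≤ b := by exact_mod_cast hb
  obtain ⟨C, hC, hpp⟩ := pp_of_star b hb
  obtain ⟨γ, γ₁, hγ, hγ₁, hS⟩ := star_blk b h (c' / 28) hb hh (by positivity)
  -- the exponents
  obtain ⟨g, hg⟩ : ∃ g : ℝ, g = min γ (1 / 2) := ⟨_, rfl⟩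
  have hg0 : 0 < g := by
    rw [hg]
    exact lt_min hγ (by norm_num)
  have hgγ : g ≤ γ := by rw [hg]; exact min_le_left _ _
  have hg2 : g ≤ 1 / 2 := by rw [hg]; exact min_le_right _ _
  refine ⟨g / 4, by positivity, fun κ hκ => ?_⟩
  obtain ⟨γ₀, hγ₀⟩ : ∃ γ₀ : ℝ, γ₀ = min γ₁ (min g κ / (16 * b)) := ⟨_, rfl⟩
  have hgm : 0 < min g κ := lt_min hg0 hκ
  have hγ₀0 : 0 < γ₀ := by
    rw [hγ₀]
    exact lt_min hγ₁ (by positivity)
  have hγ₀1 : γ₀ ≤ γ₁ := by rw [hγ₀]; exact min_le_left _ _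
  have hγ₀3 : 4 * b * γ₀ ≤ min g κ / 4 := by
    have h1 : γ₀ ≤ min g κ / (16 * b) := by rw [hγ₀]; exact min_le_right _ _
    rw [le_div_iff₀ (by positivity)] at h1
    linarith
  have hγ₀2 : 4 * b * γ₀ ≤ g / 4 := by linarith [min_le_left g κ]
  have hγ₀κ : 4 * b * γ₀ ≤ κ / 4 := by linarith [min_le_right g κ]
  obtain ⟨e₀, c, R, M₁, he₀, hc, hR, hS⟩ := hS γ₀ hγ₀0 hγ₀1
  obtain ⟨M₂, hM₂, hM⟩ := end_const (γ := g / 4) (κ := κ / 2) hC (by positivity) (by positivity)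
  refine ⟨γ₀, min e₀ (1 / 2), min c (c' / 12), R, max M₁ M₂, hγ₀0, by nlinarith,
    lt_min he₀ (by norm_num), lt_min hc (by positivity), hR, ?_⟩
  intro Q m hQ1 hMM Ω Λ Z Y 𝒟 SS _ p L z y t D X Φ x J Sd h' R' H hnfb hsd
  have hM1 : M₁ ≤ m := (le_max_left _ _).trans hMM
  have hM2 : M₂ ≤ m := (le_max_right _ _).trans hMM
  have hM1' : 1 ≤ m := hM₂.trans hM2
  have hMr : (1 : ℝ) ≤ m := by exact_mod_cast hM1'
  have hM0 : (0 : ℝ) < m := by linarith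
  have hQ0 : (1 : ℝ) ≤ Q := by exact_mod_cast hQ1
  have hQm : 1 ≤ Q * m := Nat.one_le_iff_ne_zero.2 (by positivity)
  have hQmr : (m : ℝ) ≤ ((Q * m : ℕ) : ℝ) := by
    push_cast
    nlinarith
  obtain ⟨m1, m2⟩ := hM m hM2
  have hlog : 0 ≤ Real.log m := Real.log_nonneg hMr
  have hmin : min e₀ (1 / 2) * Real.log m ≤ e₀ * Real.log m :=
    mul_le_mul_of_nonneg_right (min_le_left _ _) hlog
  have H' : ChH p L z y t D X Φ x J b (Q * m) ((m : ℝ) ^ e₀) (e₀ * Real.log m) h' R'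
      ((m : ℝ) ^ (-γ₀)) c := H.mono
    (Real.rpow_le_rpow_of_exponent_le hMr (min_le_left _ _))
    (mul_le_mul_of_nonneg_right (min_le_left _ _) hlog) le_rfl (min_le_left _ _) hQm
  have hst := hS Q m hQ1 hM1 Ω Λ Z Y 𝒟 SS p L z y t D X Φ x J Sd h' R' H'
    (fun q hq hd => (hnfb q hq hd).trans (by linarith)) (hsd.trans hmin)
  obtain ⟨η, hη⟩ : ∃ η : ℝ, η = (m : ℝ) ^ (-γ₀) := ⟨_, rfl⟩
  have hη0 : 0 < η := by rw [hη]; positivity
  have hη1 : η ≤ 1 := by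
    rw [hη]
    exact Real.rpow_le_one_of_one_le_of_nonpos hMr (by linarith)
  have hη4 : η ^ 4 = (m : ℝ) ^ (-γ₀ * 4) := by
    rw [hη, ← Real.rpow_natCast, ← Real.rpow_mul hM0.le]
    norm_num
  have hηb : η ^ (4 * b) = (m : ℝ) ^ (-(4 * b * γ₀)) := by
    rw [hη, ← Real.rpow_natCast, ← Real.rpow_mul hM0.le]
    congr 1
    push_cast
    ring
  rw [← hη4] at hst
  have hD : ∀ ω ω', 0 < p ω → 0 < p ω' → L ω = L ω' →
      X (D (L ω)) = X (D (L ω')) ∧ Φ (D (L ω)) = Φ (D (L ω')) := fun ω ω' _ _ e => by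
    rw [e]; exact ⟨rfl, rfl⟩
  have hK1 : (1 : ℝ) ≤ (m : ℝ) ^ min e₀ (1 / 2) :=
    Real.one_le_rpow hMr (le_min he₀.le (by norm_num))
  have hK2m : (m : ℝ) ^ min e₀ (1 / 2) ≤ m := by
    calc (m : ℝ) ^ min e₀ (1 / 2) ≤ (m : ℝ) ^ (1 : ℝ) :=
          Real.rpow_le_rpow_of_exponent_le hMr ((min_le_right _ _).trans (by norm_num))
      _ = m := Real.rpow_one _
  have hK2 : (m : ℝ) ^ min e₀ (1 / 2) ≤ ((Q * m : ℕ) : ℝ) := hK2m.trans hQmr
  obtain ⟨f, hf, hPb⟩ := hpp H.law L z t (fun ω => X (D (L ω))) (fun ω => Φ (D (L ω))) x J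
    (K := (m : ℝ) ^ min e₀ (1 / 2)) (η := η) (δ := (m : ℝ) ^ (-γ)) (c := min c (c' / 12))
    (c₁ := c' / 28) hQm hK1 hK2 hη0 hη1 (by positivity) hD H.tM (fun ω => H.X1 _)
    (fun ω => H.Φ1 _) H.x1 H.pos H.jet (by rw [hη]; exact H.gp) hst
  have hinv : 1 / η ^ (4 * b) = (m : ℝ) ^ (4 * b * γ₀) := by
    rw [hηb, Real.rpow_neg hM0.le, one_div, inv_inv]
  refine ⟨f, fun r => hb_mono (hf r) ?_, ?_⟩
  · have e1 : C / η ^ (4 * b) = C * (m : ℝ) ^ (4 * b * γ₀) := by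
      rw [← hinv]
      ring
    rw [e1]
    calc C * (m : ℝ) ^ (4 * b * γ₀) ≤ (m : ℝ) ^ (κ / 2) * (m : ℝ) ^ (κ / 2) := by
          refine mul_le_mul m2 (Real.rpow_le_rpow_of_exponent_le hMr (by linarith))
            (by positivity) (by positivity)
      _ = (m : ℝ) ^ κ := by
          rw [← Real.rpow_add hM0]
          congr 1
          ring
  · have hfin : C * ((m : ℝ) ^ (-γ) + (m : ℝ) ^ min e₀ (1 / 2) / ((Q * m : ℕ) : ℝ)) /
        η ^ (4 * b) ≤ (m : ℝ) ^ (-(g / 4)) := by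
      have e1 : C * ((m : ℝ) ^ (-γ) + (m : ℝ) ^ min e₀ (1 / 2) / ((Q * m : ℕ) : ℝ)) /
          η ^ (4 * b) = C * ((m : ℝ) ^ (-γ) + (m : ℝ) ^ min e₀ (1 / 2) / ((Q * m : ℕ) : ℝ)) *
            (m : ℝ) ^ (4 * b * γ₀) := by
        rw [← hinv]
        ring
      rw [e1]
      have f1 : (m : ℝ) ^ (-γ) ≤ (m : ℝ) ^ (-g) :=
        Real.rpow_le_rpow_of_exponent_le hMr (by linarith)
      have f2 : (m : ℝ) ^ min e₀ (1 / 2) / ((Q * m : ℕ) : ℝ) ≤ (m : ℝ) ^ (-g) := by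
        calc (m : ℝ) ^ min e₀ (1 / 2) / ((Q * m : ℕ) : ℝ) ≤ (m : ℝ) ^ min e₀ (1 / 2) / m :=
              div_le_div_of_nonneg_left (by positivity) hM0 hQmr
          _ = (m : ℝ) ^ (min e₀ (1 / 2) - 1) := by
              rw [Real.rpow_sub hM0, Real.rpow_one]
          _ ≤ (m : ℝ) ^ (-g) := Real.rpow_le_rpow_of_exponent_le hMr (by
              have := min_le_right e₀ (1 / 2 : ℝ)
              linarith)
      have f3 : (m : ℝ) ^ (4 * b * γ₀) ≤ (m : ℝ) ^ (g / 4) :=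
        Real.rpow_le_rpow_of_exponent_le hMr hγ₀2
      have f4 : 0 < (m : ℝ) ^ (-g) := by positivity
      calc C * ((m : ℝ) ^ (-γ) + (m : ℝ) ^ min e₀ (1 / 2) / ((Q * m : ℕ) : ℝ)) *
            (m : ℝ) ^ (4 * b * γ₀) ≤
            C * ((m : ℝ) ^ (-g) + (m : ℝ) ^ (-g)) * (m : ℝ) ^ (g / 4) := by
            refine mul_le_mul (mul_le_mul_of_nonneg_left (add_le_add f1 f2) (by linarith)) f3
              (by positivity) (by positivity)
        _ = 2 * C * ((m : ℝ) ^ (-g) * (m : ℝ) ^ (g / 4)) := by ring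
        _ ≤ (m : ℝ) ^ (g / 4) * ((m : ℝ) ^ (-g) * (m : ℝ) ^ (g / 4)) :=
            mul_le_mul_of_nonneg_right m1 (by positivity)
        _ = (m : ℝ) ^ (-(g / 2)) := by
            rw [← Real.rpow_add hM0, ← Real.rpow_add hM0]
            congr 1
            ring
        _ ≤ (m : ℝ) ^ (-(g / 4)) := Real.rpow_le_rpow_of_exponent_le hMr (by linarith)
    have hsum : 14 * (c' / 28) + 6 * min c (c' / 12) ≤ c' := by
      have := min_le_right c (c' / 12)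
      linarith
    refine (Pb_mono (glueLaw' H.law H.law fun _ => rfl).nonneg fun w _ h1 h2 => h1 fun q hq =>
      (h2 q hq).trans hfin).trans (hPb.trans hsum)

end Pool.CHN76
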