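import Pool.Agent.H76.CHN.Cnt

/-!
# The geometry of the long chain
-/

set_option autoImplicit false

namespace Pool.CHN76

open Finset Real MvPolynomial
open Pool.Agent.H49.Ent Pool.Agent.H32.Dense Pool.STK Pool.MIC Pool.STB
open Pool.BFL (Pb)

/-- Two chains with the same data, the same end and the same first time. -/
theorem near_of {M K d : ℝ} (hd0 : 0 < d) {X1 X2 X3 : V3} (c1 : Bx 1 X1) (c2 : Bx 1 X2)
    (c3 : Bx 1 X3) (hd : d ≤ |(mt ![X1, X2, X3]).det|) {x0 x4 x4' X0 : V3} {s0 : ℝ}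
    {s1 s2 s3 s1' s2' s3' : ℝ}
    (h : Bx (4 * (K / M)) (x4 - x0 - (s0 • X0 + (s1 • X1 + s2 • X2 + s3 • X3))))
    (h' : Bx (4 * (K / M)) (x4' - x0 - (s0 • X0 + (s1' • X1 + s2' • X2 + s3' • X3))))
    (hx : Bx (1 / M) (x4 - x4')) :
    |s1 - s1'| ≤ 6 * ((8 * K + 1) / M) / d ∧ |s2 - s2'| ≤ 6 * ((8 * K + 1) / M) / d ∧
      |s3 - s3'| ≤ 6 * ((8 * K + 1) / M) / d := by
  have hdet : (mt ![X1, X2, X3]).det ≠ 0 := by
    intro h0
    rw [h0, abs_zero] at hd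
    linarith
  have hX : ∀ a, Bx 1 ((![X1, X2, X3] : Fin 3 → V3) a) := by
    intro a
    fin_cases a
    exacts [c1, c2, c3]
  have hv : Bx ((8 * K + 1) / M)
      (∑ a, (![s1 - s1', s2 - s2', s3 - s3'] : Fin 3 → ℝ) a • (![X1, X2, X3] : Fin 3 → V3) a) := by
    have e : ∑ a, (![s1 - s1', s2 - s2', s3 - s3'] : Fin 3 → ℝ) a •
        (![X1, X2, X3] : Fin 3 → V3) a =
        (x4' - x0 - (s0 • X0 + (s1' • X1 + s2' • X2 + s3' • X3))) -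
          (x4 - x0 - (s0 • X0 + (s1 • X1 + s2 • X2 + s3 • X3))) + (x4 - x4') := by
      rw [Fin.sum_univ_three]
      show (s1 - s1') • X1 + (s2 - s2') • X2 + (s3 - s3') • X3 = _
      rw [sub_smul, sub_smul, sub_smul]
      abel
    rw [e]
    refine Bx.mono (Bx.add (Bx.sub h' h) hx) (le_of_eq ?_)
    ring
  have hs := Pool.STB6.sol_comb ![X1, X2, X3] hdet ![s1 - s1', s2 - s2', s3 - s3']
  have key := fun a => Pool.STB6.sol_le ![X1, X2, X3] hd0 hX hd hv a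
  rw [hs] at key
  exact ⟨key 0, key 1, key 2⟩

/-- The reals with the same floor. -/
theorem floor_near {M a a' : ℝ} (hM : 0 < M) (h : ⌊M * a⌋ = ⌊M * a'⌋) : |a - a'| ≤ 1 / M := by
  have h1 := Int.abs_sub_lt_one_of_floor_eq_floor h
  rw [← mul_sub, abs_mul, abs_of_pos hM] at h1
  rw [le_div_iff₀ hM]
  linarith

theorem cv_near {M : ℕ} (hM : 0 < M) {q q' : V3} (h : cv M q = cv M q') :
    Bx (1 / M) (q - q') := fun i =>
  floor_near (by exact_mod_cast hM) (congrFun h i)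

theorem cv_le {M : ℕ} {q : V3} (hq : Bx 1 q) (i : Fin 3) : |cv M q i| ≤ (M : ℤ) := by
  have h1 := abs_le.1 (hq i)
  have hM : (0 : ℝ) ≤ M := Nat.cast_nonneg M
  unfold cv
  rw [abs_le]
  constructor
  · rw [Int.le_floor]
    push_cast
    nlinarith
  · rw [← Int.cast_le (R := ℝ)]
    refine (Int.floor_le _).trans ?_
    push_cast
    nlinarith

section geo

variable {Ω Λ Z Y E : Type} [Fintype Ω]

/-- The side of the chain: the data of the four lines and the first record. -/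
def dat (D : Λ → E) (L : Ω → Λ) (z : Ω → Z)
    (w : ((((((Ω × Ω) × Ω) × Ω) × Ω) × Ω) × Ω) × Ω) : ((E × E) × (E × E)) × Z :=
  (((D (L w.2), D (L w.1.1.2)), (D (L w.1.1.1.1.2), D (L w.1.1.1.1.1.1.2))),
    z w.1.1.1.1.1.1.1)

/-- The determinant of the side. -/
noncomputable def dS (X : E → V3) (S : ((E × E) × (E × E)) × Z) : ℝ :=
  (mt ![X S.1.2.1, X S.1.1.2, X S.1.1.1]).det

/-- The polynomial of the branch. -/
noncomputable def fS (X : E → V3) (Φ : E → Po) (S : ((E × E) × (E × E)) × Z) : Po :=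
  fb ![X S.1.2.1, X S.1.1.2, X S.1.1.1] ![Φ S.1.2.1, Φ S.1.1.2, Φ S.1.1.1]

/-- The polynomial of the difference. -/
noncomputable def gS (X : E → V3) (Φ : E → Po) (S : ((E × E) × (E × E)) × Z) : Po :=
  Φ S.1.2.2 - fS X Φ S

/-- The times. -/
def tm (t : Ω → ℤ) (k : Fin 4) (w : ((((((Ω × Ω) × Ω) × Ω) × Ω) × Ω) × Ω) × Ω) : ℤ :=
  ![t w.1.1.1.1.1.1.2, t w.1.1.1.1.2, t w.1.1.2, t w.2] k

/-- The vector of the branch. -/
noncomputable def vS (X : E → V3) (S : ((E × E) × (E × E)) × Z) (ζ : Fin 4 → ℝ) : V3 :=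
  (ζ 1 - ζ 0) • X S.1.2.1 + (ζ 2 - ζ 1) • X S.1.1.2 + (ζ 3 - ζ 2) • X S.1.1.1

variable {p : Ω → ℝ} {L : Ω → Λ} {z : Ω → Z} {y : Ω → Y} {t : Ω → ℤ} {D : Λ → E}
  {X : E → V3} {Φ : E → Po} {x : Z → V3} {J : Z → Po} {b M : ℕ} {K e h R η c : ℝ}

/-- The real times. -/
noncomputable def rt (M : ℕ) (t : Ω → ℤ) (w : ((((((Ω × Ω) × Ω) × Ω) × Ω) × Ω) × Ω) × Ω) :
    Fin 4 → ℝ := fun k => ((tm t k w : ℤ) : ℝ) / M

theorem tm_le (H : ChH p L z y t D X Φ x J b M K e h R η c)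
    {w : ((((((Ω × Ω) × Ω) × Ω) × Ω) × Ω) × Ω) × Ω} (hw : 0 < R8 p L z w) (k : Fin 4) :
    |tm t k w| ≤ (M : ℤ) := by
  obtain ⟨⟨g1, g2, g3, g4, g5, g6, g7, g8⟩, -, -⟩ := R8_pos H.law L z hw
  unfold tm
  fin_cases k
  exacts [H.tM _ g2, H.tM _ g4, H.tM _ g6, H.tM _ g8]

theorem div_abs_le {M : ℕ} (hM : 0 < M) {a b' : ℤ} (ha : |a| ≤ (M : ℤ)) (hb : |b'| ≤ (M : ℤ)) :
    |(a : ℝ) / M - (b' : ℝ) / M| ≤ 2 := by
  have hM' : (0 : ℝ) < M := by exact_mod_cast hM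
  have h1 : |((a : ℤ) : ℝ)| ≤ M := by exact_mod_cast ha
  have h2 : |((b' : ℤ) : ℝ)| ≤ M := by exact_mod_cast hb
  rw [← sub_div, abs_div, abs_of_pos hM', div_le_iff₀ hM']
  have := abs_sub (a : ℝ) (b' : ℝ)
  linarith

/-- **Position and value at the end of the long chain.** -/
theorem geo (b : ℕ) (hb : 1 ≤ b) : ∃ A : ℝ, 1 ≤ A ∧ ∀ {Ω Λ Z Y E : Type} [Fintype Ω]
    {p : Ω → ℝ} {L : Ω → Λ} {z : Ω → Z} {y : Ω → Y} {t : Ω → ℤ} {D : Λ → E}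
    {X : E → V3} {Φ : E → Po} {x : Z → V3} {J : Z → Po} {M : ℕ} {K e h R η c : ℝ},
    ChH p L z y t D X Φ x J b M K e h R η c → 1 ≤ K → K ≤ M →
    ∀ w, 0 < R8 p L z w → dS X (dat D L z w) ≠ 0 →
    Bx (4 * (K / M)) (x (z w.2) - x (z w.1.1.1.1.1.1.1) -
      ((rt M t w 0 - (t w.1.1.1.1.1.1.1 : ℝ) / M) • X (dat D L z w).1.2.2 +
        vS X (dat D L z w) (rt M t w))) ∧
    |val x J (z w.2) - (eval (x (z w.2)) (J (z w.1.1.1.1.1.1.1)) +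
      eval (x (z w.2) - x (z w.1.1.1.1.1.1.1)) (Φ (dat D L z w).1.2.2) -
        eval (vS X (dat D L z w) (rt M t w)) (Φ (dat D L z w).1.2.2 - fS X Φ (dat D L z w)))| ≤
      A * (K / M) := by
  obtain ⟨A, hA, hval⟩ := val_form b hb
  refine ⟨A, hA, ?_⟩
  intro Ω Λ Z Y E _ p L z y t D X Φ x J M K e h R η c H hK hKM w hw hdet
  obtain ⟨⟨g1, g2, g3, g4, g5, g6, g7, g8⟩, ⟨l1, l2, l3, l4⟩, z1, z2, z3⟩ := R8_pos H.law L z hw
  have hM1 : (0 : ℝ) < M := by linarith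
  have hM : 0 < M := by exact_mod_cast hM1
  have t1 := H.tz _ _ g2 g3 z1
  have t2 := H.tz _ _ g4 g5 z2
  have t3 := H.tz _ _ g6 g7 z3
  have p0 := H.pos _ _ g1 g2 l1
  have p1 := H.pos _ _ g3 g4 l2
  have p2 := H.pos _ _ g5 g6 l3
  have p3 := H.pos _ _ g7 g8 l4
  have j0 := H.jet _ _ g1 g2 l1
  have j1 := H.jet _ _ g3 g4 l2
  have j2 := H.jet _ _ g5 g6 l3
  have j3 := H.jet _ _ g7 g8 l4
  rw [l1] at p0 j0
  rw [l2, ← z1, ← t1] at p1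
  rw [l2, ← z1] at j1
  rw [l3, ← z2, ← t2] at p2
  rw [l3, ← z2] at j2
  rw [l4, ← z3, ← t3] at p3
  rw [l4, ← z3] at j3
  rw [sub_div] at p0 p1 p2 p3
  have := hval (M := (M : ℝ)) (K := K) hK hKM
    (J0 := J (z w.1.1.1.1.1.1.1)) (J1 := J (z w.1.1.1.1.1.1.2)) (J2 := J (z w.1.1.1.1.2))
    (J3 := J (z w.1.1.2)) (J4 := J (z w.2)) (x0 := x (z w.1.1.1.1.1.1.1))
    (x1 := x (z w.1.1.1.1.1.1.2)) (x2 := x (z w.1.1.1.1.2)) (x3 := x (z w.1.1.2))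
    (x4 := x (z w.2)) (X0 := X (D (L w.1.1.1.1.1.1.2))) (X1 := X (D (L w.1.1.1.1.2)))
    (X2 := X (D (L w.1.1.2))) (X3 := X (D (L w.2))) (Φ0 := Φ (D (L w.1.1.1.1.1.1.2)))
    (Φ1 := Φ (D (L w.1.1.1.1.2))) (Φ2 := Φ (D (L w.1.1.2))) (Φ3 := Φ (D (L w.2)))
    (H.x1 _) (H.x1 _) (H.x1 _) (H.x1 _) (H.x1 _) (H.X1 _) (H.X1 _) (H.X1 _) (H.Φ1 _) (H.Φ1 _)
    (H.Φ1 _) (H.Φ1 _)
    (div_abs_le hM (H.tM _ g4) (H.tM _ g2)) (div_abs_le hM (H.tM _ g6) (H.tM _ g4))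
    (div_abs_le hM (H.tM _ g8) (H.tM _ g6)) hdet p0 p1 p2 p3 j0 j1 j2 j3
  exact this

/-- The later times. -/
theorem pair_near (hb : 1 ≤ b) (H : ChH p L z y t D X Φ x J b M K e h R η c) (hK : 1 ≤ K)
    (hKM : K ≤ M) {d : ℝ} (hd : 0 < d)
    {w w' : ((((((Ω × Ω) × Ω) × Ω) × Ω) × Ω) × Ω) × Ω} (hw : 0 < R8 p L z w)
    (hw' : 0 < R8 p L z w') (hdw : d ≤ |dS X (dat D L z w)|)
    (hdat : dat D L z w = dat D L z w') (hu : cv M (x (z w.2)) = cv M (x (z w'.2)))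
    (h0 : tm t 0 w = tm t 0 w') (k : Fin 3) :
    |((tm t k.succ w - tm t k.succ w' : ℤ) : ℝ)| ≤ 18 * (8 * K + 1) / d := by
  obtain ⟨A, hA, hgeo⟩ := geo b hb
  have hdet : dS X (dat D L z w) ≠ 0 := by
    intro h0
    rw [h0, abs_zero] at hdw
    linarith
  have hM1 : (0 : ℝ) < M := by linarith
  have hM : 0 < M := by exact_mod_cast hM1
  obtain ⟨⟨g1, -⟩, -, -⟩ := R8_pos H.law L z hw
  obtain ⟨⟨g1', -⟩, -, -⟩ := R8_pos H.law L z hw'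
  have a1 := (hgeo H hK hKM w hw hdet).1
  have a2 := (hgeo H hK hKM w' hw' (by rw [← hdat]; exact hdet)).1
  have hz : z w.1.1.1.1.1.1.1 = z w'.1.1.1.1.1.1.1 := (Prod.ext_iff.mp hdat).2
  have ht := H.tz _ _ g1 g1' hz
  have e0 : rt M t w 0 = rt M t w' 0 := by
    unfold rt
    rw [h0]
  rw [← hdat, ← hz, ← ht, ← e0] at a2
  have key := near_of hd (H.X1 _) (H.X1 _) (H.X1 _) hdw a1 a2 (cv_near hM hu)
  obtain ⟨B, hB⟩ : ∃ B, B = 6 * ((8 * K + 1) / M) / d := ⟨_, rfl⟩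
  rw [← hB] at key
  obtain ⟨k1, k2, k3⟩ := key
  have hB0 : 0 ≤ B := (abs_nonneg _).trans k1
  have hBM : 3 * B * M = 18 * (8 * K + 1) / d := by
    rw [hB]
    field_simp
    ring
  have conv : ∀ j : Fin 4, |rt M t w j - rt M t w' j| ≤ 3 * B →
      |((tm t j w - tm t j w' : ℤ) : ℝ)| ≤ 18 * (8 * K + 1) / d := by
    intro j hj
    unfold rt at hj
    rw [← sub_div, abs_div, abs_of_pos hM1, div_le_iff₀ hM1, hBM] at hj
    push_cast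
    exact hj
  have e1 : |rt M t w 1 - rt M t w' 1| ≤ B := by
    have e : rt M t w 1 - rt M t w 0 - (rt M t w' 1 - rt M t w 0) =
      rt M t w 1 - rt M t w' 1 := by ring
    rw [← e0] at k1
    rw [← e]
    exact k1
  have e2 : |rt M t w 2 - rt M t w' 2| ≤ 2 * B := by
    have e : rt M t w 2 - rt M t w' 2 = (rt M t w 2 - rt M t w 1 - (rt M t w' 2 - rt M t w' 1)) +
      (rt M t w 1 - rt M t w' 1) := by ring
    rw [e]
    exact (abs_add_le _ _).trans (by linarith)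
  have e3 : |rt M t w 3 - rt M t w' 3| ≤ 3 * B := by
    have e : rt M t w 3 - rt M t w' 3 = (rt M t w 3 - rt M t w 2 - (rt M t w' 3 - rt M t w' 2)) +
      (rt M t w 2 - rt M t w' 2) := by ring
    rw [e]
    exact (abs_add_le _ _).trans (by linarith)
  fin_cases k
  · exact conv 1 (by linarith)
  · exact conv 2 (by linarith)
  · exact conv 3 e3

/-- The first time. -/
theorem pair_first (b : ℕ) (hb : 1 ≤ b) : ∃ A : ℝ, 1 ≤ A ∧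
    ∀ {Ω Λ Z Y E : Type} [Fintype Ω]
    {p : Ω → ℝ} {L : Ω → Λ} {z : Ω → Z} {y : Ω → Y} {t : Ω → ℤ} {D : Λ → E}
    {X : E → V3} {Φ : E → Po} {x : Z → V3} {J : Z → Po} {M : ℕ} {K e h R η c : ℝ},
    ChH p L z y t D X Φ x J b M K e h R η c → 1 ≤ K → K ≤ M → ∀ {d η' Δ : ℝ}, 0 < d → d ≤ 1 →
    0 < η' → 0 < Δ → Δ ≤ 2 → A * Δ ≤ η' * d ^ b →
    ∀ {w w' : ((((((Ω × Ω) × Ω) × Ω) × Ω) × Ω) × Ω) × Ω}, 0 < R8 p L z w → 0 < R8 p L z w' →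
    d ≤ |dS X (dat D L z w)| → dat D L z w = dat D L z w' →
    cv M (x (z w.2)) = cv M (x (z w'.2)) →
    ⌊(M : ℝ) * val x J (z w.2)⌋ = ⌊(M : ℝ) * val x J (z w'.2)⌋ →
    |rt M t w 0 - rt M t w' 0| ≤ Δ →
    η' ≤ |eval (vS X (dat D L z w) (rt M t w)) (dX (X (dat D L z w).1.2.2)
      (gS X Φ (dat D L z w)))| →
    |((tm t 0 w - tm t 0 w' : ℤ) : ℝ)| ≤ A * K / (η' * d ^ b) := by
  obtain ⟨A, hA, hgeo⟩ := geo b hb
  obtain ⟨B, hB, hpair⟩ := pair_s0 b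
  obtain ⟨G, hG, hfbb⟩ := Pool.STB6.fbb b
  obtain ⟨E₀, hE₀⟩ : ∃ E₀ : ℝ, E₀ = max A G := ⟨_, rfl⟩
  have hEA : A ≤ E₀ := by rw [hE₀]; exact le_max_left _ _
  have hEG : G ≤ E₀ := by rw [hE₀]; exact le_max_right _ _
  have hE1 : 1 ≤ E₀ := hA.trans hEA
  refine ⟨B * E₀, one_le_mul_of_one_le_of_one_le hB hE1, ?_⟩
  intro Ω Λ Z Y E _ p L z y t D X Φ x J M K e h R η c H hK hKM d η' Δ hd hd1 hη' hΔ hΔ2 hcond w w'
    hw hw' hdw hdat hu hN hs hbig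
  have hdet : dS X (dat D L z w) ≠ 0 := by
    intro h0
    rw [h0, abs_zero] at hdw
    linarith
  have hM1 : (0 : ℝ) < M := by linarith
  have hM : 0 < M := by exact_mod_cast hM1
  obtain ⟨⟨g1, -⟩, -, -⟩ := R8_pos H.law L z hw
  obtain ⟨⟨g1', -⟩, -, -⟩ := R8_pos H.law L z hw'
  obtain ⟨a1, v1⟩ := hgeo H hK hKM w hw hdet
  obtain ⟨a2, v2⟩ := hgeo H hK hKM w' hw' (by rw [← hdat]; exact hdet)
  have hz : z w.1.1.1.1.1.1.1 = z w'.1.1.1.1.1.1.1 := (Prod.ext_iff.mp hdat).2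
  have ht := H.tz _ _ g1 g1' hz
  rw [← hdat, ← hz, ← ht] at a2
  rw [← hdat, ← hz] at v2
  have hKM0 : 0 ≤ K / (M : ℝ) := by positivity
  have hX3 : ∀ a, Bx 1 ((![X (dat D L z w).1.2.1, X (dat D L z w).1.1.2, X (dat D L z w).1.1.1] :
      Fin 3 → V3) a) := by
    intro a
    fin_cases a
    exacts [H.X1 _, H.X1 _, H.X1 _]
  have hΦ3 : ∀ a, Hb b 1 ((![Φ (dat D L z w).1.2.1, Φ (dat D L z w).1.1.2,
      Φ (dat D L z w).1.1.1] : Fin 3 → Po) a) := by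
    intro a
    fin_cases a
    exacts [H.Φ1 _, H.Φ1 _, H.Φ1 _]
  have hf := hfbb ![X (dat D L z w).1.2.1, X (dat D L z w).1.1.2, X (dat D L z w).1.1.1]
    ![Φ (dat D L z w).1.2.1, Φ (dat D L z w).1.1.2, Φ (dat D L z w).1.1.1] d hd hd1 hX3 hdw hΦ3
  have hf' : Hb b (E₀ / d ^ b) (fS X Φ (dat D L z w)) :=
    ⟨hf.hom, fun q hq => (hf.bd q hq).trans (div_le_div_of_nonneg_right hEG (pow_pos hd b).le)⟩
  have hv : ∀ w, 0 < R8 p L z w → Bx 6 (vS X (dat D L z w) (rt M t w)) := by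
    intro w hw
    have h1 := tm_le H hw
    have h2 : ∀ j k : Fin 4, |rt M t w j - rt M t w k| ≤ 2 := fun j k =>
      div_abs_le hM (h1 j) (h1 k)
    unfold vS
    exact Bx.mono (Bx.add (Bx.add (Bx.smul (H.X1 _) (h2 _ _)) (Bx.smul (H.X1 _) (h2 _ _)))
      (Bx.smul (H.X1 _) (h2 _ _))) (by norm_num)
  have hv' := hv w' hw'
  rw [← hdat] at hv'
  have e1 : (rt M t w 0 - (t w.1.1.1.1.1.1.1 : ℝ) / M) -
      (rt M t w' 0 - (t w.1.1.1.1.1.1.1 : ℝ) / M) = rt M t w 0 - rt M t w' 0 := by ring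
  have key := hpair (M := (M : ℝ)) (K := K) (d := d) (η := η') (Δ := Δ) (E := E₀) hK hKM hd hd1 hη'
    hΔ hΔ2 hE1 hcond (J0 := J (z w.1.1.1.1.1.1.1)) (x0 := x (z w.1.1.1.1.1.1.1))
    (x4 := x (z w.2)) (x4' := x (z w'.2)) (X0 := X (dat D L z w).1.2.2)
    (v := vS X (dat D L z w) (rt M t w)) (v' := vS X (dat D L z w) (rt M t w'))
    (Φ := Φ (dat D L z w).1.2.2) (f := fS X Φ (dat D L z w))
    (s := rt M t w 0 - (t w.1.1.1.1.1.1.1 : ℝ) / M)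
    (s' := rt M t w' 0 - (t w.1.1.1.1.1.1.1 : ℝ) / M)
    (N := val x J (z w.2)) (N' := val x J (z w'.2))
    (H.J1 _).1 (H.J1 _).2 (H.Φ1 _) hf' (H.x1 _) (H.x1 _) (H.x1 _) (H.X1 _) (hv w hw) hv' a1 a2
    (v1.trans (mul_le_mul_of_nonneg_right hEA hKM0))
    (v2.trans (mul_le_mul_of_nonneg_right hEA hKM0)) (floor_near hM1 hN) (cv_near hM hu)
    (by rw [e1]; exact hs) hbig
  rw [e1] at key
  unfold rt at key
  rw [← sub_div, abs_div, abs_of_pos hM1, div_le_iff₀ hM1] at key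
  have e2 : B * E₀ * K / (↑M * (η' * d ^ b)) * (M : ℝ) = B * E₀ * K / (η' * d ^ b) := by
    have := pow_pos hd b
    field_simp
  rw [e2] at key
  push_cast
  exact key

end geo

end Pool.CHN76
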