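import Pool.Agent.H76.CHN.Law

/-!
# General position of the lines of a branch
-/

set_option autoImplicit false

namespace Pool.CHN76

open Finset Real MvPolynomial
open Pool.Agent.H49.Ent Pool.Agent.H32.Dense Pool.STK Pool.MIC Pool.STB
open Pool.BFL (Pb)

/-- The roles of a gluing may be exchanged. -/
theorem Pb_symm {Ω₁ Ω₂ T : Type} [Fintype Ω₁] [Fintype Ω₂] {q₁ : Ω₁ → ℝ} {q₂ : Ω₂ → ℝ}
    {Z₁ : Ω₁ → T} {Z₂ : Ω₂ → T} (hZ : ∀ z, law q₁ Z₁ z = law q₂ Z₂ z) (B : Ω₁ → Ω₂ → Prop) :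
    Pb (glue q₁ q₂ Z₁ Z₂) (fun w => B w.1 w.2) = Pb (glue q₂ q₁ Z₂ Z₁) (fun w => B w.2 w.1) := by
  classical
  unfold Pb
  rw [Fintype.sum_prod_type, Fintype.sum_prod_type, Finset.sum_comm]
  refine Finset.sum_congr rfl fun b _ => Finset.sum_congr rfl fun a _ => ?_
  rw [Pool.CHN.glue_symm hZ]

/-- General position for a covector which depends on the past. -/
theorem gp_step {Ω Λ Z E W : Type} [Fintype Ω] [Fintype W] {p : Ω → ℝ} {q : W → ℝ}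
    (hp : IsLaw p) (hq : IsLaw q) {L : Ω → Λ} {z : Ω → Z} {D : Λ → E} {X : E → V3} {η c : ℝ}
    (gp : ∀ H : Z → V3, (∀ r, Bx 1 (H r) ∧ ∃ i, |H r i| = 1) →
      Pb p (fun ω => |∑ i, H (z ω) i * X (D (L ω)) i| ≤ η) ≤ c)
    (zq : W → Z) (hz : ∀ u, law q zq u = law p z u) (H : W → V3)
    (hH : ∀ w, Bx 1 (H w) ∧ ∃ i, |H w i| = 1) :
    Pb (glue q p zq z) (fun w => |∑ i, H w.1 i * X (D (L w.2)) i| ≤ η) ≤ c := by
  rw [Pb_symm hz (fun w ω => |∑ i, H w i * X (D (L ω)) i| ≤ η)]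
  exact avg_all hp hq z zq (fun r => (hz r).symm)
    (fun ω w => |∑ i, H w i * X (D (L ω)) i| ≤ η)
    (fun β => gp (fun r => H (β r)) (fun r => hH _))

/-- The normalized covector. -/
theorem exists_nrm : ∃ (N : V3 → V3) (m : V3 → ℝ), (∀ C, Bx 1 (N C) ∧ ∃ i, |N C i| = 1) ∧
    ∀ C, 0 ≤ m C ∧ (∀ j, |C j| ≤ m C) ∧ C = m C • N C := by
  have h : ∀ C : V3, ∃ (N : V3) (m : ℝ), (Bx 1 N ∧ ∃ i, |N i| = 1) ∧ 0 ≤ m ∧
      (∀ j, |C j| ≤ m) ∧ C = m • N := by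
    intro C
    obtain ⟨i, hi⟩ := Finite.exists_max (fun i => |C i|)
    by_cases h0 : C i = 0
    · refine ⟨fun _ => 1, 0, ⟨fun _ => by simp, 0, by simp⟩, le_rfl, fun j => ?_, ?_⟩
      · have := hi j
        rw [h0, abs_zero] at this
        exact this
      · funext j
        have := hi j
        rw [h0, abs_zero] at this
        have h1 : |C j| = 0 := le_antisymm this (abs_nonneg _)
        rw [zero_smul]
        exact abs_eq_zero.1 h1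
    · have hpos : 0 < |C i| := abs_pos.2 h0
      refine ⟨(|C i|)⁻¹ • C, |C i|, ⟨fun j => ?_, i, ?_⟩, hpos.le, hi, ?_⟩
      · rw [Pi.smul_apply, smul_eq_mul, abs_mul, abs_inv, abs_abs, inv_mul_le_iff₀ hpos, mul_one]
        exact hi j
      · rw [Pi.smul_apply, smul_eq_mul, abs_mul, abs_inv, abs_abs, inv_mul_cancel₀ hpos.ne']
      · rw [smul_smul, mul_inv_cancel₀ hpos.ne', one_smul]
  choose N m h1 using h
  exact ⟨N, m, fun C => (h1 C).1, fun C => (h1 C).2⟩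

theorem dot_nrm {N : V3 → V3} {m : V3 → ℝ} (h : ∀ C, 0 ≤ m C ∧ (∀ j, |C j| ≤ m C) ∧ C = m C • N C)
    (C v : V3) (j : Fin 3) {κ η : ℝ} (hκ : 0 ≤ κ) (hη : 0 ≤ η) (hj : κ < |C j|)
    (hv : η < |∑ i, N C i * v i|) : κ * η < |∑ i, C i * v i| := by
  obtain ⟨h0, h1, h2⟩ := h C
  have e : ∑ i, C i * v i = m C * ∑ i, N C i * v i := by
    rw [Finset.mul_sum]
    refine Finset.sum_congr rfl fun i _ => ?_
    have := congrFun h2 i
    rw [Pi.smul_apply, smul_eq_mul] at this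
    rw [← mul_assoc, ← this]
  rw [e, abs_mul, abs_of_nonneg h0]
  exact mul_lt_mul'' (lt_of_lt_of_le hj (h1 j)) hv hκ hη

/-- **The determinant of a branch.** -/
theorem gp_det {Ω Λ Z E : Type} [Fintype Ω] {p : Ω → ℝ} (hp : IsLaw p) {L : Ω → Λ} {z : Ω → Z}
    {D : Λ → E} {X : E → V3} {η c : ℝ} (hη : 0 ≤ η)
    (gp : ∀ H : Z → V3, (∀ r, Bx 1 (H r) ∧ ∃ i, |H r i| = 1) →
      Pb p (fun ω => |∑ i, H (z ω) i * X (D (L ω)) i| ≤ η) ≤ c) :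
    Pb (Q6 p L z) (fun w => ¬ η ^ 3 <
      |(mt ![X (D (L w.1.1.1.1.2)), X (D (L w.1.1.2)), X (D (L w.2))]).det|) ≤ 3 * c := by
  obtain ⟨N, m, hN, hm⟩ := exists_nrm
  rw [← Marg.Pb_eq (R7_Q6 hp L z)]
  obtain ⟨c1, hc1⟩ : ∃ c1 : V3 → V3, c1 = fun v => ![v 1, - v 0, 0] := ⟨_, rfl⟩
  obtain ⟨c2, hc2⟩ : ∃ c2 : V3 → V3 → V3, c2 = fun v u =>
    ![v 1 * u 2 - v 2 * u 1, v 2 * u 0 - v 0 * u 2, v 0 * u 1 - v 1 * u 0] := ⟨_, rfl⟩
  -- the three bad events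
  have m1 : Marg (R7 p L z) p (fun w => w.1.1.1.1.2) :=
    (R7_fst hp L z).comp ((R5_f hp L z).comp ((R4_f hp L z).comp (R3_s hp L z)))
  have b1 : Pb (R7 p L z) (fun w => |X (D (L w.1.1.1.1.2)) 0| ≤ η) ≤ c := by
    rw [Marg.Pb_eq m1 (fun ω => |X (D (L ω)) 0| ≤ η)]
    have h := gp (fun _ => ![1, 0, 0]) (fun _ => ⟨fun i => by fin_cases i <;> simp, 0, by simp⟩)
    refine le_trans (le_of_eq ?_) h
    congr 1
    funext ω
    rw [Fin.sum_univ_three]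
    simp
  have b2 : Pb (R7 p L z) (fun w => |∑ i, N (c1 (X (D (L w.1.1.1.1.2)))) i *
      X (D (L w.1.1.2)) i| ≤ η) ≤ c := by
    rw [Marg.Pb_eq (R7_fst hp L z) (fun w => |∑ i, N (c1 (X (D (L w.1.1.2)))) i *
      X (D (L w.2)) i| ≤ η)]
    exact gp_step hp (R4_law hp L z) gp (fun w => z w.2) (R5_z hp L z)
      (fun w => N (c1 (X (D (L w.1.2))))) (fun w => hN _)
  have b3 : Pb (R7 p L z) (fun w => |∑ i, N (c2 (X (D (L w.1.1.1.1.2))) (X (D (L w.1.1.2)))) i *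
      X (D (L w.2)) i| ≤ η) ≤ c :=
    gp_step hp (R6_law hp L z) gp (fun w => z w.2) (R7_z hp L z)
      (fun w => N (c2 (X (D (L w.1.1.1.2))) (X (D (L w.1.2))))) (fun w => hN _)
  have h7 := (R7_law hp L z).nonneg
  have b23 := Pb_or h7 (fun w => |∑ i, N (c1 (X (D (L w.1.1.1.1.2)))) i *
      X (D (L w.1.1.2)) i| ≤ η) (fun w => |∑ i, N (c2 (X (D (L w.1.1.1.1.2)))
      (X (D (L w.1.1.2)))) i * X (D (L w.2)) i| ≤ η)
  have hfin := Pb_le2 h7 (A := fun w => ¬ η ^ 3 <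
      |(mt ![X (D (L w.1.1.1.1.2)), X (D (L w.1.1.2)), X (D (L w.2))]).det|)
      (B := fun w => |X (D (L w.1.1.1.1.2)) 0| ≤ η)
      (C := fun w => |∑ i, N (c1 (X (D (L w.1.1.1.1.2)))) i * X (D (L w.1.1.2)) i| ≤ η ∨
        |∑ i, N (c2 (X (D (L w.1.1.1.1.2))) (X (D (L w.1.1.2)))) i * X (D (L w.2)) i| ≤ η) (by
    intro w _ g1 g2
    push Not at g1 g2 ⊢
    obtain ⟨g2, g3⟩ := g2
    obtain ⟨v1, hv1⟩ : ∃ v, v = X (D (L w.1.1.1.1.2)) := ⟨_, rfl⟩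
    obtain ⟨v2, hv2⟩ : ∃ v, v = X (D (L w.1.1.2)) := ⟨_, rfl⟩
    obtain ⟨v3, hv3⟩ : ∃ v, v = X (D (L w.2)) := ⟨_, rfl⟩
    rw [← hv1] at g1 g2 g3 ⊢
    rw [← hv2] at g2 g3 ⊢
    rw [← hv3] at g3 ⊢
    have k1 := dot_nrm hm (c1 v1) v2 1 hη hη (by
      rw [hc1]
      show η < |(![v1 1, - v1 0, 0] : V3) 1|
      rw [show (![v1 1, - v1 0, 0] : V3) 1 = - v1 0 from rfl, abs_neg]
      exact g1) g2
    have k2 : η * η < |c2 v1 v2 2| := by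
      have e : c2 v1 v2 2 = - ∑ i, c1 v1 i * v2 i := by
        rw [hc1, hc2, Fin.sum_univ_three]
        simp
        ring
      rw [e, abs_neg]
      exact k1
    have k3 := dot_nrm hm (c2 v1 v2) v3 2 (mul_nonneg hη hη) hη k2 g3
    have e : (mt ![v1, v2, v3]).det = ∑ i, c2 v1 v2 i * v3 i := by
      rw [hc2, Fin.sum_univ_three, Matrix.det_fin_three]
      simp [Pool.STB.mt]
      ring
    rw [e]
    calc η ^ 3 = η * η * η := by ring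
      _ < _ := k3)
  exact hfin.trans (by linarith)

end Pool.CHN76
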