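import Pool.Agent.H98.STB.Chn
import Pool.Agent.H64.CHN.Law

/-!
# The long chain: entropies and general position
-/

set_option autoImplicit false

namespace Pool.CHN76

open Finset Real MvPolynomial
open Pool.Agent.H49.Ent Pool.Agent.H32.Dense Pool.STK Pool.MIC Pool.STB
open Pool.BFL (Pb)

section step

variable {Ω Λ Z Y E W S T : Type} [Fintype Ω] [Fintype W] {p : Ω → ℝ} {q : W → ℝ} {L : Ω → Λ}
  {z : Ω → Z} {y : Ω → Y} {a : W → Ω}

/-- **One step from below.** -/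
theorem step_low (hp : IsLaw p) (hq : IsLaw q) (hm : Marg q p a) (t : Ω → ℤ)
    (htz : Det p z t) (D : Λ → E) (U : W → S) (V : W → T) :
    CH q U V + CH p (fun ω => D (L ω)) z + CH p t L ≤
      CH (glue (glue q p (fun w => z (a w)) z) p (fun w => L w.2) L)
        (fun w => ((t w.2, D (L w.2)), U w.1.1)) (fun w => V w.1.1) := by
  have hz1 : ∀ u, law q (fun w => z (a w)) u = law p z u := fun u => hm.law z u
  have h1 : IsLaw (glue q p (fun w => z (a w)) z) := glueLaw' hq hp hz1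
  have m1f : Marg (glue q p (fun w => z (a w)) z) q (fun w => w.1) := marg_fst hq.nonneg hz1
  have m1s : Marg (glue q p (fun w => z (a w)) z) p (fun w => w.2) := marg_snd hp.nonneg hz1
  have hz2 : ∀ u, law (glue q p (fun w => z (a w)) z) (fun w => L w.2) u = law p L u :=
    fun u => m1s.law L u
  have h2 : IsLaw (glue (glue q p (fun w => z (a w)) z) p (fun w => L w.2) L) :=
    glueLaw' h1 hp hz2
  have m2f : Marg (glue (glue q p (fun w => z (a w)) z) p (fun w => L w.2) L)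
    (glue q p (fun w => z (a w)) z) (fun w => w.1) := marg_fst h1.nonneg hz2
  obtain ⟨r, hr⟩ : ∃ r, r = glue (glue q p (fun w => z (a w)) z) p (fun w => L w.2) L := ⟨_, rfl⟩
  rw [← hr] at h2 m2f ⊢
  -- the pair of the time and of the datum given the past
  have c1 := CH_chain h2.nonneg (fun w => (t w.2, D (L w.2))) (fun w => U w.1.1)
    (fun w => V w.1.1)
  have c2 := CH_chain h2.nonneg (fun w => t w.2) (fun w => D (L w.2))
    (fun w => (U w.1.1, V w.1.1))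
  have e1 : CH r (fun w => U w.1.1) (fun w => V w.1.1) = CH q U V := (m2f.comp m1f).CH U V
  have e2 : CH p t L ≤ CH r (fun w => t w.2) (fun w => (D (L w.2), (U w.1.1, V w.1.1))) := by
    rw [← CH_glue_snd (Z₁ := fun w : W × Ω => L w.2) (Z₂ := L) h1.nonneg hp.nonneg hz2 t
      (Y := L) (fun w : W × Ω => (U w.1, V w.1)) (fun _ _ _ _ h => h), ← hr]
    refine CH_mono_cond h2.nonneg fun w w' _ _ h => ?_
    simp only [Prod.mk.injEq] at h ⊢
    exact ⟨congrArg D h.1, h.2⟩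
  have e3 : CH p (fun ω => D (L ω)) z ≤
      CH r (fun w => D (L w.2)) (fun w => (U w.1.1, V w.1.1)) := by
    have hpos : ∀ w, 0 < r w → L w.1.2 = L w.2 := fun w hw => by
      rw [hr] at hw
      exact ((glue_pos_iff h1.nonneg hp.nonneg w).mp hw).2.2
    have k1 : CH r (fun w => D (L w.2)) (fun w => (U w.1.1, V w.1.1)) =
        CH r (fun w => D (L w.1.2)) (fun w => (U w.1.1, V w.1.1)) := by
      refine CH_congr h2.nonneg ?_ ?_ (fun _ _ _ _ h => h) (fun _ _ _ _ h => h)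
      · intro w w' hw hw' h
        have := (Prod.ext_iff.mp h).1
        show D (L w.1.2) = D (L w'.1.2)
        rw [hpos w hw, hpos w' hw']
        exact this
      · intro w w' hw hw' h
        have := (Prod.ext_iff.mp h).1
        show D (L w.2) = D (L w'.2)
        rw [← hpos w hw, ← hpos w' hw']
        exact this
    have k2 : CH r (fun w => D (L w.1.2)) (fun w => (U w.1.1, V w.1.1)) =
        CH (glue q p (fun w => z (a w)) z) (fun w => D (L w.2)) (fun w => (U w.1, V w.1)) :=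
      m2f.CH (fun w : W × Ω => D (L w.2)) (fun w : W × Ω => (U w.1, V w.1))
    rw [k1, k2, ← CH_glue_snd (Z₁ := fun w : W => z (a w)) (Z₂ := z) hq.nonneg hp.nonneg hz1
      (fun ω => D (L ω)) (Y := z) (fun w : W => (U w, V w)) (fun _ _ _ _ h => h)]
    refine CH_mono_cond h1.nonneg fun w w' _ _ h => ?_
    simp only [Prod.mk.injEq] at h ⊢
    exact h.2
  linarith

/-- **One step from above.** -/
theorem step_up (hp : IsLaw p) (hq : IsLaw q) (hm : Marg q p a) (D : Λ → E) (U : W → S)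
    (V : W → T)
    (hV : ∀ w w', 0 < q w → 0 < q w' → V w = V w' → y (a w) = y (a w'))
    (hyL : ∀ ω ω', 0 < p ω → 0 < p ω' → L ω = L ω' → y ω = y ω')
    (hyz : ∀ ω ω', 0 < p ω → 0 < p ω' → z ω = z ω' → y ω = y ω') :
    CH (glue (glue q p (fun w => z (a w)) z) p (fun w => L w.2) L)
        (fun w => (D (L w.2), U w.1.1)) (fun w => V w.1.1) ≤
      CH q U V + CH p (fun ω => D (L ω)) y ∧
    ∀ w w', 0 < glue (glue q p (fun w => z (a w)) z) p (fun w => L w.2) L w →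
      0 < glue (glue q p (fun w => z (a w)) z) p (fun w => L w.2) L w' →
      V w.1.1 = V w'.1.1 → y w.2 = y w'.2 := by
  have hz1 : ∀ u, law q (fun w => z (a w)) u = law p z u := fun u => hm.law z u
  have h1 : IsLaw (glue q p (fun w => z (a w)) z) := glueLaw' hq hp hz1
  have m1f : Marg (glue q p (fun w => z (a w)) z) q (fun w => w.1) := marg_fst hq.nonneg hz1
  have m1s : Marg (glue q p (fun w => z (a w)) z) p (fun w => w.2) := marg_snd hp.nonneg hz1
  have hz2 : ∀ u, law (glue q p (fun w => z (a w)) z) (fun w => L w.2) u = law p L u :=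
    fun u => m1s.law L u
  have h2 : IsLaw (glue (glue q p (fun w => z (a w)) z) p (fun w => L w.2) L) :=
    glueLaw' h1 hp hz2
  have m2f : Marg (glue (glue q p (fun w => z (a w)) z) p (fun w => L w.2) L)
    (glue q p (fun w => z (a w)) z) (fun w => w.1) := marg_fst h1.nonneg hz2
  have m2s : Marg (glue (glue q p (fun w => z (a w)) z) p (fun w => L w.2) L) p
    (fun w => w.2) := marg_snd hp.nonneg hz2
  have hy : ∀ w w', 0 < glue (glue q p (fun w => z (a w)) z) p (fun w => L w.2) L w →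
      0 < glue (glue q p (fun w => z (a w)) z) p (fun w => L w.2) L w' →
      V w.1.1 = V w'.1.1 → y w.2 = y w'.2 := by
    have hone : ∀ w, 0 < glue (glue q p (fun w => z (a w)) z) p (fun w => L w.2) L w →
        0 < q w.1.1 ∧ y w.2 = y (a w.1.1) := by
      intro w hw
      obtain ⟨g1, g2, g3⟩ := (glue_pos_iff h1.nonneg hp.nonneg w).mp hw
      obtain ⟨f1, f2, f3⟩ := (glue_pos_iff hq.nonneg hp.nonneg w.1).mp g1
      refine ⟨f1, ?_⟩
      rw [← hyL _ _ f2 g2 g3]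
      have f4 : 0 < p (a w.1.1) := hm.pos hq.nonneg f1
      exact (hyz _ _ f4 f2 f3).symm
    intro w w' hw hw' h
    obtain ⟨f1, f2⟩ := hone w hw
    obtain ⟨g1, g2⟩ := hone w' hw'
    rw [f2, g2]
    exact hV _ _ f1 g1 h
  refine ⟨?_, hy⟩
  obtain ⟨r, hr⟩ : ∃ r, r = glue (glue q p (fun w => z (a w)) z) p (fun w => L w.2) L := ⟨_, rfl⟩
  rw [← hr] at h2 m2f m2s hy ⊢
  have c1 := CH_subadd h2.nonneg (fun w => D (L w.2)) (fun w => U w.1.1) (fun w => V w.1.1)
  have e1 : CH r (fun w => U w.1.1) (fun w => V w.1.1) = CH q U V := (m2f.comp m1f).CH U V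
  have e2 : CH r (fun w => D (L w.2)) (fun w => V w.1.1) ≤
      CH r (fun w => D (L w.2)) (fun w => y w.2) :=
    CH_mono_cond h2.nonneg fun w w' hw hw' h => hy w w' hw hw' h
  have e3 : CH r (fun w => D (L w.2)) (fun w => y w.2) = CH p (fun ω => D (L ω)) y :=
    m2s.CH (fun ω => D (L ω)) y
  linarith

end step

section chain

variable {Ω Λ Z Y E : Type} [Fintype Ω] {p : Ω → ℝ}

/-- The law of `a0 - L - b0 - z - a1 - L - b1 - z - a2 - L - b2 - z - a3 - L - b3`. -/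
noncomputable def R8 (p : Ω → ℝ) (L : Ω → Λ) (z : Ω → Z) :
    ((((((Ω × Ω) × Ω) × Ω) × Ω) × Ω) × Ω) × Ω → ℝ :=
  glue (R7 p L z) p (fun w => L w.2) L

variable (hp : IsLaw p) (L : Ω → Λ) (z : Ω → Z)

include hp

theorem R8_z (u : Λ) : law (R7 p L z) (fun w => L w.2) u = law p L u := (R7_s hp L z).law L u

theorem R8_law : IsLaw (R8 p L z) := glueLaw' (R7_law hp L z) hp (R8_z hp L z)

theorem R8_s : Marg (R8 p L z) p (fun w => w.2) := marg_snd hp.nonneg (R8_z hp L z)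

theorem R8_f : Marg (R8 p L z) (R7 p L z) (fun w => w.1) :=
  marg_fst (R7_law hp L z).nonneg (R8_z hp L z)

/-- The star is a part of the long chain. -/
theorem R8_Q6 : Marg (R8 p L z) (Q6 p L z)
    (fun w => (((((w.1.1.1.1.1.1.2, w.1.1.1.1.1.2), w.1.1.1.1.2), w.1.1.1.2), w.1.1.2),
      w.1.2)) :=
  (R8_f hp L z).comp (R7_Q6 hp L z)

/-- Support of the long chain. -/
theorem R8_pos {w : ((((((Ω × Ω) × Ω) × Ω) × Ω) × Ω) × Ω) × Ω} (h : 0 < R8 p L z w) :
    (0 < p w.1.1.1.1.1.1.1 ∧ 0 < p w.1.1.1.1.1.1.2 ∧ 0 < p w.1.1.1.1.1.2 ∧ 0 < p w.1.1.1.1.2 ∧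
      0 < p w.1.1.1.2 ∧ 0 < p w.1.1.2 ∧ 0 < p w.1.2 ∧ 0 < p w.2) ∧
    (L w.1.1.1.1.1.1.1 = L w.1.1.1.1.1.1.2 ∧ L w.1.1.1.1.1.2 = L w.1.1.1.1.2 ∧
      L w.1.1.1.2 = L w.1.1.2 ∧ L w.1.2 = L w.2) ∧
    (z w.1.1.1.1.1.1.2 = z w.1.1.1.1.1.2 ∧ z w.1.1.1.1.2 = z w.1.1.1.2 ∧
      z w.1.1.2 = z w.1.2) := by
  obtain ⟨h7, k7, l7⟩ := (glue_pos_iff (R7_law hp L z).nonneg hp.nonneg w).mp h
  obtain ⟨h6, k6, l6⟩ := (glue_pos_iff (R6_law hp L z).nonneg hp.nonneg w.1).mp h7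
  obtain ⟨h5, k5, l5⟩ := (glue_pos_iff (R5_law hp L z).nonneg hp.nonneg w.1.1).mp h6
  obtain ⟨h4, k4, l4⟩ := (glue_pos_iff (R4_law hp L z).nonneg hp.nonneg w.1.1.1).mp h5
  obtain ⟨h3, k3, l3⟩ := (glue_pos_iff (R3_law hp L z).nonneg hp.nonneg w.1.1.1.1).mp h4
  obtain ⟨h2, k2, l2⟩ := (glue_pos_iff (R2_law hp L).nonneg hp.nonneg w.1.1.1.1.1).mp h3
  obtain ⟨h1, k1, l1⟩ := (glue_pos_iff hp.nonneg hp.nonneg w.1.1.1.1.1.1).mp h2
  exact ⟨⟨h1, k1, k2, k3, k4, k5, k6, k7⟩, ⟨l1, l3, l5, l7⟩, l2, l4, l6⟩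

/-- **The times of the long chain are full given the data of the lines and the first record.** -/
theorem R8_full {e F : ℝ} (y : Ω → Y) (t : Ω → ℤ) (D : Λ → E)
    (hyL : ∀ ω ω', 0 < p ω → 0 < p ω' → L ω = L ω' → y ω = y ω')
    (hyz : ∀ ω ω', 0 < p ω → 0 < p ω' → z ω = z ω' → y ω = y ω')
    (htz : Det p z t) (hfull : F - e ≤ CH p t L)
    (hfree : CH p (fun ω => D (L ω)) y - e ≤ CH p (fun ω => D (L ω)) z) :
    4 * F - 8 * e ≤ CH (R8 p L z)
      (fun w => ((t w.2, t w.1.1.2), (t w.1.1.1.1.2, t w.1.1.1.1.1.1.2)))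
      (fun w => (((D (L w.2), D (L w.1.1.2)), (D (L w.1.1.1.1.2), D (L w.1.1.1.1.1.1.2))),
        z w.1.1.1.1.1.1.1)) := by
  have hr := R8_law hp L z
  -- the first line
  have a2 : CH p (fun ω => D (L ω)) z + CH p t L ≤ CH (R2 p L)
      (fun w => (t w.2, D (L w.2))) (fun w => z w.1) := by
    have h2 := R2_law hp L
    have c1 := CH_chain h2.nonneg (fun w => t w.2) (fun w => D (L w.2)) (fun w : Ω × Ω => z w.1)
    have e2 : CH p t L ≤ CH (R2 p L) (fun w => t w.2) (fun w => (D (L w.2), z w.1)) := by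
      rw [← CH_glue_snd (Z₁ := L) (Z₂ := L) hp.nonneg hp.nonneg (fun _ => rfl) t (Y := L)
        (fun ω => z ω) (fun _ _ _ _ h => h)]
      refine CH_mono_cond h2.nonneg fun w w' _ _ h => ?_
      simp only [Prod.mk.injEq] at h ⊢
      exact ⟨congrArg D h.1, h.2⟩
    have hpos : ∀ w, 0 < R2 p L w → L w.1 = L w.2 := fun w hw =>
      ((glue_pos_iff hp.nonneg hp.nonneg w).mp hw).2.2
    have e3 : CH p (fun ω => D (L ω)) z = CH (R2 p L) (fun w => D (L w.2)) (fun w => z w.1) := by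
      rw [← (R2_f hp L).CH (fun ω => D (L ω)) z]
      refine CH_congr h2.nonneg ?_ ?_ (fun _ _ _ _ h => h) (fun _ _ _ _ h => h)
      · intro w w' hw hw' h
        have := (Prod.ext_iff.mp h).1
        show D (L w.2) = D (L w'.2)
        rw [← hpos w hw, ← hpos w' hw']
        exact this
      · intro w w' hw hw' h
        have := (Prod.ext_iff.mp h).1
        show D (L w.1) = D (L w'.1)
        rw [hpos w hw, hpos w' hw']
        exact this
    rw [c1, ← e3]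
    linarith
  have u2 : CH (R2 p L) (fun w => D (L w.2)) (fun w => z w.1) ≤ CH p (fun ω => D (L ω)) y ∧
      ∀ w w', 0 < R2 p L w → 0 < R2 p L w' → z w.1 = z w'.1 → y w.2 = y w'.2 := by
    have hy : ∀ w w', 0 < R2 p L w → 0 < R2 p L w' → z w.1 = z w'.1 → y w.2 = y w'.2 := by
      intro w w' hw hw' h
      obtain ⟨g1, g2, g3⟩ := (glue_pos_iff hp.nonneg hp.nonneg w).mp hw
      obtain ⟨f1, f2, f3⟩ := (glue_pos_iff hp.nonneg hp.nonneg w').mp hw'
      rw [← hyL _ _ g1 g2 g3, ← hyL _ _ f1 f2 f3]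
      exact hyz _ _ g1 f1 h
    refine ⟨?_, hy⟩
    have e2 : CH (R2 p L) (fun w => D (L w.2)) (fun w => z w.1) ≤
        CH (R2 p L) (fun w => D (L w.2)) (fun w => y w.2) :=
      CH_mono_cond (R2_law hp L).nonneg fun w w' hw hw' h => hy w w' hw hw' h
    exact e2.trans (le_of_eq ((R2_s hp L).CH (fun ω => D (L ω)) y))
  have a4 := step_low hp (R2_law hp L) (R2_s hp L) (L := L) (z := z) t htz D
    (fun w => (t w.2, D (L w.2))) (fun w => z w.1)
  have a6 := step_low hp (R4_law hp L z) (R4_s hp L z) (L := L) (z := z) t htz D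
    (fun w => ((t w.2, D (L w.2)), (t w.1.1.2, D (L w.1.1.2)))) (fun w => z w.1.1.1)
  have a8 := step_low hp (R6_law hp L z) (R6_s hp L z) (L := L) (z := z) t htz D
    (fun w => ((t w.2, D (L w.2)), ((t w.1.1.2, D (L w.1.1.2)),
      (t w.1.1.1.1.2, D (L w.1.1.1.1.2))))) (fun w => z w.1.1.1.1.1)
  have u4 := step_up hp (R2_law hp L) (R2_s hp L) (L := L) (z := z) (y := y) D
    (fun w => D (L w.2)) (fun w => z w.1) u2.2 hyL hyz
  have u6 := step_up hp (R4_law hp L z) (R4_s hp L z) (L := L) (z := z) (y := y) D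
    (fun w => (D (L w.2), D (L w.1.1.2))) (fun w => z w.1.1.1) u4.2 hyL hyz
  have u8 := step_up hp (R6_law hp L z) (R6_s hp L z) (L := L) (z := z) (y := y) D
    (fun w => (D (L w.2), (D (L w.1.1.2), D (L w.1.1.1.1.2)))) (fun w => z w.1.1.1.1.1)
    u6.2 hyL hyz
  have hsplit := CH_chain hr.nonneg
    (fun w => ((t w.2, t w.1.1.2), (t w.1.1.1.1.2, t w.1.1.1.1.1.1.2)))
    (fun w => ((D (L w.2), D (L w.1.1.2)), (D (L w.1.1.1.1.2), D (L w.1.1.1.1.1.1.2))))
    (fun w => z w.1.1.1.1.1.1.1)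
  have b1 : CH (R8 p L z) (fun w => ((t w.2, D (L w.2)), ((t w.1.1.2, D (L w.1.1.2)),
      ((t w.1.1.1.1.2, D (L w.1.1.1.1.2)), (t w.1.1.1.1.1.1.2, D (L w.1.1.1.1.1.1.2))))))
      (fun w => z w.1.1.1.1.1.1.1) =
      CH (R8 p L z) (fun w => (((t w.2, t w.1.1.2), (t w.1.1.1.1.2, t w.1.1.1.1.1.1.2)),
        ((D (L w.2), D (L w.1.1.2)), (D (L w.1.1.1.1.2), D (L w.1.1.1.1.1.1.2)))))
      (fun w => z w.1.1.1.1.1.1.1) := by
    refine CH_congr hr.nonneg ?_ ?_ (fun _ _ _ _ h => h) (fun _ _ _ _ h => h)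
    · intro w w' _ _ h
      simp only [Prod.mk.injEq] at h ⊢
      tauto
    · intro w w' _ _ h
      simp only [Prod.mk.injEq] at h ⊢
      tauto
  have b2 : CH (R8 p L z) (fun w => (D (L w.2), (D (L w.1.1.2),
      (D (L w.1.1.1.1.2), D (L w.1.1.1.1.1.1.2))))) (fun w => z w.1.1.1.1.1.1.1) =
      CH (R8 p L z) (fun w => ((D (L w.2), D (L w.1.1.2)), (D (L w.1.1.1.1.2),
        D (L w.1.1.1.1.1.1.2)))) (fun w => z w.1.1.1.1.1.1.1) := by
    refine CH_congr hr.nonneg ?_ ?_ (fun _ _ _ _ h => h) (fun _ _ _ _ h => h)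
    · intro w w' _ _ h
      simp only [Prod.mk.injEq] at h ⊢
      tauto
    · intro w w' _ _ h
      simp only [Prod.mk.injEq] at h ⊢
      tauto
  have a4' : CH (R2 p L) (fun w => (t w.2, D (L w.2))) (fun w => z w.1) +
      CH p (fun ω => D (L ω)) z + CH p t L ≤ CH (R4 p L z)
        (fun w => ((t w.2, D (L w.2)), (t w.1.1.2, D (L w.1.1.2)))) (fun w => z w.1.1.1) := a4
  have a6' : CH (R4 p L z)
        (fun w => ((t w.2, D (L w.2)), (t w.1.1.2, D (L w.1.1.2)))) (fun w => z w.1.1.1) +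
      CH p (fun ω => D (L ω)) z + CH p t L ≤ CH (R6 p L z)
        (fun w => ((t w.2, D (L w.2)), ((t w.1.1.2, D (L w.1.1.2)),
          (t w.1.1.1.1.2, D (L w.1.1.1.1.2))))) (fun w => z w.1.1.1.1.1) := a6
  have a8' : CH (R6 p L z)
        (fun w => ((t w.2, D (L w.2)), ((t w.1.1.2, D (L w.1.1.2)),
          (t w.1.1.1.1.2, D (L w.1.1.1.1.2))))) (fun w => z w.1.1.1.1.1) +
      CH p (fun ω => D (L ω)) z + CH p t L ≤
      CH (R8 p L z) (fun w => ((t w.2, D (L w.2)), ((t w.1.1.2, D (L w.1.1.2)),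
      ((t w.1.1.1.1.2, D (L w.1.1.1.1.2)), (t w.1.1.1.1.1.1.2, D (L w.1.1.1.1.1.1.2))))))
      (fun w => z w.1.1.1.1.1.1.1) := a8
  have u4' : CH (R4 p L z) (fun w => (D (L w.2), D (L w.1.1.2))) (fun w => z w.1.1.1) ≤
      CH (R2 p L) (fun w => D (L w.2)) (fun w => z w.1) + CH p (fun ω => D (L ω)) y := u4.1
  have u6' : CH (R6 p L z) (fun w => (D (L w.2), (D (L w.1.1.2), D (L w.1.1.1.1.2))))
      (fun w => z w.1.1.1.1.1) ≤ CH (R4 p L z) (fun w => (D (L w.2), D (L w.1.1.2)))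
        (fun w => z w.1.1.1) + CH p (fun ω => D (L ω)) y := u6.1
  have u8' : CH (R8 p L z) (fun w => (D (L w.2), (D (L w.1.1.2),
      (D (L w.1.1.1.1.2), D (L w.1.1.1.1.1.1.2))))) (fun w => z w.1.1.1.1.1.1.1) ≤
      CH (R6 p L z) (fun w => (D (L w.2), (D (L w.1.1.2), D (L w.1.1.1.1.2))))
      (fun w => z w.1.1.1.1.1) + CH p (fun ω => D (L ω)) y := u8.1
  rw [b1] at a8'
  rw [b2] at u8'
  rw [hsplit] at a8'
  have u21 := u2.1
  linarith

end chain

end Pool.CHN76
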