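import Pool.Agent.H76.CHN.Blk

/-!
# The side of the end costs little
-/

set_option autoImplicit false

namespace Pool.CHN76

open Finset Real MvPolynomial
open Pool.Agent.H49.Ent Pool.Agent.H32.Dense Pool.STK Pool.MIC Pool.STB
open Pool.BFL (Pb)
open Pool.K2S (Pe)

/-- **One line.** -/
theorem sd_step {O Ω Λ Y E NN SS CC Z : Type} [Fintype O] [Fintype Ω] {r : O → ℝ} (hr : IsLaw r)
    {p : Ω → ℝ} {L : Ω → Λ} {z : Ω → Z} {y : Ω → Y} {t : Ω → ℤ} {D : Λ → E} {x : Z → V3}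
    (Dn : Λ → NN) (Sd : Ω → SS) (Q m : ℕ) {a b : O → Ω} {C : O → CC} {e1 e2 : ℝ}
    (hab : Marg r (glue p p L L) (fun w => (a w, b w))) (ha : Marg r p a)
    (hC : ∀ w w', 0 < r w → 0 < r w' → C w = C w' → D (L (a w)) = D (L (a w')) ∧
      y (a w) = y (a w') ∧ t (a w) / (m : ℤ) = t (a w') / (m : ℤ) ∧
      t (b w) / (m : ℤ) = t (b w') / (m : ℤ))
    (hP : ∀ w w', 0 < r w → 0 < r w' → C w = C w' → ∀ i,
      |((cv Q (x (z (a w))) i - cv Q (x (z (a w'))) i : ℤ) : ℝ)| ≤ 16)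
    (s1 : CH (glue p p L L) (fun w => Sd w.2) (fun w => ((Sd w.1, Dn (L w.1)), (D (L w.1),
      (y w.1, (cv Q (x (z w.1)), (t w.1 / (m : ℤ), t w.2 / (m : ℤ))))))) ≤ e2)
    (s2 : CH p (fun ω => Dn (L ω)) (fun ω => (D (L ω), (y ω, cv Q (x (z ω))))) ≤ e1) :
    CH r (fun w => Sd (b w)) C ≤ CH r (fun w => Sd (a w)) C + (e1 + e2 + 6 * Real.log 33) := by
  have h0 := hr.nonneg
  have hP' : ∀ {S : Type} (Wx : O → S), (∀ w w', Wx w = Wx w' → C w = C w') →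
      CH r (fun w => cv Q (x (z (a w)))) Wx ≤ 3 * Real.log 33 := by
    intro S Wx hW
    have h1 := CH_le_vec h0 hr.sum_one (fun w => cv Q (x (z (a w)))) Wx (fun _ => 16)
      (fun w w' h h' hh i => hP w w' h h' (hW w w' hh) i)
    rw [Ex_const hr.sum_one] at h1
    refine h1.trans (le_of_eq ?_)
    norm_num
  have c1 := CH_le_add h0 (fun w => Sd (b w)) (fun w => Sd (a w)) C
  have c2 := CH_le_add h0 (fun w => Sd (b w)) (fun w => Dn (L (a w))) (fun w => (Sd (a w), C w))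
  have c3 := CH_le_add h0 (fun w => Dn (L (a w))) (fun w => cv Q (x (z (a w))))
    (fun w => (Sd (a w), C w))
  have c4 := CH_le_add h0 (fun w => Sd (b w)) (fun w => cv Q (x (z (a w))))
    (fun w => (Dn (L (a w)), (Sd (a w), C w)))
  have d1 := hP' (fun w => (Sd (a w), C w)) (fun w w' h => (Prod.ext_iff.mp h).2)
  have d2 := hP' (fun w => (Dn (L (a w)), (Sd (a w), C w)))
    (fun w w' h => (Prod.ext_iff.mp (Prod.ext_iff.mp h).2).2)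
  have d3 : CH r (fun w => Dn (L (a w))) (fun w => (cv Q (x (z (a w))), (Sd (a w), C w))) ≤
      e1 := by
    refine le_trans ?_ s2
    rw [← ha.CH]
    refine CH_mono_cond h0 fun w w' hw hw' hh => ?_
    have k1 := (Prod.ext_iff.mp hh).1
    have k2 := hC w w' hw hw' (Prod.ext_iff.mp (Prod.ext_iff.mp hh).2).2
    exact Prod.ext k2.1 (Prod.ext k2.2.1 k1)
  have d4 : CH r (fun w => Sd (b w))
      (fun w => (cv Q (x (z (a w))), (Dn (L (a w)), (Sd (a w), C w)))) ≤ e2 := by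
    refine le_trans ?_ s1
    rw [← hab.CH]
    refine CH_mono_cond h0 fun w w' hw hw' hh => ?_
    have k1 := (Prod.ext_iff.mp hh).1
    have k3 := (Prod.ext_iff.mp (Prod.ext_iff.mp hh).2).1
    have k4 := (Prod.ext_iff.mp (Prod.ext_iff.mp (Prod.ext_iff.mp hh).2).2).1
    have k2 := hC w w' hw hw' (Prod.ext_iff.mp (Prod.ext_iff.mp (Prod.ext_iff.mp hh).2).2).2
    exact Prod.ext (Prod.ext k4 k3) (Prod.ext k2.1 (Prod.ext k2.2.1 (Prod.ext k1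
      (Prod.ext k2.2.2.1 k2.2.2.2))))
  linarith

section pv

variable {Ω Λ Z Y E : Type} [Fintype Ω] {p : Ω → ℝ} {L : Ω → Λ} {z : Ω → Z} {y : Ω → Y}
  {t : Ω → ℤ} {D : Λ → E} {X : E → V3} {Φ : E → Po} {x : Z → V3} {J : Z → Po} {b M : ℕ}
  {K e h R η c : ℝ}

/-- The positions of the corners. -/
theorem pos_var (H : ChH p L z y t D X Φ x J b M K e h R η c) (hK : 1 ≤ K) (hKM : K ≤ M) {r : ℝ}
    (hr : K / M ≤ r)
    {w w' : ((((((Ω × Ω) × Ω) × Ω) × Ω) × Ω) × Ω) × Ω} (hw : 0 < R8 p L z w)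
    (hw' : 0 < R8 p L z w') (hdat : dat D L z w = dat D L z w')
    (hrt : ∀ k, |rt M t w k - rt M t w' k| ≤ r) :
    Bx (15 * r) (x (z w.1.1.1.1.1.1.2) - x (z w'.1.1.1.1.1.1.2)) ∧
    Bx (15 * r) (x (z w.1.1.1.1.2) - x (z w'.1.1.1.1.2)) ∧
    Bx (15 * r) (x (z w.1.1.2) - x (z w'.1.1.2)) := by
  obtain ⟨⟨g1, g2, g3, g4, g5, g6, g7, g8⟩, ⟨l1, l2, l3, l4⟩, z1, z2, z3⟩ := R8_pos H.law L z hw
  obtain ⟨⟨g1', g2', g3', g4', g5', g6', g7', g8'⟩, ⟨l1', l2', l3', l4'⟩, z1', z2', z3'⟩ :=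
    R8_pos H.law L z hw'
  have hM1 : (0 : ℝ) < M := by linarith
  have hz : z w.1.1.1.1.1.1.1 = z w'.1.1.1.1.1.1.1 := (Prod.ext_iff.mp hdat).2
  have ht := H.tz _ _ g1 g1' hz
  have hd0 : D (L w.1.1.1.1.1.1.2) = D (L w'.1.1.1.1.1.1.2) :=
    (Prod.ext_iff.mp (Prod.ext_iff.mp (Prod.ext_iff.mp hdat).1).2).2
  have hd1 : D (L w.1.1.1.1.2) = D (L w'.1.1.1.1.2) :=
    (Prod.ext_iff.mp (Prod.ext_iff.mp (Prod.ext_iff.mp hdat).1).2).1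
  have hd2 : D (L w.1.1.2) = D (L w'.1.1.2) :=
    (Prod.ext_iff.mp (Prod.ext_iff.mp (Prod.ext_iff.mp hdat).1).1).2
  have t1 := H.tz _ _ g2 g3 z1
  have t2 := H.tz _ _ g4 g5 z2
  have t1' := H.tz _ _ g2' g3' z1'
  have t2' := H.tz _ _ g4' g5' z2'
  obtain ⟨κ, hκ⟩ : ∃ κ : ℝ, κ = K / M := ⟨_, rfl⟩
  have hκ0 : 0 ≤ κ := by rw [hκ]; positivity
  have p0 := H.pos _ _ g1 g2 l1
  have p1 := H.pos _ _ g3 g4 l2
  have p2 := H.pos _ _ g5 g6 l3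
  have q0 := H.pos _ _ g1' g2' l1'
  have q1 := H.pos _ _ g3' g4' l2'
  have q2 := H.pos _ _ g5' g6' l3'
  rw [l1] at p0
  rw [l1', ← hz, ← ht, ← hd0] at q0
  rw [l2, ← z1, ← t1] at p1
  rw [l2', ← z1', ← t1', ← hd1] at q1
  rw [l3, ← z2, ← t2] at p2
  rw [l3', ← z2', ← t2', ← hd2] at q2
  rw [sub_div, ← hκ] at p0 p1 p2 q0 q1 q2
  rw [← hκ] at hr
  have hr0 : 0 ≤ r := hκ0.trans hr
  have e0 := hrt 0
  have e1 := hrt 1
  have e2 := hrt 2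
  obtain ⟨s0, hs0⟩ : ∃ s : ℝ, s = (t w.1.1.1.1.1.1.2 : ℝ) / M := ⟨_, rfl⟩
  obtain ⟨s1, hs1⟩ : ∃ s : ℝ, s = (t w.1.1.1.1.2 : ℝ) / M := ⟨_, rfl⟩
  obtain ⟨s2, hs2⟩ : ∃ s : ℝ, s = (t w.1.1.2 : ℝ) / M := ⟨_, rfl⟩
  obtain ⟨s0', hs0'⟩ : ∃ s : ℝ, s = (t w'.1.1.1.1.1.1.2 : ℝ) / M := ⟨_, rfl⟩
  obtain ⟨s1', hs1'⟩ : ∃ s : ℝ, s = (t w'.1.1.1.1.2 : ℝ) / M := ⟨_, rfl⟩
  obtain ⟨s2', hs2'⟩ : ∃ s : ℝ, s = (t w'.1.1.2 : ℝ) / M := ⟨_, rfl⟩
  have f0 : |s0 - s0'| ≤ r := by rw [hs0, hs0']; exact e0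
  have f1 : |s1 - s1'| ≤ r := by rw [hs1, hs1']; exact e1
  have f2 : |s2 - s2'| ≤ r := by rw [hs2, hs2']; exact e2
  rw [← hs0] at p0 p1
  rw [← hs0'] at q0 q1
  rw [← hs1] at p1 p2
  rw [← hs1'] at q1 q2
  rw [← hs2] at p2
  rw [← hs2'] at q2
  have f10 : |(s1 - s0) - (s1' - s0')| ≤ 2 * r := by
    have e : (s1 - s0) - (s1' - s0') = (s1 - s1') - (s0 - s0') := by ring
    rw [e]
    have := abs_sub (s1 - s1') (s0 - s0')
    linarith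
  have f21 : |(s2 - s1) - (s2' - s1')| ≤ 2 * r := by
    have e : (s2 - s1) - (s2' - s1') = (s2 - s2') - (s1 - s1') := by ring
    rw [e]
    have := abs_sub (s2 - s2') (s1 - s1')
    linarith
  have v0 : Bx (3 * r) (x (z w.1.1.1.1.1.1.2) - x (z w'.1.1.1.1.1.1.2)) := by
    have e : x (z w.1.1.1.1.1.1.2) - x (z w'.1.1.1.1.1.1.2) =
        (x (z w.1.1.1.1.1.1.2) - x (z w.1.1.1.1.1.1.1) -
          (s0 - (t w.1.1.1.1.1.1.1 : ℝ) / M) • X (D (L w.1.1.1.1.1.1.2))) -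
        (x (z w'.1.1.1.1.1.1.2) - x (z w.1.1.1.1.1.1.1) -
          (s0' - (t w.1.1.1.1.1.1.1 : ℝ) / M) • X (D (L w.1.1.1.1.1.1.2))) +
        (s0 - s0') • X (D (L w.1.1.1.1.1.1.2)) := by
      rw [sub_smul s0, sub_smul s0', sub_smul s0]
      abel
    rw [e]
    refine Bx.mono (Bx.add (Bx.sub p0 q0) (Bx.smul (H.X1 _) f0)) ?_
    linarith
  have v1 : Bx (7 * r) (x (z w.1.1.1.1.2) - x (z w'.1.1.1.1.2)) := by
    have e : x (z w.1.1.1.1.2) - x (z w'.1.1.1.1.2) =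
        (x (z w.1.1.1.1.1.1.2) - x (z w'.1.1.1.1.1.1.2)) +
        ((x (z w.1.1.1.1.2) - x (z w.1.1.1.1.1.1.2) - (s1 - s0) • X (D (L w.1.1.1.1.2))) -
        (x (z w'.1.1.1.1.2) - x (z w'.1.1.1.1.1.1.2) - (s1' - s0') • X (D (L w.1.1.1.1.2)))) +
        ((s1 - s0) - (s1' - s0')) • X (D (L w.1.1.1.1.2)) := by
      rw [sub_smul (s1 - s0)]
      abel
    rw [e]
    refine Bx.mono (Bx.add (Bx.add v0 (Bx.sub p1 q1)) (Bx.smul (H.X1 _) f10)) ?_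
    linarith
  have v2 : Bx (11 * r) (x (z w.1.1.2) - x (z w'.1.1.2)) := by
    have e : x (z w.1.1.2) - x (z w'.1.1.2) =
        (x (z w.1.1.1.1.2) - x (z w'.1.1.1.1.2)) +
        ((x (z w.1.1.2) - x (z w.1.1.1.1.2) - (s2 - s1) • X (D (L w.1.1.2))) -
        (x (z w'.1.1.2) - x (z w'.1.1.1.1.2) - (s2' - s1') • X (D (L w.1.1.2)))) +
        ((s2 - s1) - (s2' - s1')) • X (D (L w.1.1.2)) := by
      rw [sub_smul (s2 - s1)]
      abel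
    rw [e]
    refine Bx.mono (Bx.add (Bx.add v1 (Bx.sub p2 q2)) (Bx.smul (H.X1 _) f21)) ?_
    linarith
  exact ⟨Bx.mono v0 (by linarith), Bx.mono v1 (by linarith), Bx.mono v2 (by linarith)⟩

end pv

/-- **The side of the end.** -/
theorem sd_of {Ω Λ Z Y E NN SS : Type} [Fintype Ω] {p : Ω → ℝ} {L : Ω → Λ} {z : Ω → Z}
    {y : Ω → Y} {t : Ω → ℤ} {D : Λ → E} {X : E → V3} {Φ : E → Po} {x : Z → V3} {J : Z → Po}
    {b Q m : ℕ} {K e h R η c e1 e2 : ℝ} (H : ChH p L z y t D X Φ x J b (Q * m) K e h R η c)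
    (hQ1 : 1 ≤ Q) (hm1 : 1 ≤ m) (hK : 1 ≤ K) (hKm : K ≤ m) (Dn : Λ → NN) (Sd : Ω → SS)
    (s0 : Det p z Sd)
    (s1 : CH (glue p p L L) (fun w => Sd w.2) (fun w => ((Sd w.1, Dn (L w.1)), (D (L w.1),
      (y w.1, (cv Q (x (z w.1)), (t w.1 / (m : ℤ), t w.2 / (m : ℤ))))))) ≤ e2)
    (s2 : CH p (fun ω => Dn (L ω)) (fun ω => (D (L ω), (y ω, cv Q (x (z ω))))) ≤ e1) :
    CH (R8 p L z) (fun w => Sd w.2)
      (fun w => (dat D L z w, fun k : Fin 4 => tm t k w / (m : ℤ))) ≤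
      4 * (e1 + e2 + 6 * Real.log 33) := by
  have hp := H.law
  have hr := R8_law hp L z
  have h0 := hr.nonneg
  have hQ0 : (1 : ℝ) ≤ Q := by exact_mod_cast hQ1
  have hm0 : (1 : ℝ) ≤ m := by exact_mod_cast hm1
  obtain ⟨M, hMd⟩ : ∃ M : ℕ, M = Q * m := ⟨_, rfl⟩
  have hMr : (M : ℝ) = Q * m := by rw [hMd]; push_cast; ring
  rw [← hMd] at H
  have hmM : (m : ℝ) ≤ M := by rw [hMr]; nlinarith
  have hKM : K ≤ M := hKm.trans hmM
  have hM1 : (0 : ℝ) < M := by linarith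
  obtain ⟨ρ, hρ⟩ : ∃ ρ : ℝ, ρ = 1 / Q := ⟨_, rfl⟩
  have hMr' : (M : ℝ) * ρ = m := by
    rw [hMr, hρ]
    field_simp
  have hQr : (Q : ℝ) * ρ = 1 := by
    rw [hρ]
    field_simp
  have hKr : K / M ≤ ρ := by
    rw [div_le_iff₀ hM1, mul_comm ρ, hMr']
    exact hKm
  obtain ⟨C, hC⟩ : ∃ C : ((((((Ω × Ω) × Ω) × Ω) × Ω) × Ω) × Ω) × Ω →
      (((E × E) × (E × E)) × Z) × (Fin 4 → ℤ),
      C = fun w => (dat D L z w, fun k : Fin 4 => tm t k w / (m : ℤ)) := ⟨_, rfl⟩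
  rw [← hC]
  have hCe : ∀ w w', C w = C w' → dat D L z w = dat D L z w' ∧
      ∀ k, tm t k w / (m : ℤ) = tm t k w' / (m : ℤ) := by
    intro w w' h
    rw [hC] at h
    exact ⟨(Prod.ext_iff.mp h).1, fun k => congrFun (Prod.ext_iff.mp h).2 k⟩
  have hrt : ∀ w w', C w = C w' → ∀ k, |rt M t w k - rt M t w' k| ≤ ρ := by
    intro w w' h k
    have h1 := ediv_near hm1 ((hCe w w' h).2 k)
    unfold rt
    rw [← sub_div, abs_div, abs_of_pos hM1, div_le_iff₀ hM1, mul_comm ρ, hMr']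
    push_cast at h1
    exact h1
  have hcv : ∀ {q q' : V3}, Bx (15 * ρ) (q - q') → ∀ i,
      |((cv Q q i - cv Q q' i : ℤ) : ℝ)| ≤ 16 := by
    intro q q' hq i
    have h3 : |(Q : ℝ) * q i - Q * q' i| ≤ 15 := by
      rw [← mul_sub, abs_mul, abs_of_pos (by linarith : (0 : ℝ) < Q)]
      calc (Q : ℝ) * |q i - q' i| ≤ Q * (15 * ρ) :=
            mul_le_mul_of_nonneg_left (hq i) (by linarith)
        _ = 15 * (Q * ρ) := by ring
        _ = 15 := by rw [hQr, mul_one]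
    exact (floor_diff h3).trans (by norm_num)
  have hpv := fun (w w' : ((((((Ω × Ω) × Ω) × Ω) × Ω) × Ω) × Ω) × Ω) (hw : 0 < R8 p L z w)
    (hw' : 0 < R8 p L z w') (h : C w = C w') =>
    pos_var H hK hKM hKr hw hw' (hCe w w' h).1 (hrt w w' h)
  -- the records and the closed records
  have hz0 : ∀ w w', C w = C w' → z w.1.1.1.1.1.1.1 = z w'.1.1.1.1.1.1.1 := fun w w' h =>
    (Prod.ext_iff.mp (hCe w w' h).1).2
  have hD : ∀ w w', C w = C w' → D (L w.1.1.1.1.1.1.2) = D (L w'.1.1.1.1.1.1.2) ∧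
      D (L w.1.1.1.1.2) = D (L w'.1.1.1.1.2) ∧ D (L w.1.1.2) = D (L w'.1.1.2) ∧
      D (L w.2) = D (L w'.2) := fun w w' h =>
    ⟨(Prod.ext_iff.mp (Prod.ext_iff.mp (Prod.ext_iff.mp (hCe w w' h).1).1).2).2,
      (Prod.ext_iff.mp (Prod.ext_iff.mp (Prod.ext_iff.mp (hCe w w' h).1).1).2).1,
      (Prod.ext_iff.mp (Prod.ext_iff.mp (Prod.ext_iff.mp (hCe w w' h).1).1).1).2,
      (Prod.ext_iff.mp (Prod.ext_iff.mp (Prod.ext_iff.mp (hCe w w' h).1).1).1).1⟩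
  have hT : ∀ w w', C w = C w' →
      t w.1.1.1.1.1.1.2 / (m : ℤ) = t w'.1.1.1.1.1.1.2 / (m : ℤ) ∧
      t w.1.1.1.1.2 / (m : ℤ) = t w'.1.1.1.1.2 / (m : ℤ) ∧
      t w.1.1.2 / (m : ℤ) = t w'.1.1.2 / (m : ℤ) ∧ t w.2 / (m : ℤ) = t w'.2 / (m : ℤ) :=
    fun w w' h => ⟨(hCe w w' h).2 0, (hCe w w' h).2 1, (hCe w w' h).2 2, (hCe w w' h).2 3⟩
  -- the marginals
  have m01 : Marg (R8 p L z) (glue p p L L) (fun w => (w.1.1.1.1.1.1.1, w.1.1.1.1.1.1.2)) :=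
    (R8_f hp L z).comp (R7_two hp L z)
  have m23 : Marg (R8 p L z) (glue p p L L) (fun w => (w.1.1.1.1.1.2, w.1.1.1.1.2)) := by
    have h4 : Marg (R4 p L z) (R2 p L) (fun w => (w.1.2, w.2)) :=
      Marg.glue (Z₁ := L) (Z₂ := L) (R3_s hp L z) (Marg.id p)
    exact (R8_f hp L z).comp ((R7_fst hp L z).comp ((R5_f hp L z).comp h4))
  have m45 : Marg (R8 p L z) (glue p p L L) (fun w => (w.1.1.1.2, w.1.1.2)) := by
    have h4 : Marg (R6 p L z) (R2 p L) (fun w => (w.1.2, w.2)) :=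
      Marg.glue (Z₁ := L) (Z₂ := L) (R5_s hp L z) (Marg.id p)
    exact (R8_f hp L z).comp ((R7_f hp L z).comp h4)
  have m67 : Marg (R8 p L z) (glue p p L L) (fun w => (w.1.2, w.2)) :=
    Marg.glue (Z₁ := L) (Z₂ := L) (R7_s hp L z) (Marg.id p)
  have mf : Marg (glue p p L L) p (fun w => w.1) := R2_f hp L
  -- the steps
  have st0 := sd_step hr (t := t) (y := y) (x := x) (D := D) Dn Sd Q m (C := C) m01
    (m01.comp mf) (fun w w' hw hw' h => by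
      obtain ⟨⟨g1, -⟩, ⟨l1, -⟩, -⟩ := R8_pos hp L z hw
      obtain ⟨⟨g1', -⟩, ⟨l1', -⟩, -⟩ := R8_pos hp L z hw'
      refine ⟨by rw [l1, l1']; exact (hD w w' h).1, H.yz _ _ g1 g1' (hz0 w w' h), ?_,
        (hT w w' h).1⟩
      rw [H.tz _ _ g1 g1' (hz0 w w' h)])
    (fun w w' hw hw' h i => by
      rw [hz0 w w' h, sub_self]
      norm_num) s1 s2
  have st1 := sd_step hr (t := t) (y := y) (x := x) (D := D) Dn Sd Q m (C := C) m23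
    (m23.comp mf) (fun w w' hw hw' h => by
      obtain ⟨⟨g1, g2, g3, -⟩, ⟨l1, l2, -⟩, z1, -⟩ := R8_pos hp L z hw
      obtain ⟨⟨g1', g2', g3', -⟩, ⟨l1', l2', -⟩, z1', -⟩ := R8_pos hp L z hw'
      refine ⟨by rw [l2, l2']; exact (hD w w' h).2.1, ?_, ?_, (hT w w' h).2.1⟩
      · rw [← H.yz _ _ g2 g3 z1, ← H.yL _ _ g1 g2 l1, ← H.yz _ _ g2' g3' z1',
          ← H.yL _ _ g1' g2' l1']
        exact H.yz _ _ g1 g1' (hz0 w w' h)
      · rw [← H.tz _ _ g2 g3 z1, ← H.tz _ _ g2' g3' z1']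
        exact (hT w w' h).1)
    (fun w w' hw hw' h i => by
      obtain ⟨-, -, z1, -⟩ := R8_pos hp L z hw
      obtain ⟨-, -, z1', -⟩ := R8_pos hp L z hw'
      rw [← z1, ← z1']
      exact hcv (hpv w w' hw hw' h).1 i) s1 s2
  have st2 := sd_step hr (t := t) (y := y) (x := x) (D := D) Dn Sd Q m (C := C) m45
    (m45.comp mf) (fun w w' hw hw' h => by
      obtain ⟨⟨g1, g2, g3, g4, g5, -⟩, ⟨l1, l2, l3, -⟩, z1, z2, -⟩ := R8_pos hp L z hw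
      obtain ⟨⟨g1', g2', g3', g4', g5', -⟩, ⟨l1', l2', l3', -⟩, z1', z2', -⟩ :=
        R8_pos hp L z hw'
      refine ⟨by rw [l3, l3']; exact (hD w w' h).2.2.1, ?_, ?_, (hT w w' h).2.2.1⟩
      · rw [← H.yz _ _ g4 g5 z2, ← H.yL _ _ g3 g4 l2, ← H.yz _ _ g2 g3 z1,
          ← H.yL _ _ g1 g2 l1, ← H.yz _ _ g4' g5' z2', ← H.yL _ _ g3' g4' l2',
          ← H.yz _ _ g2' g3' z1', ← H.yL _ _ g1' g2' l1']
        exact H.yz _ _ g1 g1' (hz0 w w' h)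
      · rw [← H.tz _ _ g4 g5 z2, ← H.tz _ _ g4' g5' z2']
        exact (hT w w' h).2.1)
    (fun w w' hw hw' h i => by
      obtain ⟨-, -, -, z2, -⟩ := R8_pos hp L z hw
      obtain ⟨-, -, -, z2', -⟩ := R8_pos hp L z hw'
      rw [← z2, ← z2']
      exact hcv (hpv w w' hw hw' h).2.1 i) s1 s2
  have st3 := sd_step hr (t := t) (y := y) (x := x) (D := D) Dn Sd Q m (C := C) m67
    (m67.comp mf) (fun w w' hw hw' h => by
      obtain ⟨⟨g1, g2, g3, g4, g5, g6, g7, -⟩, ⟨l1, l2, l3, l4⟩, z1, z2, z3⟩ :=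
        R8_pos hp L z hw
      obtain ⟨⟨g1', g2', g3', g4', g5', g6', g7', -⟩, ⟨l1', l2', l3', l4'⟩, z1', z2', z3'⟩ :=
        R8_pos hp L z hw'
      refine ⟨by rw [l4, l4']; exact (hD w w' h).2.2.2, ?_, ?_, (hT w w' h).2.2.2⟩
      · rw [← H.yz _ _ g6 g7 z3, ← H.yL _ _ g5 g6 l3, ← H.yz _ _ g4 g5 z2,
          ← H.yL _ _ g3 g4 l2, ← H.yz _ _ g2 g3 z1, ← H.yL _ _ g1 g2 l1,
          ← H.yz _ _ g6' g7' z3', ← H.yL _ _ g5' g6' l3', ← H.yz _ _ g4' g5' z2',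
          ← H.yL _ _ g3' g4' l2', ← H.yz _ _ g2' g3' z1', ← H.yL _ _ g1' g2' l1']
        exact H.yz _ _ g1 g1' (hz0 w w' h)
      · rw [← H.tz _ _ g6 g7 z3, ← H.tz _ _ g6' g7' z3']
        exact (hT w w' h).2.2.1)
    (fun w w' hw hw' h i => by
      obtain ⟨-, -, -, -, z3⟩ := R8_pos hp L z hw
      obtain ⟨-, -, -, -, z3'⟩ := R8_pos hp L z hw'
      rw [← z3, ← z3']
      exact hcv (hpv w w' hw hw' h).2.2 i) s1 s2
  -- the corners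
  have hsw : ∀ (f g : ((((((Ω × Ω) × Ω) × Ω) × Ω) × Ω) × Ω) × Ω → Ω),
      (∀ w, 0 < R8 p L z w → Sd (f w) = Sd (g w)) →
      CH (R8 p L z) (fun w => Sd (f w)) C = CH (R8 p L z) (fun w => Sd (g w)) C := by
    intro f g hfg
    refine CH_congr h0 ?_ ?_ (fun _ _ _ _ h => h) (fun _ _ _ _ h => h)
    · intro w w' hw hw' hh
      have := (Prod.ext_iff.mp hh).1
      show Sd (g w) = Sd (g w')
      rw [← hfg w hw, ← hfg w' hw']
      exact this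
    · intro w w' hw hw' hh
      have := (Prod.ext_iff.mp hh).1
      show Sd (f w) = Sd (f w')
      rw [hfg w hw, hfg w' hw']
      exact this
  have k1 := hsw (fun w => w.1.1.1.1.1.2) (fun w => w.1.1.1.1.1.1.2) (fun w hw => by
    obtain ⟨⟨g1, g2, g3, -⟩, -, z1, -⟩ := R8_pos hp L z hw
    exact s0 _ _ g3 g2 z1.symm)
  have k2 := hsw (fun w => w.1.1.1.2) (fun w => w.1.1.1.1.2) (fun w hw => by
    obtain ⟨⟨g1, g2, g3, g4, g5, -⟩, -, z1, z2, -⟩ := R8_pos hp L z hw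
    exact s0 _ _ g5 g4 z2.symm)
  have k3 := hsw (fun w => w.1.2) (fun w => w.1.1.2) (fun w hw => by
    obtain ⟨⟨g1, g2, g3, g4, g5, g6, g7, -⟩, -, z1, z2, z3⟩ := R8_pos hp L z hw
    exact s0 _ _ g7 g6 z3.symm)
  have k0 : CH (R8 p L z) (fun w => Sd w.1.1.1.1.1.1.1) C = 0 := by
    refine CH_eq_zero h0 fun w w' hw hw' h => ?_
    obtain ⟨⟨g1, -⟩, -, -⟩ := R8_pos hp L z hw
    obtain ⟨⟨g1', -⟩, -, -⟩ := R8_pos hp L z hw'
    exact s0 _ _ g1 g1' (hz0 w w' h)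
  linarith

end Pool.CHN76
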