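import Pool.Agent.H76.CHN.Geo

/-!
# The star

A line through the record and a branch of three lines: `Φ` of the line differs from the polynomial of
the branch by a polynomial which is nearly constant in the direction of the line.
-/

set_option autoImplicit false

namespace Pool.CHN76

open Finset Real MvPolynomial
open Pool.Agent.H49.Ent Pool.Agent.H32.Dense Pool.STK Pool.MIC Pool.STB
open Pool.BFL (Pb)
open Pool.K2S (Pe)

theorem Pb_Pe {O : Type} [Fintype O] (p : O → ℝ) (A : O → Prop) : Pe p A = Pb p A := by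
  rw [Pool.K2S.Pe_eq]
  unfold Pb
  refine Finset.sum_congr rfl fun w _ => ?_
  by_cases h : A w <;> simp [h]

/-- The conditional law. -/
theorem cond_pos {O : Type} [Fintype O] {p : O → ℝ} (hp : IsLaw p) {A : O → Prop} {w : O}
    (h : 0 < cond p A True w) : 0 < p w ∧ A w := by
  unfold Pool.Agent.H49.Ent.cond at h
  split_ifs at h with h1
  · refine ⟨?_, of_eq_true h1⟩
    rcases (hp.nonneg w).eq_or_lt with h0 | h0
    · rw [← h0, zero_div] at h
      exact absurd h (lt_irrefl _)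
    · exact h0
  · exact absurd h (lt_irrefl _)

theorem cond_le {O : Type} [Fintype O] {p : O → ℝ} (hp : IsLaw p) {A : O → Prop} {m : ℝ}
    (hm : 0 < m) (hA : m ≤ Pe p A) (w : O) : cond p A True w ≤ 1 / m * p w := by
  unfold Pool.Agent.H49.Ent.cond
  have h0 := hp.nonneg w
  split_ifs with h1
  · have e : p w / law p A True ≤ p w / m := div_le_div_of_nonneg_left h0 hm hA
    refine e.trans (le_of_eq ?_)
    ring
  · positivity

/-- The image of a law with a bounded density. -/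
theorem push {O Ω : Type} [Fintype O] [Fintype Ω] {q P : O → ℝ} {p : Ω → ℝ} {a : O → Ω} {R : ℝ}
    (hm : Marg P p a) (hq : IsLaw q) (hqR : ∀ w, q w ≤ R * P w) :
    ∃ q' : Ω → ℝ, IsLaw q' ∧ (∀ ω, q' ω ≤ R * p ω) ∧ Marg q q' a := by
  classical
  refine ⟨fun ω => law q a ω, ⟨fun ω => law_nonneg hq.nonneg _ _, ?_⟩, fun ω => ?_, fun ω => ?_⟩
  · have h4 : ∑ ω, law q a ω = ∑ w, q w := by
      unfold law
      rw [Finset.sum_comm]
      refine Finset.sum_congr rfl fun w _ => ?_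
      rw [Finset.sum_ite_eq]
      simp
    rw [h4, hq.sum_one]
  · have h4 : law q a ω ≤ R * law P a ω := by
      unfold law
      rw [Finset.mul_sum]
      refine Finset.sum_le_sum fun w _ => ?_
      by_cases hu : a w = ω
      · rw [if_pos hu, if_pos hu]
        exact hqR w
      · rw [if_neg hu, if_neg hu, mul_zero]
    have h5 : law P a ω = p ω := by
      rw [← hm ω]
      rfl
    rwa [h5] at h4
  · rfl

/-- A point where the derivative is not small. -/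
theorem wit {X0 X1 X2 X3 : V3} {Φ f : Po} {d δ : ℝ} (hd : 0 < d) (c0 : Bx 1 X0) (c1 : Bx 1 X1)
    (c2 : Bx 1 X2) (c3 : Bx 1 X3) (hdet : d ≤ |(mt ![X1, X2, X3]).det|)
    (hI : ¬ Inv X0 Φ f δ) : ∃ ζ : Fin 4 → ℝ, (∀ i, |ζ i| ≤ 36 / d) ∧
      δ < |eval ζ (F4 X0 X1 X2 X3 (Φ - f))| := by
  have h1 : ∃ v, Bx 2 v ∧ δ < |eval v (dX X0 (Φ - f))| := by
    by_contra hcon
    push Not at hcon
    exact hI (inv_of c0 hcon)
  obtain ⟨v, hv, hbig⟩ := h1
  have hX : ∀ a, Bx 1 ((![X1, X2, X3] : Fin 3 → V3) a) := by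
    intro a
    fin_cases a
    exacts [c1, c2, c3]
  have hd0 : (mt ![X1, X2, X3]).det ≠ 0 := by
    intro h0
    rw [h0, abs_zero] at hdet
    linarith
  have hs := fun a => Pool.STB6.sol_le ![X1, X2, X3] hd hX hdet hv a
  have hsp := Pool.STB6.sol_spec ![X1, X2, X3] hd0 v
  obtain ⟨s, hsd⟩ : ∃ s, s = Pool.STB6.sol ![X1, X2, X3] v := ⟨_, rfl⟩
  rw [← hsd] at hs hsp
  obtain ⟨B, hB⟩ : ∃ B, B = 12 / d := ⟨_, rfl⟩
  have e12 : (6 * 2 / d : ℝ) = B := by rw [hB]; ring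
  have e36 : (36 / d : ℝ) = 3 * B := by rw [hB]; ring
  rw [e12] at hs
  rw [e36]
  have hB0 : 0 ≤ B := (abs_nonneg _).trans (hs 0)
  refine ⟨![0, s 0, s 0 + s 1, s 0 + s 1 + s 2], ?_, ?_⟩
  · have b0 := hs 0
    have b1 := hs 1
    have b2 := hs 2
    have b01 := abs_add_le (s 0) (s 1)
    have b012 := abs_add_le (s 0 + s 1) (s 2)
    intro i
    fin_cases i
    · show |(0 : ℝ)| ≤ 3 * B
      rw [abs_zero]
      positivity
    · show |s 0| ≤ 3 * B
      linarith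
    · show |s 0 + s 1| ≤ 3 * B
      linarith
    · show |s 0 + s 1 + s 2| ≤ 3 * B
      linarith
  · rw [F4_eval]
    have e : ((![0, s 0, s 0 + s 1, s 0 + s 1 + s 2] : Fin 4 → ℝ) 1 -
        (![0, s 0, s 0 + s 1, s 0 + s 1 + s 2] : Fin 4 → ℝ) 0) • X1 +
        ((![0, s 0, s 0 + s 1, s 0 + s 1 + s 2] : Fin 4 → ℝ) 2 -
        (![0, s 0, s 0 + s 1, s 0 + s 1 + s 2] : Fin 4 → ℝ) 1) • X2 +
        ((![0, s 0, s 0 + s 1, s 0 + s 1 + s 2] : Fin 4 → ℝ) 3 -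
        (![0, s 0, s 0 + s 1, s 0 + s 1 + s 2] : Fin 4 → ℝ) 2) • X3 = v := by
      rw [← hsp, Fin.sum_univ_three]
      show (s 0 - 0) • X1 + (s 0 + s 1 - s 0) • X2 + (s 0 + s 1 + s 2 - (s 0 + s 1)) • X3 =
        s 0 • X1 + s 1 • X2 + s 2 • X3
      rw [sub_zero, add_sub_cancel_left, add_sub_cancel_left]
    rw [e]
    exact hbig

section core

variable {Ω Λ Z Y E : Type} [Fintype Ω] {p : Ω → ℝ} {L : Ω → Λ} {z : Ω → Z} {y : Ω → Y}
  {t : Ω → ℤ} {D : Λ → E} {X : E → V3} {Φ : E → Po} {x : Z → V3} {J : Z → Po} {b M : ℕ}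
  {K e h R η c : ℝ}

/-- The closed record of the end. -/
theorem R8_y (H : ChH p L z y t D X Φ x J b M K e h R η c)
    {w : ((((((Ω × Ω) × Ω) × Ω) × Ω) × Ω) × Ω) × Ω} (hw : 0 < R8 p L z w) :
    y w.2 = y w.1.1.1.1.1.1.1 := by
  obtain ⟨⟨g1, g2, g3, g4, g5, g6, g7, g8⟩, ⟨l1, l2, l3, l4⟩, z1, z2, z3⟩ := R8_pos H.law L z hw
  rw [← H.yL _ _ g7 g8 l4, ← H.yz _ _ g6 g7 z3, ← H.yL _ _ g5 g6 l3, ← H.yz _ _ g4 g5 z2,
    ← H.yL _ _ g3 g4 l2, ← H.yz _ _ g2 g3 z1, ← H.yL _ _ g1 g2 l1]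

/-- The times are full given the side. -/
theorem full8 (H : ChH p L z y t D X Φ x J b M K e h R η c) :
    4 * Real.log (2 * M + 1) - 8 * e ≤
      CH (R8 p L z) (fun w (k : Fin 4) => tm t k w) (dat D L z) := by
  refine (R8_full H.law L z (F := Real.log (2 * M + 1)) (e := e) y t D H.yL H.yz H.tz H.full
    H.free).trans (le_of_eq ?_)
  refine CH_congr (R8_law H.law L z).nonneg ?_ ?_ (fun _ _ _ _ h => h) (fun _ _ _ _ h => h)
  · intro w w' _ _ hh
    simp only [Prod.mk.injEq] at hh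
    obtain ⟨⟨⟨e3, e2⟩, e1, e0⟩, -⟩ := hh
    funext k
    unfold tm
    fin_cases k
    exacts [e0, e1, e2, e3]
  · intro w w' _ _ hh
    have e := (Prod.ext_iff.mp hh).1
    have e0 : t w.1.1.1.1.1.1.2 = t w'.1.1.1.1.1.1.2 := congrFun e 0
    have e1 : t w.1.1.1.1.2 = t w'.1.1.1.1.2 := congrFun e 1
    have e2 : t w.1.1.2 = t w'.1.1.2 := congrFun e 2
    have e3 : t w.2 = t w'.2 := congrFun e 3
    show ((t w.2, t w.1.1.2), (t w.1.1.1.1.2, t w.1.1.1.1.1.1.2)) =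
      ((t w'.2, t w'.1.1.2), (t w'.1.1.1.1.2, t w'.1.1.1.1.1.1.2))
    rw [e0, e1, e2, e3]

/-- The bad event. -/
def Bd (X : E → V3) (Φ : E → Po) (d δ : ℝ) (S : ((E × E) × (E × E)) × Z) : Prop :=
  d ≤ |dS X S| ∧ ¬ Inv (X S.1.2.2) (Φ S.1.2.2) (fS X Φ S) δ

/-- The derivative at the end of the chain. -/
noncomputable def dv (X : E → V3) (Φ : E → Po) (S : ((E × E) × (E × E)) × Z) (ζ : Fin 4 → ℝ) : ℝ :=
  eval (vS X S ζ) (dX (X S.1.2.2) (gS X Φ S))

theorem gS_deg (H : ChH p L z y t D X Φ x J b M K e h R η c) (S : ((E × E) × (E × E)) × Z) :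
    (gS X Φ S).totalDegree ≤ b := by
  unfold gS
  refine (totalDegree_sub _ _).trans (max_le (hb_deg (H.Φ1 _)) ?_)
  unfold fS
  refine (Pool.STB6.fb_hom _ _ fun a => ?_).totalDegree_le
  fin_cases a
  exacts [(H.Φ1 _).hom, (H.Φ1 _).hom, (H.Φ1 _).hom]

/-- **The derivative is not small at the end**: reading. -/
theorem read8 (b : ℕ) : ∃ C : ℕ, 1 ≤ C ∧ ∀ {Ω Λ Z Y E : Type} [Fintype Ω]
    {p : Ω → ℝ} {L : Ω → Λ} {z : Ω → Z} {y : Ω → Y} {t : Ω → ℤ} {D : Λ → E}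
    {X : E → V3} {Φ : E → Po} {x : Z → V3} {J : Z → Po} {M : ℕ} {K e h R η c : ℝ},
    ChH p L z y t D X Φ x J b M K e h R η c → 1 ≤ M → ∀ {d δ η' ρ : ℝ}, 0 < d → d ≤ 1 →
    0 < ρ → ρ ≤ 1 → (C : ℝ) ≤ ρ ^ C * (2 * M + 1) → C * (36 / d / ρ) ^ C * η' ≤ δ →
    Pb (R8 p L z) (fun w => Bd X Φ d δ (dat D L z w) ∧ |dv X Φ (dat D L z w) (rt M t w)| ≤ η') *
      Real.log (1 / ρ) ≤ 8 * e + Real.log 2 := by
  obtain ⟨C, hC1, hread⟩ := Pool.STB6.read_mv 4 b
  refine ⟨C, hC1, ?_⟩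
  intro Ω Λ Z Y E _ p L z y t D X Φ x J M K e h R η c H hM d δ η' ρ hd hd1 hρ hρ1 hCρ hCδ
  have hL := R8_law H.law L z
  have key := hread _ _ (R8 p L z) (dat D L z) M (fun w (k : Fin 4) => tm t k w)
    (fun S => F4 (X S.1.2.2) (X S.1.2.1) (X S.1.1.2) (X S.1.1.1) (gS X Φ S)) (fun _ => η')
    (fun w => Bd X Φ d δ (dat D L z w) ∧ |dv X Φ (dat D L z w) (rt M t w)| ≤ η')
    (8 * e) ρ (36 / d) hL hM hρ hρ1 hCρ (by
      rw [le_div_iff₀ hd]
      linarith) (fun w hw k => tm_le H hw k) (by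
      have := full8 H
      exact_mod_cast this) (fun w hw hE => by
      refine ⟨fun i => F4_deg _ _ _ _ (gS_deg H _) i, ?_⟩
      rw [F4_eval]
      exact hE.2)
  refine le_trans (mul_le_mul_of_nonneg_right ?_ ?_) key
  · refine Pb_mono hL.nonneg fun w hw hE => ⟨hE, ?_⟩
    obtain ⟨ζ, h1, h2⟩ := wit hd (H.X1 _) (H.X1 _) (H.X1 _) (H.X1 _) hE.1.1 hE.1.2
    exact ⟨ζ, h1, lt_of_le_of_lt hCδ h2⟩
  · exact Real.log_nonneg (by rw [le_div_iff₀ hρ]; linarith)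

/-- **The counting on the event.** -/
theorem count8 (b : ℕ) (hb : 1 ≤ b) : ∃ A : ℝ, 1 ≤ A ∧ ∀ {Ω Λ Z Y E : Type} [Fintype Ω]
    {p : Ω → ℝ} {L : Ω → Λ} {z : Ω → Z} {y : Ω → Y} {t : Ω → ℤ} {D : Λ → E}
    {X : E → V3} {Φ : E → Po} {x : Z → V3} {J : Z → Po} {M : ℕ} {K e h R η c : ℝ},
    ChH p L z y t D X Φ x J b M K e h R η c → 1 ≤ K → K ≤ M → 0 ≤ e → ∀ {d η' m : ℝ}, 0 < d →
    d ≤ 1 → 0 < η' → η' ≤ 1 → 0 < m → 1 / m ≤ R → ∀ (Ev : ((((((Ω × Ω) × Ω) × Ω) × Ω) × Ω) × Ω) × Ω → Prop),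
    m ≤ Pe (R8 p L z) Ev →
    (∀ w, 0 < R8 p L z w → Ev w → d ≤ |dS X (dat D L z w)| ∧
      η' ≤ |dv X Φ (dat D L z w) (rt M t w)|) →
    4 * Real.log (2 * M + 1) - (16 * e + 9 * Real.log 2) / m ≤
      3 * Real.log (2 * (2 * M) + 1) + ((1 - h) * Real.log M + e) +
      Real.log (2 * (2 * (A / (η' * d ^ b)) + 1) + 1) +
      Real.log (2 * (A * K / (η' * d ^ b)) + 1) +
      3 * Real.log (2 * (18 * (8 * K + 1) / d) + 1) := by
  obtain ⟨A, hA, hfirst⟩ := pair_first b hb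
  refine ⟨A, hA, ?_⟩
  intro Ω Λ Z Y E _ p L z y t D X Φ x J M K e h R η c H hK hKM he d η' m hd hd1 hη hη1 hm hmR Ev
    hEv hgood
  have hL := R8_law H.law L z
  have hM1 : (0 : ℝ) < M := by linarith
  have hM : 0 < M := by exact_mod_cast hM1
  have hA0 : 0 < Pe (R8 p L z) Ev := lt_of_lt_of_le hm hEv
  have hdb := pow_pos hd b
  have hdb1 : d ^ b ≤ 1 := pow_le_one₀ hd.le hd1
  obtain ⟨Δ, hΔ⟩ : ∃ Δ, Δ = η' * d ^ b / A := ⟨_, rfl⟩
  have hApos : 0 < A := by linarith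
  have hΔ0 : 0 < Δ := by rw [hΔ]; positivity
  have hΔ1 : Δ ≤ 1 := by
    rw [hΔ, div_le_one hApos]
    have : η' * d ^ b ≤ 1 * 1 := mul_le_mul hη1 hdb1 hdb.le zero_le_one
    linarith
  have hAΔ : A * Δ ≤ η' * d ^ b := by
    rw [hΔ]
    field_simp
    exact le_refl _
  obtain ⟨Q, hQd⟩ : ∃ Q, Q = cond (R8 p L z) Ev True := ⟨_, rfl⟩
  have hQ : IsLaw Q := by rw [hQd]; exact Pool.K2S.isLaw_cond hL hA0
  have hQpos : ∀ w, 0 < Q w → 0 < R8 p L z w ∧ Ev w := fun w hw => by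
    rw [hQd] at hw
    exact cond_pos hL hw
  have hlog2 : 0 ≤ Real.log 2 := Real.log_nonneg (by norm_num)
  -- the lower bound
  have hvec : ∀ Q' : ((((((Ω × Ω) × Ω) × Ω) × Ω) × Ω) × Ω) × Ω → ℝ, IsLaw Q' →
      (∀ w, 0 < Q' w → 0 < R8 p L z w) →
      CH Q' (fun w (k : Fin 4) => tm t k w) (dat D L z) ≤
        4 * Real.log (2 * M + 1) + (8 * e + 4 * Real.log 2) := by
    intro Q' hQ' hpos
    have h1 := CH_le_vec hQ'.nonneg hQ'.sum_one (fun w (k : Fin 4) => tm t k w) (dat D L z)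
      (fun _ => 2 * (M : ℝ)) (fun w w' a a' _ k => by
        have b1 := tm_le H (hpos w a) k
        have b2 := tm_le H (hpos w' a') k
        have b3 := abs_sub (tm t k w) (tm t k w')
        have b4 : |tm t k w - tm t k w'| ≤ 2 * (M : ℤ) := by linarith
        exact_mod_cast b4)
    rw [Ex_const hQ'.sum_one] at h1
    have h2 : Real.log (2 * (2 * (M : ℝ)) + 1) ≤ Real.log (2 * M + 1) + Real.log 2 := by
      rw [← Real.log_mul (by positivity) (by norm_num)]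
      exact Real.log_le_log (by positivity) (by linarith)
    push_cast at h1
    linarith
  have hlow := Pool.LF65.CH_cond_low hL hA0 (fun w (k : Fin 4) => tm t k w) (dat D L z)
    (Lf := 4 * Real.log (2 * M + 1)) (th := 8 * e + 4 * Real.log 2)
    ((by linarith : 4 * Real.log (2 * M + 1) - (8 * e + 4 * Real.log 2) ≤
      4 * Real.log (2 * M + 1) - 8 * e).trans (full8 H)) hvec (by linarith)
  rw [← hQd] at hlow
  have hlow' : 4 * Real.log (2 * M + 1) - (16 * e + 9 * Real.log 2) / m ≤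
      CH Q (fun w (k : Fin 4) => tm t k w) (dat D L z) := by
    refine le_trans ?_ hlow
    have h1 : (2 * (8 * e + 4 * Real.log 2) + Real.log 2) / Pe (R8 p L z) Ev ≤
        (16 * e + 9 * Real.log 2) / m := by
      have e1 : 2 * (8 * e + 4 * Real.log 2) + Real.log 2 = 16 * e + 9 * Real.log 2 := by ring
      rw [e1]
      exact div_le_div_of_nonneg_left (by positivity) hm hEv
    linarith
  refine hlow'.trans ?_
  -- the value of the end
  obtain ⟨q', hq', hq'R, hmarg⟩ := push (R8_s H.law L z) hQ (R := R) (fun w => by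
    rw [hQd]
    exact (cond_le hL hm hEv w).trans (mul_le_mul_of_nonneg_right hmR (hL.nonneg w)))
  have hnf := H.nf q' hq' hq'R
  have hN : CH Q (fun w => ⌊(M : ℝ) * val x J (z w.2)⌋)
      (fun w => (cv M (x (z w.2)), dat D L z w)) ≤ (1 - h) * Real.log M + e := by
    refine le_trans ?_ hnf
    rw [← hmarg.CH]
    refine CH_mono_cond hQ.nonneg fun w w' hw hw' hh => ?_
    have e1 : cv M (x (z w.2)) = cv M (x (z w'.2)) := (Prod.ext_iff.mp hh).1
    have e2 : z w.1.1.1.1.1.1.1 = z w'.1.1.1.1.1.1.1 :=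
      (Prod.ext_iff.mp (Prod.ext_iff.mp hh).2).2
    have k1 := (hQpos w hw).1
    have k2 := (hQpos w' hw').1
    have e3 : y w.2 = y w'.2 := by
      rw [R8_y H k1, R8_y H k2]
      exact H.yz _ _ (R8_pos H.law L z k1).1.1 (R8_pos H.law L z k2).1.1 e2
    exact Prod.ext e1 e3
  have hrt : ∀ w, 0 < R8 p L z w → ∀ k, |rt M t w k| ≤ 1 := by
    intro w hw k
    have h1 := tm_le H hw k
    have h2 : |((tm t k w : ℤ) : ℝ)| ≤ M := by exact_mod_cast h1
    unfold rt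
    rw [abs_div, abs_of_pos hM1, div_le_one hM1]
    exact h2
  refine (count4 hQ (fun k w => tm t k w) (fun w => cv M (x (z w.2)))
    (fun w => ⌊(M : ℝ) * val x J (z w.2)⌋) (fun w => ⌊rt M t w 0 / Δ⌋) (dat D L z)
    (U := 2 * M) (I := 2 * (A / (η' * d ^ b)) + 1) (κ := 18 * (8 * K + 1) / d)
    (κ' := A * K / (η' * d ^ b)) (B := (1 - h) * Real.log M + e) ?_ hN ?_ ?_ ?_)
  · intro w w' _ _ _ i
    have b1 := cv_le (M := M) (H.x1 (z w.2)) i
    have b2 := cv_le (M := M) (H.x1 (z w'.2)) i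
    have b3 := abs_sub (cv M (x (z w.2)) i) (cv M (x (z w'.2)) i)
    have b4 : |cv M (x (z w.2)) i - cv M (x (z w'.2)) i| ≤ 2 * (M : ℤ) := by linarith
    exact_mod_cast b4
  · intro w w' hw hw' _
    have b1 := hrt w (hQpos w hw).1 0
    have b2 := hrt w' (hQpos w' hw').1 0
    have h1 := Int.floor_le (rt M t w 0 / Δ)
    have h2 := Int.lt_floor_add_one (rt M t w 0 / Δ)
    have h3 := Int.floor_le (rt M t w' 0 / Δ)
    have h4 := Int.lt_floor_add_one (rt M t w' 0 / Δ)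
    have e1 : A / (η' * d ^ b) = 1 / Δ := by
      rw [hΔ]
      field_simp
    have h5 : |rt M t w 0 / Δ - rt M t w' 0 / Δ| ≤ 2 * (1 / Δ) := by
      rw [← sub_div, abs_div, abs_of_pos hΔ0, mul_one_div]
      refine div_le_div_of_nonneg_right ?_ hΔ0.le
      have := abs_sub (rt M t w 0) (rt M t w' 0)
      linarith
    rw [e1]
    push_cast
    rw [abs_le] at h5 ⊢
    constructor <;> linarith [h5.1, h5.2]
  · intro w w' hw hw' hidx hNN huu hWW
    obtain ⟨k1, k2⟩ := hQpos w hw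
    obtain ⟨k3, k4⟩ := hQpos w' hw'
    obtain ⟨g1, g2⟩ := hgood w k1 k2
    refine hfirst H hK hKM hd hd1 hη hΔ0 (by linarith) hAΔ k1 k3 g1 hWW huu hNN ?_ g2
    have h1 := Int.abs_sub_lt_one_of_floor_eq_floor hidx
    rw [← sub_div, abs_div, abs_of_pos hΔ0, div_lt_one hΔ0] at h1
    exact h1.le
  · intro w w' hw hw' h0 huu hWW k
    obtain ⟨k1, k2⟩ := hQpos w hw
    obtain ⟨k3, k4⟩ := hQpos w' hw'
    exact pair_near hb H hK hKM hd k1 k3 (hgood w k1 k2).1 hWW huu h0 k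

end core

end Pool.CHN76
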